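import Mathlib

/-! Quartic version: identities for the quartic form of an integral point. -/

set_option autoImplicit false

namespace Pool.Agent.R418.HL

/-- The coefficients of the form `f(m u₁ + n u₂, m v₁ + n v₂)`,
`f = X⁴ - 6 x X² Y² + 8 y X Y³ - (3 x² + 4 A) Y⁴`. -/
def c0 (x y A u v : ℤ) : ℤ := u ^ 4 - 6 * x * u ^ 2 * v ^ 2 + 8 * y * u * v ^ 3 -
  (3 * x ^ 2 + 4 * A) * v ^ 4

def c1 (x y A u v s w : ℤ) : ℤ := u ^ 3 * s - 3 * x * (u * s * v ^ 2 + u ^ 2 * v * w) +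
  2 * y * (3 * u * v ^ 2 * w + s * v ^ 3) - (3 * x ^ 2 + 4 * A) * v ^ 3 * w

def c2 (x y A u v s w : ℤ) : ℤ := u ^ 2 * s ^ 2 - x * (u ^ 2 * w ^ 2 + 4 * u * s * v * w +
  s ^ 2 * v ^ 2) + 4 * y * (u * v * w ^ 2 + s * w * v ^ 2) - (3 * x ^ 2 + 4 * A) * v ^ 2 * w ^ 2

theorem value (x y A u v s w : ℤ) :
    c0 x y A u v * w ^ 4 + 4 * c1 x y A u v s w * w ^ 3 * (-v) +
      6 * c2 x y A u v s w * w ^ 2 * (-v) ^ 2 + 4 * c1 x y A s w u v * w * (-v) ^ 3 +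
      c0 x y A s w * (-v) ^ 4 = (u * w - s * v) ^ 4 := by
  unfold c0 c1 c2
  ring

theorem grad_p (x y A u v s w : ℤ) :
    c0 x y A u v * w ^ 3 + 3 * c1 x y A u v s w * w ^ 2 * (-v) +
      3 * c2 x y A u v s w * w * (-v) ^ 2 + c1 x y A s w u v * (-v) ^ 3 =
      (u * w - s * v) ^ 3 * u := by
  unfold c0 c1 c2
  ring

theorem grad_q (x y A u v s w : ℤ) :
    c0 x y A s w * (-v) ^ 3 + 3 * c1 x y A s w u v * (-v) ^ 2 * w +
      3 * c2 x y A u v s w * (-v) * w ^ 2 + c1 x y A u v s w * w ^ 3 =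
      (u * w - s * v) ^ 3 * s := by
  unfold c0 c1 c2
  ring

/-- the invariants of the binary quartic form `(a, 4 b, 6 c, 4 d, e)` -/
def invI (a b c d e : ℤ) : ℤ := a * e - 4 * b * d + 3 * c ^ 2

def invJ (a b c d e : ℤ) : ℤ := a * c * e + 2 * b * c * d - a * d ^ 2 - b ^ 2 * e - c ^ 3

theorem inv_I (x y A u v s w : ℤ) :
    invI (c0 x y A u v) (c1 x y A u v s w) (c2 x y A u v s w) (c1 x y A s w u v)
      (c0 x y A s w) = (u * w - s * v) ^ 4 * (-4 * A) := by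
  unfold invI c0 c1 c2
  ring

theorem inv_J (x y A u v s w : ℤ) :
    invJ (c0 x y A u v) (c1 x y A u v s w) (c2 x y A u v s w) (c1 x y A s w u v)
      (c0 x y A s w) = (u * w - s * v) ^ 6 * (-4 * (y ^ 2 - x ^ 3 - A * x)) := by
  unfold invJ c0 c1 c2
  ring

theorem invI_swap (a b c d e : ℤ) : invI e d c b a = invI a b c d e := by
  unfold invI; ring

theorem invJ_swap (a b c d e : ℤ) : invJ e d c b a = invJ a b c d e := by
  unfold invJ; ring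

theorem invI_shift (a b c d e n : ℤ) :
    invI a (b + n * a) (c + 2 * n * b + n ^ 2 * a) (d + 3 * n * c + 3 * n ^ 2 * b + n ^ 3 * a)
      (e + 4 * n * d + 6 * n ^ 2 * c + 4 * n ^ 3 * b + n ^ 4 * a) = invI a b c d e := by
  unfold invI; ring

theorem invJ_shift (a b c d e n : ℤ) :
    invJ a (b + n * a) (c + 2 * n * b + n ^ 2 * a) (d + 3 * n * c + 3 * n ^ 2 * b + n ^ 3 * a)
      (e + 4 * n * d + 6 * n ^ 2 * c + 4 * n ^ 3 * b + n ^ 4 * a) = invJ a b c d e := by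
  unfold invJ; ring

end Pool.Agent.R418.HL
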