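import Mathlib
import Pool.Agent.R418.HL.P1
import Pool.Agent.W12.HZ.Pre

/-! Quartic version: the real variable part. -/

set_option autoImplicit false

namespace Pool.Agent.R418.HL

open Polynomial
open Pool.Agent.W12.HZ.Pre (shift_bd one_bd)

/-- the five term polynomial -/
noncomputable def p5 (a b c d e : ℝ) : ℝ[X] :=
  C a + C b * X + C c * X ^ 2 + C d * X ^ 3 + C e * X ^ 4

theorem p5_eval (a b c d e x : ℝ) :
    (p5 a b c d e).eval x = a + b * x + c * x ^ 2 + d * x ^ 3 + e * x ^ 4 := by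
  simp [p5]

theorem p5_deg (a b c d e : ℝ) : (p5 a b c d e).natDegree ≤ 4 := by
  unfold p5
  compute_degree

theorem mul_bd {q : ℝ[X]} {M : ℝ} (hq : ∀ k, |q.coeff k| ≤ M) (a b c d e : ℝ) (k : ℕ) :
    |(p5 a b c d e * q).coeff k| ≤ (|a| + |b| + |c| + |d| + |e|) * M := by
  have hM : 0 ≤ M := (abs_nonneg _).trans (hq 0)
  have e0 : p5 a b c d e * q = C a * X ^ 0 * q + C b * X ^ 1 * q + C c * X ^ 2 * q +
      C d * X ^ 3 * q + C e * X ^ 4 * q := by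
    unfold p5; ring
  rw [e0, coeff_add, coeff_add, coeff_add, coeff_add]
  have h0 := shift_bd hM hq a 0 k
  have h1 := shift_bd hM hq b 1 k
  have h2 := shift_bd hM hq c 2 k
  have h3 := shift_bd hM hq d 3 k
  have h4 := shift_bd hM hq e 4 k
  have e4 := abs_add_le ((C a * X ^ 0 * q).coeff k + (C b * X ^ 1 * q).coeff k +
    (C c * X ^ 2 * q).coeff k + (C d * X ^ 3 * q).coeff k) ((C e * X ^ 4 * q).coeff k)
  have e1 := abs_add_le ((C a * X ^ 0 * q).coeff k + (C b * X ^ 1 * q).coeff k +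
    (C c * X ^ 2 * q).coeff k) ((C d * X ^ 3 * q).coeff k)
  have e2 := abs_add_le ((C a * X ^ 0 * q).coeff k + (C b * X ^ 1 * q).coeff k)
    ((C c * X ^ 2 * q).coeff k)
  have e3 := abs_add_le ((C a * X ^ 0 * q).coeff k) ((C b * X ^ 1 * q).coeff k)
  linarith

theorem pow_bd {q : ℝ[X]} {M : ℝ} (hq : ∀ k, |q.coeff k| ≤ M) (a b c d e : ℝ) (j : ℕ) :
    ∀ k, |(p5 a b c d e ^ j * q).coeff k| ≤ (|a| + |b| + |c| + |d| + |e|) ^ j * M := by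
  induction j with
  | zero => intro k; simpa using hq k
  | succ j ih =>
    intro k
    have e0 : p5 a b c d e ^ (j + 1) * q = p5 a b c d e * (p5 a b c d e ^ j * q) := by ring
    rw [e0]
    refine (mul_bd ih a b c d e k).trans (le_of_eq ?_)
    ring

theorem quartic_cont (p0 p1 p2 p3 p4 : ℝ) :
    Continuous fun h : ℝ => p0 + p1 * h + p2 * h ^ 2 + p3 * h ^ 3 + p4 * h ^ 4 := by fun_prop

/-- a root near `0` -/
theorem root_near {p0 p1 p2 p3 p4 ρ : ℝ} (hρ : 0 ≤ ρ)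
    (h : |p0| + |p2| * ρ ^ 2 + |p3| * ρ ^ 3 + |p4| * ρ ^ 4 ≤ |p1| * ρ) :
    ∃ x : ℝ, |x| ≤ ρ ∧ p0 + p1 * x + p2 * x ^ 2 + p3 * x ^ 3 + p4 * x ^ 4 = 0 := by
  have hc := (quartic_cont p0 p1 p2 p3 p4).continuousOn (s := Set.Icc (-ρ) ρ)
  have hle : -ρ ≤ ρ := by linarith
  have a0 := abs_le.1 (le_refl |p0|)
  have r2 : 0 ≤ ρ ^ 2 := by positivity
  have r3 : 0 ≤ ρ ^ 3 := by positivity
  have r4 : 0 ≤ ρ ^ 4 := by positivity
  have b2 : |p2 * ρ ^ 2| = |p2| * ρ ^ 2 := by rw [abs_mul, abs_of_nonneg r2]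
  have b3 : |p3 * ρ ^ 3| = |p3| * ρ ^ 3 := by rw [abs_mul, abs_of_nonneg r3]
  have b4 : |p4 * ρ ^ 4| = |p4| * ρ ^ 4 := by rw [abs_mul, abs_of_nonneg r4]
  have c2 := abs_le.1 (le_of_eq b2)
  have c3 := abs_le.1 (le_of_eq b3)
  have c4 := abs_le.1 (le_of_eq b4)
  have n2 : p2 * (-ρ) ^ 2 = p2 * ρ ^ 2 := by ring
  have n3 : p3 * (-ρ) ^ 3 = -(p3 * ρ ^ 3) := by ring
  have n4 : p4 * (-ρ) ^ 4 = p4 * ρ ^ 4 := by ring
  rcases le_total 0 p1 with hp | hp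
  · rw [abs_of_nonneg hp] at h
    have h1 : p0 + p1 * (-ρ) + p2 * (-ρ) ^ 2 + p3 * (-ρ) ^ 3 + p4 * (-ρ) ^ 4 ≤ 0 := by
      rw [n2, n3, n4]; linarith [a0.2, c2.2, c3.1, c4.2]
    have h2 : 0 ≤ p0 + p1 * ρ + p2 * ρ ^ 2 + p3 * ρ ^ 3 + p4 * ρ ^ 4 := by
      linarith [a0.1, c2.1, c3.1, c4.1]
    obtain ⟨x, hx, hx0⟩ := intermediate_value_Icc hle hc ⟨h1, h2⟩
    exact ⟨x, abs_le.2 hx, hx0⟩
  · rw [abs_of_nonpos hp] at h
    have h1 : 0 ≤ p0 + p1 * (-ρ) + p2 * (-ρ) ^ 2 + p3 * (-ρ) ^ 3 + p4 * (-ρ) ^ 4 := by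
      rw [n2, n3, n4]; linarith [a0.1, c2.1, c3.2, c4.1]
    have h2 : p0 + p1 * ρ + p2 * ρ ^ 2 + p3 * ρ ^ 3 + p4 * ρ ^ 4 ≤ 0 := by
      linarith [a0.2, c2.2, c3.2, c4.2]
    obtain ⟨x, hx, hx0⟩ := intermediate_value_Icc' hle hc ⟨h2, h1⟩
    exact ⟨x, abs_le.2 hx, hx0⟩

/-- injectivity near `0` -/
theorem lin_low {a1 a2 a3 a4 z κ : ℝ}
    (h : κ + |a2| * |z| + |a3| * |z| ^ 2 + |a4| * |z| ^ 3 ≤ |a1|) :
    κ * |z| ≤ |a1 * z + a2 * z ^ 2 + a3 * z ^ 3 + a4 * z ^ 4| := by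
  have e1 : |a1 * z| ≤ |a1 * z + a2 * z ^ 2 + a3 * z ^ 3 + a4 * z ^ 4| + |a2 * z ^ 2| +
      |a3 * z ^ 3| + |a4 * z ^ 4| := by
    have : a1 * z = (a1 * z + a2 * z ^ 2 + a3 * z ^ 3 + a4 * z ^ 4) + (-(a2 * z ^ 2)) +
      (-(a3 * z ^ 3)) + (-(a4 * z ^ 4)) := by ring
    calc |a1 * z| = |(a1 * z + a2 * z ^ 2 + a3 * z ^ 3 + a4 * z ^ 4) + (-(a2 * z ^ 2)) +
      (-(a3 * z ^ 3)) + (-(a4 * z ^ 4))| := by
          rw [← this]
      _ ≤ |(a1 * z + a2 * z ^ 2 + a3 * z ^ 3 + a4 * z ^ 4) + (-(a2 * z ^ 2)) +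
      (-(a3 * z ^ 3))| + |-(a4 * z ^ 4)| := abs_add_le _ _
      _ ≤ |(a1 * z + a2 * z ^ 2 + a3 * z ^ 3 + a4 * z ^ 4) + (-(a2 * z ^ 2))| +
        |-(a3 * z ^ 3)| + |-(a4 * z ^ 4)| := by gcongr; exact abs_add_le _ _
      _ ≤ |a1 * z + a2 * z ^ 2 + a3 * z ^ 3 + a4 * z ^ 4| + |-(a2 * z ^ 2)| + |-(a3 * z ^ 3)| +
        |-(a4 * z ^ 4)| := by
          gcongr; exact abs_add_le _ _
      _ = _ := by rw [abs_neg, abs_neg, abs_neg]
  rw [abs_mul, abs_mul, abs_mul, abs_mul, abs_pow, abs_pow, abs_pow] at e1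
  have e2 := mul_le_mul_of_nonneg_right h (abs_nonneg z)
  nlinarith

theorem abs3 (a b c : ℝ) : |a + b + c| ≤ |a| + |b| + |c| :=
  (abs_add_le _ _).trans (by gcongr; exact abs_add_le _ _)

theorem rootA {C e A B G D E y : ℝ} (hC : 1 ≤ C) (he : 0 ≤ e) (he1 : 400 * C ^ 5 * e ≤ 1)
    (hA : |A| ≤ C) (hB : |B| ≤ C) (hG : |G| ≤ C) (hy : |y| ≤ C)
    (hg : |A * y ^ 4 + 4 * B * y ^ 3 + 6 * G * y ^ 2 + 4 * D * y + E| ≤ e)
    (hd : 1 ≤ C * |A * y ^ 3 + 3 * B * y ^ 2 + 3 * G * y + D|) :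
    ∃ r : ℝ, |r - y| ≤ C * e ∧ A * r ^ 4 + 4 * B * r ^ 3 + 6 * G * r ^ 2 + 4 * D * r + E = 0 := by
  have hC0 : 0 < C := by linarith
  have hC5 : 1 ≤ C ^ 5 := one_le_pow₀ hC
  have he3 : 1 * e ≤ C ^ 5 * e := by gcongr
  have he2 : e ≤ 1 := by linarith
  have hCC : C ≤ C ^ 2 := by nlinarith
  have hCC2 : C ^ 2 ≤ C ^ 3 := pow_le_pow_right₀ hC (by norm_num)
  have h1 : |6 * (A * y ^ 2 + 2 * B * y + G)| ≤ 24 * C ^ 3 := by
    rw [abs_mul, abs_of_pos (by norm_num : (0 : ℝ) < 6)]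
    have : |A * y ^ 2 + 2 * B * y + G| ≤ C * C ^ 2 + 2 * C * C + C := by
      calc |A * y ^ 2 + 2 * B * y + G| ≤ |A * y ^ 2| + |2 * B * y| + |G| := abs3 _ _ _
        _ = |A| * |y| ^ 2 + 2 * |B| * |y| + |G| := by
          rw [abs_mul, abs_mul, abs_mul, abs_pow, abs_of_pos (by norm_num : (0 : ℝ) < 2)]
        _ ≤ _ := by gcongr
    have h2 : C * C ^ 2 + 2 * C * C + C = C ^ 3 + 2 * C ^ 2 + C := by ring
    linarith
  have h1' : |4 * (A * y + B)| ≤ 8 * C ^ 2 := by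
    rw [abs_mul, abs_of_pos (by norm_num : (0 : ℝ) < 4)]
    have : |A * y + B| ≤ C * C + C := by
      calc |A * y + B| ≤ |A * y| + |B| := abs_add_le _ _
        _ = |A| * |y| + |B| := by rw [abs_mul]
        _ ≤ _ := by gcongr
    have h2 : C * C + C = C ^ 2 + C := by ring
    linarith
  have t1 : |6 * (A * y ^ 2 + 2 * B * y + G)| * (C * e) ^ 2 ≤ e := by
    calc |6 * (A * y ^ 2 + 2 * B * y + G)| * (C * e) ^ 2 ≤ 24 * C ^ 3 * (C * e) ^ 2 := by gcongr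
      _ = 24 * (C ^ 5 * e) * e := by ring
      _ ≤ 1 * e := by
        apply mul_le_mul_of_nonneg_right _ he
        linarith
      _ = e := one_mul e
  have t1' : |4 * (A * y + B)| * (C * e) ^ 3 ≤ e := by
    calc |4 * (A * y + B)| * (C * e) ^ 3 ≤ 8 * C ^ 2 * (C * e) ^ 3 := by gcongr
      _ = 8 * (C ^ 5 * e) * e * e := by ring
      _ ≤ 1 * 1 * e := by
        gcongr
        linarith
      _ = e := by ring
  have t2 : |A| * (C * e) ^ 4 ≤ e := by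
    calc |A| * (C * e) ^ 4 ≤ C * (C * e) ^ 4 := by gcongr
      _ = (C ^ 5 * e) * e * e * e := by ring
      _ ≤ 1 * 1 * 1 * e := by
        gcongr
        linarith
      _ = e := by ring
  have t3 : 4 * e ≤ |4 * (A * y ^ 3 + 3 * B * y ^ 2 + 3 * G * y + D)| * (C * e) := by
    rw [abs_mul, abs_of_pos (by norm_num : (0 : ℝ) < 4)]
    calc 4 * e = 4 * (1 * e) := by ring
      _ ≤ 4 * (C * |A * y ^ 3 + 3 * B * y ^ 2 + 3 * G * y + D| * e) := by gcongr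
      _ = _ := by ring
  obtain ⟨x, hx, hx0⟩ := root_near
    (p0 := A * y ^ 4 + 4 * B * y ^ 3 + 6 * G * y ^ 2 + 4 * D * y + E)
    (p1 := 4 * (A * y ^ 3 + 3 * B * y ^ 2 + 3 * G * y + D))
    (p2 := 6 * (A * y ^ 2 + 2 * B * y + G)) (p3 := 4 * (A * y + B)) (p4 := A) (ρ := C * e)
    (by positivity) (by linarith)
  refine ⟨y + x, ?_, ?_⟩
  · have : y + x - y = x := by ring
    rw [this]; exact hx
  · linear_combination hx0

theorem c2r (C : ℝ) (hC : 1 ≤ C) : ∃ c₀ C₄ : ℝ, 0 < c₀ ∧ 1 ≤ C₄ ∧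
    ∀ (S L e A B G D : ℝ) (ι : Type) (τ : ι → ℤ) (E y : ι → ℝ) (i₀ : ι), 0 < S → 0 ≤ L →
    C₄ * L ≤ S → 0 ≤ e → C₄ * e ≤ 1 → |A| ≤ C → |B| ≤ C → |G| ≤ C → |D| ≤ C →
    (∀ i, |y i| ≤ C) →
    (∀ i, |A * y i ^ 4 + 4 * B * y i ^ 3 + 6 * G * y i ^ 2 + 4 * D * y i + E i| ≤ e) →
    (∀ i, 1 ≤ C * |A * y i ^ 3 + 3 * B * y i ^ 2 + 3 * G * y i + D|) →
    (∀ i j, |y i - y j| ≤ c₀) →
    (∀ i, (τ i : ℝ) = S * (E i - E i₀)) → (∀ i, |(τ i : ℝ)| ≤ L) → Param C₄ S L e τ y := by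
  have hC0 : 0 < C := by linarith
  have hC5 : 1 ≤ C ^ 5 := one_le_pow₀ hC
  refine ⟨1 / (200 * C ^ 4), 400 * C ^ 5, by positivity, by linarith, ?_⟩
  intro S L e A B G D ι τ E y i₀ hS hL hLS he he1 hA hB hG hD hy hg hd hyy hτ hτL
  choose r hr1 hr2 using fun i => rootA hC he he1 hA hB hG (hy i) (hg i) (hd i)
  intro m
  have he3 : 1 * e ≤ C ^ 5 * e := by gcongr
  have he2 : e ≤ 1 := by linarith
  have hCe : C * e ≤ 1 / (400 * C ^ 4) := by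
    rw [le_div_iff₀ (by positivity)]
    calc C * e * (400 * C ^ 4) = 400 * C ^ 5 * e := by ring
      _ ≤ 1 := he1
  have hCe' : C * e ≤ C := by
    calc C * e ≤ C * 1 := by gcongr
      _ = C := mul_one C
  obtain ⟨y0, hy0def⟩ : ∃ y0, y0 = r i₀ := ⟨_, rfl⟩
  have hy0y : |y0 - y i₀| ≤ C * e := by rw [hy0def]; exact hr1 i₀
  have hy0 : |y0| ≤ 2 * C := by
    have e1 : y0 = (y0 - y i₀) + y i₀ := by ring
    calc |y0| = |(y0 - y i₀) + y i₀| := by rw [← e1]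
      _ ≤ |y0 - y i₀| + |y i₀| := abs_add_le _ _
      _ ≤ 2 * C := by linarith [hy i₀]
  obtain ⟨a1, ha1⟩ : ∃ a1, a1 = 4 * (A * y0 ^ 3 + 3 * B * y0 ^ 2 + 3 * G * y0 + D) := ⟨_, rfl⟩
  obtain ⟨a2, ha2⟩ : ∃ a2, a2 = 6 * (A * y0 ^ 2 + 2 * B * y0 + G) := ⟨_, rfl⟩
  obtain ⟨a3, ha3⟩ : ∃ a3, a3 = 4 * (A * y0 + B) := ⟨_, rfl⟩
  have h4 : (0 : ℝ) < 4 := by norm_num
  have h6 : (0 : ℝ) < 6 := by norm_num
  have h3 : (0 : ℝ) < 3 := by norm_num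
  have hC12 : C ≤ C ^ 2 := by nlinarith
  have hC23 : C ^ 2 ≤ C ^ 3 := pow_le_pow_right₀ hC (by norm_num)
  have hC34 : C ^ 3 ≤ C ^ 4 := pow_le_pow_right₀ hC (by norm_num)
  have hC45 : C ^ 4 ≤ C ^ 5 := pow_le_pow_right₀ hC (by norm_num)
  have b1 : |a1| ≤ 108 * C ^ 4 := by
    rw [ha1, abs_mul, abs_of_pos h4]
    have c1 : |A * y0 ^ 3 + 3 * B * y0 ^ 2 + 3 * G * y0 + D| ≤
        C * (2 * C) ^ 3 + 3 * C * (2 * C) ^ 2 + 3 * C * (2 * C) + C := by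
      calc |A * y0 ^ 3 + 3 * B * y0 ^ 2 + 3 * G * y0 + D|
          ≤ |A * y0 ^ 3 + 3 * B * y0 ^ 2 + 3 * G * y0| + |D| := abs_add_le _ _
        _ ≤ |A * y0 ^ 3| + |3 * B * y0 ^ 2| + |3 * G * y0| + |D| := by
          gcongr; exact abs3 _ _ _
        _ = |A| * |y0| ^ 3 + 3 * |B| * |y0| ^ 2 + 3 * |G| * |y0| + |D| := by
          rw [abs_mul, abs_mul, abs_mul, abs_mul, abs_mul, abs_pow, abs_pow, abs_of_pos h3]
        _ ≤ _ := by gcongr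
    have c2 : C * (2 * C) ^ 3 + 3 * C * (2 * C) ^ 2 + 3 * C * (2 * C) + C =
      8 * C ^ 4 + 12 * C ^ 3 + 6 * C ^ 2 + C := by ring
    linarith
  have b2 : |a2| ≤ 54 * C ^ 3 := by
    rw [ha2, abs_mul, abs_of_pos h6]
    have c1 : |A * y0 ^ 2 + 2 * B * y0 + G| ≤ C * (2 * C) ^ 2 + 2 * C * (2 * C) + C := by
      calc |A * y0 ^ 2 + 2 * B * y0 + G| ≤ |A * y0 ^ 2| + |2 * B * y0| + |G| := abs3 _ _ _
        _ = |A| * |y0| ^ 2 + 2 * |B| * |y0| + |G| := by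
          rw [abs_mul, abs_mul, abs_mul, abs_pow, abs_of_pos (by norm_num : (0 : ℝ) < 2)]
        _ ≤ C * (2 * C) ^ 2 + 2 * C * (2 * C) + C := by gcongr
    have c2 : C * (2 * C) ^ 2 + 2 * C * (2 * C) + C = 4 * C ^ 3 + 4 * C ^ 2 + C := by ring
    linarith
  have b3 : |a3| ≤ 12 * C ^ 2 := by
    rw [ha3, abs_mul, abs_of_pos h4]
    have c1 : |A * y0 + B| ≤ C * (2 * C) + C := by
      calc |A * y0 + B| ≤ |A * y0| + |B| := abs_add_le _ _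
        _ = |A| * |y0| + |B| := by rw [abs_mul]
        _ ≤ _ := by gcongr
    have c2 : C * (2 * C) + C = 2 * C ^ 2 + C := by ring
    linarith
  have b4 : 2 ≤ C * |a1| := by
    have c1 : |A * y i₀ ^ 3 + 3 * B * y i₀ ^ 2 + 3 * G * y i₀ + D| ≤
        |A * y0 ^ 3 + 3 * B * y0 ^ 2 + 3 * G * y0 + D| + C * e * (19 * C ^ 3) := by
      have c2 : A * y i₀ ^ 3 + 3 * B * y i₀ ^ 2 + 3 * G * y i₀ + D =
          (A * y0 ^ 3 + 3 * B * y0 ^ 2 + 3 * G * y0 + D) +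
          (-(y0 - y i₀)) * (A * (y0 ^ 2 + y0 * y i₀ + y i₀ ^ 2) + 3 * B * (y0 + y i₀) +
            3 * G) := by ring
      have c3 : |A * (y0 ^ 2 + y0 * y i₀ + y i₀ ^ 2) + 3 * B * (y0 + y i₀) + 3 * G| ≤
          19 * C ^ 3 := by
        have c4 : |y0 + y i₀| ≤ 3 * C := (abs_add_le _ _).trans (by linarith [hy i₀])
        have c5 : |y0 ^ 2 + y0 * y i₀ + y i₀ ^ 2| ≤ (2 * C) ^ 2 + 2 * C * C + C ^ 2 := by
          refine (abs3 _ _ _).trans ?_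
          rw [abs_mul, abs_pow, abs_pow]
          have := hy i₀
          gcongr
        calc |A * (y0 ^ 2 + y0 * y i₀ + y i₀ ^ 2) + 3 * B * (y0 + y i₀) + 3 * G|
            ≤ |A * (y0 ^ 2 + y0 * y i₀ + y i₀ ^ 2)| + |3 * B * (y0 + y i₀)| + |3 * G| :=
              abs3 _ _ _
          _ = |A| * |y0 ^ 2 + y0 * y i₀ + y i₀ ^ 2| + 3 * |B| * |y0 + y i₀| + 3 * |G| := by
            rw [abs_mul, abs_mul, abs_mul, abs_mul, abs_of_pos h3]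
          _ ≤ C * ((2 * C) ^ 2 + 2 * C * C + C ^ 2) + 3 * C * (3 * C) + 3 * C := by gcongr
          _ = 7 * C ^ 3 + 9 * C ^ 2 + 3 * C := by ring
          _ ≤ 19 * C ^ 3 := by linarith
      calc |A * y i₀ ^ 3 + 3 * B * y i₀ ^ 2 + 3 * G * y i₀ + D| =
          |(A * y0 ^ 3 + 3 * B * y0 ^ 2 + 3 * G * y0 + D) +
          (-(y0 - y i₀)) * (A * (y0 ^ 2 + y0 * y i₀ + y i₀ ^ 2) + 3 * B * (y0 + y i₀) +
            3 * G)| := by rw [← c2]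
        _ ≤ |A * y0 ^ 3 + 3 * B * y0 ^ 2 + 3 * G * y0 + D| +
          |(-(y0 - y i₀)) * (A * (y0 ^ 2 + y0 * y i₀ + y i₀ ^ 2) + 3 * B * (y0 + y i₀) +
            3 * G)| := abs_add_le _ _
        _ = |A * y0 ^ 3 + 3 * B * y0 ^ 2 + 3 * G * y0 + D| +
          |y0 - y i₀| * |A * (y0 ^ 2 + y0 * y i₀ + y i₀ ^ 2) + 3 * B * (y0 + y i₀) +
            3 * G| := by
          rw [abs_mul, abs_neg]
        _ ≤ _ := by gcongr
    have c5 : C * (C * e * (19 * C ^ 3)) ≤ 1 / 8 := by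
      have : C * (C * e * (19 * C ^ 3)) = 19 / 400 * (400 * C ^ 5 * e) := by ring
      rw [this]; linarith
    have c6 : C * |A * y i₀ ^ 3 + 3 * B * y i₀ ^ 2 + 3 * G * y i₀ + D| ≤
      C * (|A * y0 ^ 3 + 3 * B * y0 ^ 2 + 3 * G * y0 + D| + C * e * (19 * C ^ 3)) := by gcongr
    have c7 := hd i₀
    rw [ha1, abs_mul, abs_of_pos h4]
    have c8 : C * (|A * y0 ^ 3 + 3 * B * y0 ^ 2 + 3 * G * y0 + D| + C * e * (19 * C ^ 3)) =
      C * |A * y0 ^ 3 + 3 * B * y0 ^ 2 + 3 * G * y0 + D| + C * (C * e * (19 * C ^ 3)) := by ring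
    linarith
  have hz : ∀ i, |r i - y0| ≤ 1 / (100 * C ^ 4) := by
    intro i
    have e1 : r i - y0 = (r i - y i) + (y i - y i₀) + (-(y0 - y i₀)) := by ring
    have e2 : 1 / (100 * C ^ 4) = 1 / (400 * C ^ 4) + 1 / (200 * C ^ 4) + 1 / (400 * C ^ 4) := by
      field_simp; norm_num
    calc |r i - y0| = |(r i - y i) + (y i - y i₀) + (-(y0 - y i₀))| := by rw [← e1]
      _ ≤ |r i - y i| + |y i - y i₀| + |-(y0 - y i₀)| := abs3 _ _ _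
      _ = |r i - y i| + |y i - y i₀| + |y0 - y i₀| := by rw [abs_neg (y0 - y i₀)]
      _ ≤ 1 / (100 * C ^ 4) := by linarith [hr1 i, hyy i i₀]
  have hrel : ∀ i, (τ i : ℝ) = S * (-(a1 * (r i - y0) + a2 * (r i - y0) ^ 2 +
      a3 * (r i - y0) ^ 3 + A * (r i - y0) ^ 4)) := by
    intro i
    rw [hτ i, ha1, ha2, ha3]
    have h1 := hr2 i
    have h2 := hr2 i₀
    rw [← hy0def] at h2
    linear_combination S * h1 - S * h2
  have hzL : ∀ i, |r i - y0| ≤ C * (L / S) := by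
    intro i
    have hz1 := hz i
    have hcond : 1 / C + |a2| * |r i - y0| + |a3| * |r i - y0| ^ 2 + |A| * |r i - y0| ^ 3 ≤
        |a1| := by
      have c8 : 0 < 1 / C := by positivity
      have c1 : |a2| * |r i - y0| ≤ 54 * C ^ 3 * (1 / (100 * C ^ 4)) := by gcongr
      have c2 : 54 * C ^ 3 * (1 / (100 * C ^ 4)) = 54 / 100 * (1 / C) := by field_simp
      have c3 : |a3| * |r i - y0| ^ 2 ≤ 12 * C ^ 2 * (1 / (100 * C ^ 4)) ^ 2 := by gcongr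
      have c4 : 12 * C ^ 2 * (1 / (100 * C ^ 4)) ^ 2 = 12 / 10000 * (1 / C) * (1 / C ^ 5) := by
        field_simp; norm_num
      have c5 : 1 / C ^ 5 ≤ 1 := by
        rw [div_le_one (by positivity)]; exact hC5
      have c6 : 12 / 10000 * (1 / C) * (1 / C ^ 5) ≤ 12 / 10000 * (1 / C) * 1 := by gcongr
      have c3' : |A| * |r i - y0| ^ 3 ≤ C * (1 / (100 * C ^ 4)) ^ 3 := by gcongr
      have c4' : C * (1 / (100 * C ^ 4)) ^ 3 = 1 / 1000000 * (1 / C) * (1 / C ^ 5) ^ 2 := by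
        field_simp; norm_num
      have c6' : 1 / 1000000 * (1 / C) * (1 / C ^ 5) ^ 2 ≤ 1 / 1000000 * (1 / C) * 1 ^ 2 := by
        gcongr
      have c7 : 2 * (1 / C) ≤ |a1| := by
        rw [mul_one_div, div_le_iff₀ hC0]
        linarith
      linarith
    have h1 := lin_low hcond
    have h2 : |a1 * (r i - y0) + a2 * (r i - y0) ^ 2 + a3 * (r i - y0) ^ 3 +
        A * (r i - y0) ^ 4| ≤ L / S := by
      rw [le_div_iff₀ hS]
      have h3 := hτL i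
      rw [hrel i, abs_mul, abs_neg, abs_of_pos hS] at h3
      linarith
    have h4 : 1 / C * |r i - y0| ≤ L / S := h1.trans h2
    calc |r i - y0| = C * (1 / C * |r i - y0|) := by field_simp
      _ ≤ C * (L / S) := by gcongr
  have hC₄ : C ≤ 400 * C ^ 5 := by linarith
  have hC41 : 1 ≤ 400 * C ^ 5 := by linarith
  have hLS0 : 0 ≤ L / S := by positivity
  refine ⟨fun j => p5 0 (-a1) (-a2) (-a3) (-A) ^ (j : ℕ), y0, 1, fun _ => 1, fun i => r i - y0,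
    fun i => y i - r i, ?_, ?_, ?_, ?_, ?_, ?_, ?_, ?_, ?_⟩
  · intro j
    refine (natDegree_pow_le_of_le (j : ℕ) (p5_deg _ _ _ _ _)).trans ?_
    have := j.2
    omega
  · intro j k
    have h1 := pow_bd one_bd 0 (-a1) (-a2) (-a3) (-A) (j : ℕ) k
    rw [mul_one] at h1
    refine h1.trans ?_
    rw [mul_one, abs_zero, abs_neg, abs_neg, abs_neg, abs_neg, zero_add]
    have h2 : |a1| + |a2| + |a3| + |A| ≤ 400 * C ^ 5 := by linarith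
    calc (|a1| + |a2| + |a3| + |A|) ^ (j : ℕ) ≤ (400 * C ^ 5) ^ (j : ℕ) := by gcongr
      _ ≤ (400 * C ^ 5) ^ m := pow_le_pow_right₀ hC41 j.2.le
  · linarith
  · rw [abs_one]; exact hC41
  · intro i
    rw [mul_one]
    exact one_le_pow₀ hC41
  · intro i
    refine (hzL i).trans ?_
    gcongr
  · intro i
    show |y i - r i| ≤ _
    rw [abs_sub_comm]
    refine (hr1 i).trans ?_
    gcongr
  · intro i j
    show 1 * (τ i : ℝ) ^ (j : ℕ) =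
      S ^ (j : ℕ) * (p5 0 (-a1) (-a2) (-a3) (-A) ^ (j : ℕ)).eval (r i - y0)
    rw [eval_pow, p5_eval, ← mul_pow, one_mul, hrel i]
    congr 1
    ring
  · intro i
    show y i = y0 + 1 * (r i - y0) + (y i - r i)
    ring

/-- the inequality between the exponents -/
theorem expo_bound (σ m u : ℝ) (hσ : 0 < σ) (h1 : 6 * σ ≤ m) (h2 : m < 6 * σ + 1) :
    σ * (4 * u - 2 * m) + (m ^ 2 - m) / 6 - 5 / 6 * u ^ 2 ≤ -σ ^ 2 := by
  have hu : 4 * u * σ - 5 / 6 * u ^ 2 ≤ 24 / 5 * σ ^ 2 := by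
    nlinarith [sq_nonneg (5 * u - 12 * σ)]
  obtain ⟨r, hr⟩ : ∃ r, m = 6 * σ + r := ⟨m - 6 * σ, by ring⟩
  have hr0 : 0 ≤ r := by linarith
  have hr1 : r < 1 := by linarith
  have hm : -(2 * m * σ) + (m ^ 2 - m) / 6 ≤ -6 * σ ^ 2 := by
    rw [hr]
    have e : -(2 * (6 * σ + r) * σ) + ((6 * σ + r) ^ 2 - (6 * σ + r)) / 6 =
        -6 * σ ^ 2 + (-(r * (1 - r)) / 6 - σ) := by ring
    rw [e]
    have : 0 ≤ r * (1 - r) := mul_nonneg hr0 (by linarith)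
    linarith
  have hs : 0 ≤ σ ^ 2 := sq_nonneg σ
  have e : σ * (4 * u - 2 * m) + (m ^ 2 - m) / 6 - 5 / 6 * u ^ 2 =
      (4 * u * σ - 5 / 6 * u ^ 2) + (-(2 * m * σ) + (m ^ 2 - m) / 6) := by ring
  rw [e]
  linarith

theorem par (C₆ : ℝ) (hC : 1 ≤ C₆) : ∃ S₀ : ℝ, 1 ≤ S₀ ∧ ∀ (S σ : ℝ) (m : ℕ), S₀ ≤ S →
    1 / 10 ≤ σ → m = ⌈6 * σ⌉₊ → ∃ Y : ℝ, C₆ ^ (m ^ 2) * Y < 1 ∧ ∀ u : ℤ, |u| ≤ m →
    (S ^ σ) ^ (4 * u - 2 * m) * (S ^ ((1 : ℝ) / 6)) ^ (m * (m - 1)) *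
      (S ^ ((1 : ℝ) / 6) / S) ^ (u.natAbs ^ 2) ≤ Y := by
  refine ⟨C₆ ^ 256 + 1, by have := one_le_pow₀ hC (n := 256); linarith, ?_⟩
  intro S σ m hS hσ hm
  have hC0 : 0 < C₆ := by linarith
  have hC256 : 1 ≤ C₆ ^ 256 := one_le_pow₀ hC
  have hS1 : 1 ≤ S := by linarith
  have hS0 : 0 < S := by linarith
  have hm1 : 6 * σ ≤ m := by rw [hm]; exact Nat.le_ceil _
  have hm2 : (m : ℝ) < 6 * σ + 1 := by rw [hm]; exact Nat.ceil_lt_add_one (by linarith)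
  have hmpos : 1 ≤ m := by
    have : (0 : ℝ) < m := by linarith
    exact_mod_cast this
  refine ⟨S ^ (-σ ^ 2), ?_, ?_⟩
  · have h7 : (m : ℝ) ^ 2 ≤ 256 * σ ^ 2 := by
      have : (m : ℝ) ≤ 16 * σ := by linarith
      have h0 : (0 : ℝ) ≤ m := Nat.cast_nonneg m
      nlinarith
    have h1 : C₆ ^ (m ^ 2) ≤ C₆ ^ (256 * σ ^ 2) := by
      have : C₆ ^ (m ^ 2) = C₆ ^ ((m : ℝ) ^ 2) := by
        rw [← Real.rpow_natCast]; push_cast; rfl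
      rw [this]
      exact Real.rpow_le_rpow_of_exponent_le hC h7
    have h2 : C₆ ^ (256 * σ ^ 2) = (C₆ ^ 256) ^ (σ ^ 2) := by
      rw [← Real.rpow_natCast C₆ 256, ← Real.rpow_mul hC0.le]
      norm_num
    have h3 : S ^ (-σ ^ 2) = (S ^ (σ ^ 2))⁻¹ := Real.rpow_neg hS0.le _
    have hσ0 : 0 < σ ^ 2 := by positivity
    have h4 : (C₆ ^ 256) ^ (σ ^ 2) < S ^ (σ ^ 2) :=
      Real.rpow_lt_rpow (by positivity) (by linarith) hσ0
    have h5 : 0 < S ^ (σ ^ 2) := Real.rpow_pos_of_pos hS0 _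
    rw [h3, ← div_eq_mul_inv, div_lt_one h5]
    exact (h1.trans_eq h2).trans_lt h4
  · intro u _
    have e1 : (S ^ σ) ^ (4 * u - 2 * (m : ℤ)) = S ^ (σ * (4 * (u : ℝ) - 2 * m)) := by
      rw [← Real.rpow_intCast, ← Real.rpow_mul hS0.le]
      push_cast
      rfl
    have e2 : (S ^ ((1 : ℝ) / 6)) ^ (m * (m - 1)) = S ^ (((m : ℝ) ^ 2 - m) / 6) := by
      rw [← Real.rpow_natCast, ← Real.rpow_mul hS0.le]
      congr 1
      rw [Nat.cast_mul, Nat.cast_sub hmpos]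
      push_cast
      ring
    have e3 : (S ^ ((1 : ℝ) / 6) / S) ^ (u.natAbs ^ 2) = S ^ (-(5 / 6 * (u : ℝ) ^ 2)) := by
      have h1 : S ^ ((1 : ℝ) / 6) / S = S ^ (-(5 : ℝ) / 6) := by
        have : S ^ ((1 : ℝ) / 6) / S ^ (1 : ℝ) = S ^ ((1 : ℝ) / 6 - 1) :=
          (Real.rpow_sub hS0 _ _).symm
        rw [Real.rpow_one] at this
        rw [this]
        congr 1
        norm_num
      rw [h1, ← Real.rpow_natCast, ← Real.rpow_mul hS0.le]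
      congr 1
      have : (((u.natAbs ^ 2 : ℕ)) : ℝ) = (u : ℝ) ^ 2 := by
        rw [Nat.cast_pow, Nat.cast_natAbs, Int.cast_abs, sq_abs]
      rw [this]
      ring
    rw [e1, e2, e3, ← Real.rpow_add hS0, ← Real.rpow_add hS0]
    refine Real.rpow_le_rpow_of_exponent_le hS1 ?_
    have := expo_bound σ m u (by linarith) hm1 hm2
    linarith

end Pool.Agent.R418.HL
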