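import Mathlib
import Pool.Agent.R418.HL.P2
import Pool.Agent.W131.HZ.VA2

/-! Quartic version: the determinants vanish. -/

set_option autoImplicit false

namespace Pool.Agent.R418.HL

open Polynomial

noncomputable section

/-- The binary quartic form `(a, 4 b, 6 c, 4 d, e)` is in the box of size `R`, shape `T`, and takes
the value `1` at `(p, q)`, a point of size `V`. -/
structure Good (K R T V : ℝ) (a b c d e p q : ℤ) : Prop where
  ha : |(a : ℝ)| * T ^ 4 ≤ K * R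
  hb : |(b : ℝ)| * T ^ 2 ≤ K * R
  hc : |(c : ℝ)| ≤ K * R
  hd : |(d : ℝ)| ≤ K * (R * T ^ 2)
  he : |(e : ℝ)| ≤ K * (R * T ^ 4)
  hp : |(p : ℝ)| ≤ K * (T * V)
  hq : |(q : ℝ)| * T ≤ K * V
  heq : a * p ^ 4 + 4 * b * p ^ 3 * q + 6 * c * p ^ 2 * q ^ 2 + 4 * d * p * q ^ 3 + e * q ^ 4 = 1

/-- `q` and the first derivative of the form are as large as possible. -/
def Chart (K R T V : ℝ) (a b c d p q : ℤ) : Prop :=
  V ≤ K * (|(q : ℝ)| * T) ∧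
    R * V ^ 3 ≤ K * (T * |((a * p ^ 3 + 3 * b * p ^ 2 * q + 3 * c * p * q ^ 2 + d * q ^ 3 : ℤ) : ℝ)|)

/-- The integral matrix of a family of points. -/
def Mat (m : ℕ) (P Q τ : Fin m ⊕ Fin m → ℤ) : Matrix (Fin m ⊕ Fin m) (Fin m ⊕ Fin m) ℤ :=
  Matrix.of fun i => Sum.elim (fun j : Fin m => P i * τ i ^ (j : ℕ))
    (fun j : Fin m => Q i * τ i ^ (j : ℕ))

lemma qrt_eq {R T a b c d e p q : ℝ} (hR : 0 < R) (hT : 0 < T) (hq : q ≠ 0)
    (h : a * p ^ 4 + 4 * b * p ^ 3 * q + 6 * c * p ^ 2 * q ^ 2 + 4 * d * p * q ^ 3 +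
      e * q ^ 4 = 1) :
    (a * T ^ 4 / R) * (p / (T ^ 2 * q)) ^ 4 + 4 * (b * T ^ 2 / R) * (p / (T ^ 2 * q)) ^ 3 +
      6 * (c / R) * (p / (T ^ 2 * q)) ^ 2 + 4 * (d / (R * T ^ 2)) * (p / (T ^ 2 * q)) +
      e / (R * T ^ 4) = 1 / (R * T ^ 4 * q ^ 4) := by
  rw [← h]
  field_simp

lemma cub_eq {R T a b c d p q : ℝ} (hR : 0 < R) (hT : 0 < T) (hq : q ≠ 0) :
    (a * T ^ 4 / R) * (p / (T ^ 2 * q)) ^ 3 + 3 * (b * T ^ 2 / R) * (p / (T ^ 2 * q)) ^ 2 +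
      3 * (c / R) * (p / (T ^ 2 * q)) + d / (R * T ^ 2) =
      (a * p ^ 3 + 3 * b * p ^ 2 * q + 3 * c * p * q ^ 2 + d * q ^ 3) / (R * T ^ 2 * q ^ 3) := by
  field_simp

lemma y_le {K T V p q : ℝ} (hK : 1 ≤ K) (hT : 0 < T) (hq : q ≠ 0) (hp : |p| ≤ K * (T * V))
    (hV : V ≤ K * (|q| * T)) : |p / (T ^ 2 * q)| ≤ K ^ 2 := by
  have hq' : 0 < |q| := abs_pos.2 hq
  rw [abs_div, abs_mul, abs_of_pos (by positivity : 0 < T ^ 2), div_le_iff₀ (by positivity)]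
  calc |p| ≤ K * (T * V) := hp
    _ ≤ K * (T * (K * (|q| * T))) := by gcongr
    _ = K ^ 2 * (T ^ 2 * |q|) := by ring

lemma e_le {K R T V q : ℝ} (hK : 1 ≤ K) (hR : 1 ≤ R) (hT : 0 < T) (hq : q ≠ 0) (hV0 : 0 < V)
    (hV : V ≤ K * (|q| * T)) : |1 / (R * T ^ 4 * q ^ 4)| ≤ K ^ 4 / V ^ 4 := by
  have hq' : 0 < |q| := abs_pos.2 hq
  have hR0 : 0 < R := by linarith
  have hK0 : 0 < K := by linarith
  rw [abs_div, abs_one, abs_mul, abs_pow, abs_of_pos (by positivity : 0 < R * T ^ 4),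
    div_le_div_iff₀ (by positivity) (by positivity)]
  have h1 : V ^ 4 ≤ (K * (|q| * T)) ^ 4 := pow_le_pow_left₀ hV0.le hV 4
  calc 1 * V ^ 4 ≤ (K * (|q| * T)) ^ 4 := by rw [one_mul]; exact h1
    _ = K ^ 4 * (1 * T ^ 4 * |q| ^ 4) := by ring
    _ ≤ K ^ 4 * (R * T ^ 4 * |q| ^ 4) := by gcongr

lemma low_le {K R T V q F : ℝ} (hK : 1 ≤ K) (hR : 0 < R) (hT : 0 < T) (hq : q ≠ 0)
    (hqV : |q| * T ≤ K * V) (hF : R * V ^ 3 ≤ K * (T * |F|)) :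
    1 ≤ K ^ 4 * |F / (R * T ^ 2 * q ^ 3)| := by
  have hq' : 0 < |q| := abs_pos.2 hq
  have hK0 : 0 < K := by linarith
  rw [abs_div, abs_mul, abs_pow, abs_of_pos (by positivity : 0 < R * T ^ 2), ← mul_div_assoc,
    le_div_iff₀ (by positivity), one_mul]
  have h1 : (|q| * T) ^ 3 ≤ (K * V) ^ 3 := pow_le_pow_left₀ (by positivity) hqV 3
  have h4 : (R * T ^ 2 * |q| ^ 3) * T ≤ (K ^ 4 * |F|) * T := by
    calc (R * T ^ 2 * |q| ^ 3) * T = R * (|q| * T) ^ 3 := by ring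
      _ ≤ R * (K * V) ^ 3 := by gcongr
      _ = K ^ 3 * (R * V ^ 3) := by ring
      _ ≤ K ^ 3 * (K * (T * |F|)) := by gcongr
      _ = (K ^ 4 * |F|) * T := by ring
  exact le_of_mul_le_mul_right h4 hT

lemma param_mono {C₄ K S L V : ℝ} {ι : Type} {τ : ι → ℤ} {y : ι → ℝ} (hC₄ : 1 ≤ C₄) (hK : 1 ≤ K)
    (hL : 0 ≤ L / S) (h : Param C₄ S L (K / V ^ 4) τ y) : Param (C₄ * K) S L (1 / V ^ 4) τ y := by
  have hle : C₄ ≤ C₄ * K := by nlinarith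
  intro m
  obtain ⟨f, l0, l1, ω, z, ε, h1, h2, h3, h4, h5, h6, h7, h8, h9⟩ := h m
  have hpow : C₄ ^ m ≤ (C₄ * K) ^ m := pow_le_pow_left₀ (by linarith) hle m
  refine ⟨f, l0, l1, ω, z, ε, h1, fun j k => (h2 j k).trans hpow, h3.trans hle, h4.trans hle,
    ?_, ?_, ?_, h8, h9⟩
  · intro i
    have h10 := h5 i
    have h11 : 0 < C₄ ^ m := by positivity
    have h12 : 0 ≤ ω i := by
      by_contra hcon
      have := mul_nonpos_of_nonneg_of_nonpos h11.le (not_le.1 hcon).le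
      linarith
    exact h10.trans (mul_le_mul_of_nonneg_right hpow h12)
  · intro i
    exact (h6 i).trans (mul_le_mul_of_nonneg_right hle hL)
  · intro i
    refine (h7 i).trans (le_of_eq ?_)
    ring

lemma param_comp {C₄ S L e : ℝ} {ι κ : Type} {τ : ι → ℤ} {y : ι → ℝ} (g : κ → ι)
    (h : Param C₄ S L e τ y) : Param C₄ S L e (fun i => τ (g i)) (fun i => y (g i)) := by
  intro m
  obtain ⟨f, l0, l1, ω, z, ε, h1, h2, h3, h4, h5, h6, h7, h8, h9⟩ := h m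
  exact ⟨f, l0, l1, fun i => ω (g i), fun i => z (g i), fun i => ε (g i), h1, h2, h3, h4,
    fun i => h5 (g i), fun i => h6 (g i), fun i => h7 (g i), fun i j => h8 (g i) j,
    fun i => h9 (g i)⟩

/-- The integral determinant in terms of the real one. -/
lemma det_eq {m : ℕ} {K T V : ℝ} (hK : 1 ≤ K) (P Q τ : Fin m ⊕ Fin m → ℤ)
    (y : Fin m ⊕ Fin m → ℝ) (hT : 0 < T)
    (hP : ∀ i, (P i : ℝ) = Q i * (T ^ 2 * y i))
    (hQ : ∀ i, |(Q i : ℝ)| * T ≤ K * V) :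
    |((Mat m P Q τ).det : ℝ)| ≤ (K * V) ^ (2 * m) *
      |Matrix.det (Matrix.of fun i : Fin m ⊕ Fin m =>
        Sum.elim (fun j : Fin m => (τ i : ℝ) ^ (j : ℕ)) (fun j : Fin m => y i * (τ i : ℝ) ^ (j : ℕ)))|
      := by
  set M : Matrix (Fin m ⊕ Fin m) (Fin m ⊕ Fin m) ℝ := Matrix.of fun i : Fin m ⊕ Fin m =>
    Sum.elim (fun j : Fin m => (τ i : ℝ) ^ (j : ℕ)) (fun j : Fin m => y i * (τ i : ℝ) ^ (j : ℕ))
    with hM
  set v : Fin m ⊕ Fin m → ℝ := Sum.elim (fun _ => T ^ 2) (fun _ => 1) with hv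
  have h1 : ((Mat m P Q τ).det : ℝ) = ((Mat m P Q τ).map (Int.cast : ℤ → ℝ)).det := by
    have := Int.cast_det (R := ℝ) (Mat m P Q τ)
    exact this
  have h2 : (Mat m P Q τ).map (Int.cast : ℤ → ℝ) = Matrix.of fun i j => (Q i : ℝ) *
      (Matrix.of fun i j => v j * M.submatrix id (Equiv.sumComm (Fin m) (Fin m)) i j) i j := by
    ext i j
    rw [Matrix.map_apply]
    simp only [Matrix.of_apply, Matrix.submatrix_apply, id]
    rcases j with j | j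
    · simp only [Mat, hM, hv, Matrix.of_apply, Sum.elim_inl, Equiv.sumComm_apply, Sum.swap_inl,
        Sum.elim_inr]
      push_cast
      rw [hP i]
      ring
    · simp only [Mat, hM, hv, Matrix.of_apply, Sum.elim_inl, Equiv.sumComm_apply, Sum.swap_inr,
        Sum.elim_inr]
      push_cast
      ring
  have h3 : ((Mat m P Q τ).det : ℝ) = (∏ i, (Q i : ℝ)) * ((∏ j, v j) *
      (M.submatrix id (Equiv.sumComm (Fin m) (Fin m))).det) := by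
    rw [h1, h2, Matrix.det_mul_column, Matrix.det_mul_row]
  have h4 : |(M.submatrix id (Equiv.sumComm (Fin m) (Fin m))).det| = |M.det| := by
    have := Matrix.abs_det_submatrix_equiv_equiv (Equiv.refl (Fin m ⊕ Fin m))
      (Equiv.sumComm (Fin m) (Fin m)) M
    exact this
  have h5 : ∏ j, v j = T ^ (2 * m) := by
    rw [hv, Fintype.prod_sum_type]
    simp only [Sum.elim_inl, Sum.elim_inr, Finset.prod_const, Finset.card_univ, Fintype.card_fin,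
      one_pow, mul_one]
    rw [← pow_mul]
  have h6 : |∏ i, (Q i : ℝ)| * T ^ (2 * m) ≤ (K * V) ^ (2 * m) := by
    have e1 : |∏ i, (Q i : ℝ)| * T ^ (2 * m) = ∏ i : Fin m ⊕ Fin m, (|(Q i : ℝ)| * T) := by
      rw [Finset.abs_prod, Finset.prod_mul_distrib, Finset.prod_const, Finset.card_univ,
        Fintype.card_sum, Fintype.card_fin, two_mul]
    have e2 : (K * V) ^ (2 * m) = ∏ _i : Fin m ⊕ Fin m, (K * V) := by
      rw [Finset.prod_const, Finset.card_univ, Fintype.card_sum, Fintype.card_fin, two_mul]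
    rw [e1, e2]
    exact Finset.prod_le_prod (fun i _ => by positivity) (fun i _ => hQ i)
  rw [h3, abs_mul, abs_mul, h4, h5, abs_of_pos (by positivity : 0 < T ^ (2 * m)), ← mul_assoc]
  exact mul_le_mul_of_nonneg_right h6 (abs_nonneg _)

theorem va2 (K : ℝ) (hK : 1 ≤ K) : ∃ c₀ S₀ : ℝ, 0 < c₀ ∧ 1 ≤ S₀ ∧
    ∀ (R T V σ : ℝ) (m : ℕ) (a b c d : ℤ)
    (d₀ p₀ q₀ : ℤ) (P Q D : Fin m ⊕ Fin m → ℤ),
    1 ≤ R → 0 < T → S₀ ≤ R * T ^ 4 → 1 / 10 ≤ σ → V = (R * T ^ 4) ^ σ → m = ⌈6 * σ⌉₊ →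
    (∀ i, Good K R T V a b c d (D i) (P i) (Q i) ∧ Chart K R T V a b c d (P i) (Q i)) →
    Good K R T V a b c d d₀ p₀ q₀ → Chart K R T V a b c d p₀ q₀ →
    (∀ i j, |(P i : ℝ) / (T ^ 2 * Q i) - P j / (T ^ 2 * Q j)| ≤ c₀) →
    (∀ i, |(P i : ℝ) / (T ^ 2 * Q i) - p₀ / (T ^ 2 * q₀)| ≤ c₀) →
    (∀ i, |(D i : ℝ) - d₀| ≤ (R * T ^ 4) ^ ((1 : ℝ) / 6)) →
    (Mat m P Q (fun i => D i - d₀)).det = 0 := by
  have hK0 : 0 < K := by linarith
  have hK2 : K ≤ K ^ 4 := le_self_pow₀ hK (by norm_num)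
  have hK24 : K ^ 2 ≤ K ^ 4 := pow_le_pow_right₀ hK (by norm_num)
  have hK4 : 1 ≤ K ^ 4 := one_le_pow₀ hK
  obtain ⟨c₀, C₄, hc₀, hC₄, hC'⟩ := c2r (K ^ 4) hK4
  have hK1 : 1 ≤ C₄ * K ^ 4 := one_le_mul_of_one_le_of_one_le hC₄ hK4
  obtain ⟨C₅, hC₅, hB'⟩ := dpb (C₄ * K ^ 4) hK1
  obtain ⟨S₁, hS₁, hP'⟩ := par (C₅ * K ^ 2)
    (one_le_mul_of_one_le_of_one_le hC₅ (one_le_pow₀ hK))
  refine ⟨c₀, max S₁ ((C₄ * K ^ 4) ^ 10), hc₀, le_max_of_le_left hS₁, ?_⟩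
  intro R T V σ m a b c d d₀ p₀ q₀ P Q D hR hT0 hS hσ hV hm hG hG0 hCh0 hcell hcell0 hd
  have hS1 : S₁ ≤ R * T ^ 4 := (le_max_left _ _).trans hS
  have hS2 : (C₄ * K ^ 4) ^ 10 ≤ R * T ^ 4 := (le_max_right _ _).trans hS
  obtain ⟨Y, hY1, hY2⟩ := hP' (R * T ^ 4) σ m hS1 hσ hm
  have hR0 : 0 < R := by linarith
  set S : ℝ := R * T ^ 4 with hSdef
  have hS1' : 1 ≤ S := hS₁.trans hS1
  have hS0 : 0 < S := by linarith
  set L : ℝ := S ^ ((1 : ℝ) / 6) with hLdef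
  have hL0 : 0 < L := Real.rpow_pos_of_pos hS0 _
  have hm1 : 1 ≤ m := by
    rw [hm]
    exact Nat.one_le_ceil_iff.2 (by linarith)
  -- sizes
  have hhalf : C₄ * K ^ 4 ≤ S ^ ((1 : ℝ) / 10) := by
    have h1 : ((C₄ * K ^ 4) ^ 10) ^ ((1 : ℝ) / 10) ≤ S ^ ((1 : ℝ) / 10) :=
      Real.rpow_le_rpow (by positivity) hS2 (by norm_num)
    have h2 : ((C₄ * K ^ 4) ^ 10) ^ ((1 : ℝ) / 10) = C₄ * K ^ 4 := by
      rw [← Real.rpow_natCast, ← Real.rpow_mul (by positivity)]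
      norm_num
    linarith
  have hV1 : S ^ ((1 : ℝ) / 10) ≤ V := by
    rw [hV]
    exact Real.rpow_le_rpow_of_exponent_le hS1' hσ
  have hVK : C₄ * K ^ 4 ≤ V := hhalf.trans hV1
  have hV1' : 1 ≤ V := hK1.trans hVK
  have hV0 : 0 < V := by linarith
  have hLS : (C₄ * K ^ 4) * L ≤ S := by
    calc (C₄ * K ^ 4) * L ≤ S ^ ((1 : ℝ) / 10) * S ^ ((1 : ℝ) / 6) :=
          mul_le_mul_of_nonneg_right hhalf hL0.le
      _ = S ^ ((1 : ℝ) / 10 + (1 : ℝ) / 6) := (Real.rpow_add hS0 _ _).symm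
      _ ≤ S ^ (1 : ℝ) := Real.rpow_le_rpow_of_exponent_le hS1' (by norm_num)
      _ = S := Real.rpow_one S
  have hLS' : C₄ * L ≤ S := by
    refine le_trans ?_ hLS
    exact mul_le_mul_of_nonneg_right (le_mul_of_one_le_right (by linarith) hK4) hL0.le
  have hV4 : V ≤ V ^ 4 := le_self_pow₀ hV1' (by norm_num)
  have he1 : C₄ * (K ^ 4 / V ^ 4) ≤ 1 := by
    rw [← mul_div_assoc, div_le_one (by positivity)]
    exact hVK.trans hV4
  -- facts on the points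
  have fact : ∀ e p q : ℤ, Good K R T V a b c d e p q → Chart K R T V a b c d p q →
      (q : ℝ) ≠ 0 := by
    intro e p q _ h2 h3
    have h4 := h2.1
    rw [h3, abs_zero, zero_mul, mul_zero] at h4
    linarith
  have fy : ∀ e p q : ℤ, Good K R T V a b c d e p q → Chart K R T V a b c d p q →
      |(p : ℝ) / (T ^ 2 * q)| ≤ K ^ 4 := by
    intro e p q h1 h2
    exact (y_le hK hT0 (fact e p q h1 h2) h1.hp h2.1).trans hK24
  have fe : ∀ e p q : ℤ, Good K R T V a b c d e p q → Chart K R T V a b c d p q →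
      |(a * T ^ 4 / R) * ((p : ℝ) / (T ^ 2 * q)) ^ 4 + 4 * (b * T ^ 2 / R) *
        (p / (T ^ 2 * q)) ^ 3 + 6 * (c / R) * (p / (T ^ 2 * q)) ^ 2 +
        4 * (d / (R * T ^ 2)) * (p / (T ^ 2 * q)) + e / S| ≤ K ^ 4 / V ^ 4 := by
    intro e p q h1 h2
    have h3 := h1.heq
    have h4 : (a : ℝ) * p ^ 4 + 4 * b * p ^ 3 * q + 6 * c * p ^ 2 * q ^ 2 + 4 * d * p * q ^ 3 +
      e * q ^ 4 = 1 := by
      exact_mod_cast h3
    rw [hSdef, qrt_eq hR0 hT0 (fact e p q h1 h2) h4]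
    exact e_le hK hR hT0 (fact e p q h1 h2) hV0 h2.1
  have fl : ∀ e p q : ℤ, Good K R T V a b c d e p q → Chart K R T V a b c d p q →
      1 ≤ K ^ 4 * |(a * T ^ 4 / R) * ((p : ℝ) / (T ^ 2 * q)) ^ 3 +
        3 * (b * T ^ 2 / R) * (p / (T ^ 2 * q)) ^ 2 + 3 * (c / R) * (p / (T ^ 2 * q)) +
        d / (R * T ^ 2)| := by
    intro e p q h1 h2
    rw [cub_eq hR0 hT0 (fact e p q h1 h2)]
    apply low_le hK hR0 hT0 (fact e p q h1 h2) h1.hq
    have h3 := h2.2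
    push_cast at h3
    exact h3
  have hA : |(a : ℝ) * T ^ 4 / R| ≤ K ^ 4 := by
    rw [abs_div, abs_mul, abs_of_pos hR0, abs_of_pos (by positivity : 0 < T ^ 4),
      div_le_iff₀ hR0]
    refine hG0.ha.trans ?_
    gcongr
  have hBb : |(b : ℝ) * T ^ 2 / R| ≤ K ^ 4 := by
    rw [abs_div, abs_mul, abs_of_pos hR0, abs_of_pos (by positivity : 0 < T ^ 2),
      div_le_iff₀ hR0]
    refine hG0.hb.trans ?_
    gcongr
  have hGg : |(c : ℝ) / R| ≤ K ^ 4 := by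
    rw [abs_div, abs_of_pos hR0, div_le_iff₀ hR0]
    refine hG0.hc.trans ?_
    gcongr
  have hDd : |(d : ℝ) / (R * T ^ 2)| ≤ K ^ 4 := by
    have h3 : 0 < R * T ^ 2 := by positivity
    rw [abs_div, abs_of_pos h3, div_le_iff₀ h3]
    refine hG0.hd.trans ?_
    gcongr
  -- the family with the base point
  have hpar : Param C₄ S L (K ^ 4 / V ^ 4)
      (fun o : Option (Fin m ⊕ Fin m) => o.elim 0 (fun i => D i - d₀))
      (fun o : Option (Fin m ⊕ Fin m) => o.elim ((p₀ : ℝ) / (T ^ 2 * q₀))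
        (fun i => (P i : ℝ) / (T ^ 2 * Q i))) := by
    apply hC' S L (K ^ 4 / V ^ 4) (a * T ^ 4 / R) (b * T ^ 2 / R) (c / R) (d / (R * T ^ 2))
      (Option (Fin m ⊕ Fin m)) _
      (fun o : Option (Fin m ⊕ Fin m) => o.elim ((d₀ : ℝ) / S) (fun i => (D i : ℝ) / S)) _ none
      hS0 hL0.le hLS' (by positivity) he1 hA hBb hGg hDd
    · rintro (_ | i)
      · exact fy d₀ p₀ q₀ hG0 hCh0
      · exact fy (D i) (P i) (Q i) (hG i).1 (hG i).2
    · rintro (_ | i)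
      · exact fe d₀ p₀ q₀ hG0 hCh0
      · exact fe (D i) (P i) (Q i) (hG i).1 (hG i).2
    · rintro (_ | i)
      · exact fl d₀ p₀ q₀ hG0 hCh0
      · exact fl (D i) (P i) (Q i) (hG i).1 (hG i).2
    · rintro (_ | i) (_ | j)
      · show |(p₀ : ℝ) / (T ^ 2 * q₀) - (p₀ : ℝ) / (T ^ 2 * q₀)| ≤ c₀
        rw [sub_self, abs_zero]
        exact hc₀.le
      · show |(p₀ : ℝ) / (T ^ 2 * q₀) - (P j : ℝ) / (T ^ 2 * Q j)| ≤ c₀
        rw [abs_sub_comm]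
        exact hcell0 j
      · exact hcell0 i
      · exact hcell i j
    · rintro (_ | i)
      · show ((0 : ℤ) : ℝ) = S * ((d₀ : ℝ) / S - (d₀ : ℝ) / S)
        rw [sub_self, mul_zero, Int.cast_zero]
      · show ((D i - d₀ : ℤ) : ℝ) = S * ((D i : ℝ) / S - (d₀ : ℝ) / S)
        push_cast
        field_simp
    · rintro (_ | i)
      · show |((0 : ℤ) : ℝ)| ≤ L
        rw [Int.cast_zero, abs_zero]
        exact hL0.le
      · show |((D i - d₀ : ℤ) : ℝ)| ≤ L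
        push_cast
        exact hd i
  have hpar2 : Param (C₄ * K ^ 4) S L (1 / V ^ 4) (fun i : Fin m ⊕ Fin m => D i - d₀)
      (fun i : Fin m ⊕ Fin m => (P i : ℝ) / (T ^ 2 * Q i)) :=
    param_mono hC₄ hK4 (by positivity) (param_comp (fun i => some i) hpar)
  have hY2' : ∀ u : ℤ, |u| ≤ m →
      V ^ (4 * u - 2 * m) * L ^ (m * (m - 1)) * (L / S) ^ (u.natAbs ^ 2) ≤ Y := by
    intro u hu
    rw [hV]
    exact hY2 u hu
  have hdet := hB' m S L V hm1 hS0 hL0 hLS hV1' _ _ hpar2 Y hY2'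
  have hY0 : 0 ≤ Y := by
    have h1 := hY2' 0 (by rw [abs_zero]; positivity)
    refine le_trans ?_ h1
    positivity
  have hmain := det_eq (V := V) hK P Q (fun i => D i - d₀) (fun i => (P i : ℝ) / (T ^ 2 * Q i))
    hT0
    (by
      intro i
      have h1 := fact (D i) (P i) (Q i) (hG i).1 (hG i).2
      field_simp)
    (fun i => (hG i).1.hq)
  set Dt : ℝ := |Matrix.det (Matrix.of fun i : Fin m ⊕ Fin m =>
    Sum.elim (fun j : Fin m => ((D i - d₀ : ℤ) : ℝ) ^ (j : ℕ))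
      (fun j : Fin m => (P i : ℝ) / (T ^ 2 * Q i) * ((D i - d₀ : ℤ) : ℝ) ^ (j : ℕ)))| with hDt
  have hlt : |((Mat m P Q (fun i => D i - d₀)).det : ℝ)| < 1 := by
    have h1 : (K * V) ^ (2 * m) * Dt ≤ (K ^ 2) ^ (m ^ 2) * (C₅ ^ (m ^ 2) * Y) := by
      have e1 : (K * V) ^ (2 * m) * Dt = (K ^ 2) ^ m * (V ^ (2 * m) * Dt) := by
        rw [mul_pow, pow_mul K 2 m]
        ring
      rw [e1]
      have e2 : (K ^ 2) ^ m ≤ (K ^ 2) ^ (m ^ 2) :=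
        pow_le_pow_right₀ (one_le_pow₀ hK) (by nlinarith)
      exact mul_le_mul e2 hdet (by positivity) (by positivity)
    have h2 : (K ^ 2) ^ (m ^ 2) * (C₅ ^ (m ^ 2) * Y) = (C₅ * K ^ 2) ^ (m ^ 2) * Y := by
      rw [mul_pow C₅]
      ring
    rw [h2] at h1
    exact (hmain.trans h1).trans_lt hY1
  have hlt' : |(Mat m P Q (fun i => D i - d₀)).det| < 1 := by exact_mod_cast hlt
  exact Int.abs_lt_one_iff.1 hlt'

end

end Pool.Agent.R418.HL
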