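import Mathlib
import Pool.Agent.W61.HZ.PAD
import Pool.Agent.W33.HZ.CLS
import Pool.Agent.W462.HZ.CUB
import Pool.Agent.W563.HZ.REL

/-! Quartic version: the polynomial `F_{e₁ + X}(-B, A)` is not a square; points whose value is a
square, in residue classes. -/

set_option autoImplicit false

namespace Pool.Agent.R418.HL

open Polynomial

noncomputable section

/-- The polynomial `F_{e₁ + X}(-B, A)` for the quartic form `(a, 4 b, 6 c, 4 d, e₁ + X)`. -/
def GP (a b c d e₁ : ℤ) (A B : ℤ[X]) : ℤ[X] :=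
  C a * B ^ 4 + (C (-4 * b) * (B ^ 3 * A) + (C (6 * c) * (B ^ 2 * A ^ 2) +
    (C (-4 * d) * (B * A ^ 3) + (X + C e₁) * A ^ 4)))

theorem square {a u z : ℤ} (hu : u ≠ 0) (h : a * u ^ 2 = z ^ 2) : ∃ e : ℤ, e ^ 2 = a := by
  have h1 : u ^ 2 ∣ z ^ 2 := ⟨a, by rw [← h]; ring⟩
  have h2 : u ∣ z := (Int.pow_dvd_pow_iff (by norm_num)).1 h1
  obtain ⟨e, rfl⟩ := h2
  refine ⟨e, ?_⟩
  have h3 : u ^ 2 ≠ 0 := pow_ne_zero 2 hu
  apply mul_right_cancel₀ h3
  rw [h]; ring

theorem ncu (a b c d e₁ : ℤ) (hc : ∀ e : ℤ, e ^ 2 ≠ a) (W U P₁ P₂ : ℤ[X])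
    (h0 : W ≠ 0 ∨ U ≠ 0) (hP : P₁ ≠ 0 ∨ P₂ ≠ 0) :
    P₁ ^ 2 - P₂ ^ 2 * GP a b c d e₁ W U ≠ 0 := by
  have ha : a ≠ 0 := by
    rintro rfl
    exact hc 0 (by norm_num)
  intro h
  have hP2 : P₂ ≠ 0 := by
    rintro rfl
    rcases hP with hP | hP
    · apply hP
      have h1 : P₁ ^ 2 = 0 := by
        rw [← h]; ring
      exact pow_eq_zero_iff (by norm_num) |>.1 h1
    · exact hP rfl
  have hkey : P₂ ^ 2 * GP a b c d e₁ W U = P₁ ^ 2 := by linear_combination -h
  have hG0 : GP a b c d e₁ W U ≠ 0 := by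
    intro hG
    by_cases hcase : W ≠ 0 ∧ U.natDegree ≤ W.natDegree
    · obtain ⟨hW, hUW⟩ := hcase
      have h1 : (C a * U ^ 4).natDegree ≤ 4 * W.natDegree :=
        (natDegree_C_mul_le _ _).trans (natDegree_pow_le_of_le 4 hUW)
      have h2 : (C (-4 * b) * (U ^ 3 * W)).natDegree ≤ 4 * W.natDegree := by
        refine (natDegree_C_mul_le _ _).trans ?_
        refine (natDegree_mul_le_of_le (natDegree_pow_le_of_le 3 hUW) le_rfl).trans ?_
        omega
      have h3 : (C (6 * c) * (U ^ 2 * W ^ 2)).natDegree ≤ 4 * W.natDegree := by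
        refine (natDegree_C_mul_le _ _).trans ?_
        refine (natDegree_mul_le_of_le (natDegree_pow_le_of_le 2 hUW)
          (natDegree_pow_le_of_le 2 le_rfl)).trans ?_
        omega
      have h3' : (C (-4 * d) * (U * W ^ 3)).natDegree ≤ 4 * W.natDegree := by
        refine (natDegree_C_mul_le _ _).trans ?_
        refine (natDegree_mul_le_of_le hUW (natDegree_pow_le_of_le 3 le_rfl)).trans ?_
        omega
      have h4 : ((X + C e₁) * W ^ 4).natDegree = 1 + 4 * W.natDegree := by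
        rw [natDegree_mul (X_add_C_ne_zero e₁) (pow_ne_zero 4 hW), natDegree_X_add_C,
          natDegree_pow]
      have h5 : (GP a b c d e₁ W U).natDegree = 1 + 4 * W.natDegree := by
        unfold GP
        have e0 : (C (-4 * d) * (U * W ^ 3) + (X + C e₁) * W ^ 4).natDegree =
            1 + 4 * W.natDegree := by
          rw [natDegree_add_eq_right_of_natDegree_lt (by omega), h4]
        have e1 : (C (6 * c) * (U ^ 2 * W ^ 2) + (C (-4 * d) * (U * W ^ 3) +
            (X + C e₁) * W ^ 4)).natDegree = 1 + 4 * W.natDegree := by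
          rw [natDegree_add_eq_right_of_natDegree_lt (by omega), e0]
        have e2 : (C (-4 * b) * (U ^ 3 * W) + (C (6 * c) * (U ^ 2 * W ^ 2) +
            (C (-4 * d) * (U * W ^ 3) + (X + C e₁) * W ^ 4))).natDegree =
            1 + 4 * W.natDegree := by
          rw [natDegree_add_eq_right_of_natDegree_lt (by omega), e1]
        rw [natDegree_add_eq_right_of_natDegree_lt (by omega), e2]
      rw [hG, natDegree_zero] at h5
      omega
    · have hU : U ≠ 0 := by
        rintro rfl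
        rcases h0 with h0 | h0
        · exact hcase ⟨h0, by simp⟩
        · exact h0 rfl
      by_cases hW : W = 0
      · subst hW
        have h1 : C a * U ^ 4 = 0 := by
          rw [← hG]; unfold GP; ring
        rcases mul_eq_zero.1 h1 with h2 | h2
        · exact ha (C_eq_zero.1 h2)
        · exact hU (pow_eq_zero_iff (by norm_num) |>.1 h2)
      · have hlt : W.natDegree < U.natDegree := by
          by_contra hcon
          exact hcase ⟨hW, not_lt.1 hcon⟩
        have h1 : (C a * U ^ 4).natDegree = 4 * U.natDegree := by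
          rw [natDegree_C_mul ha, natDegree_pow]
        have h2 : (C (-4 * b) * (U ^ 3 * W)).natDegree < 4 * U.natDegree := by
          refine lt_of_le_of_lt (natDegree_C_mul_le _ _) ?_
          refine lt_of_le_of_lt (natDegree_mul_le_of_le (natDegree_pow_le_of_le 3 le_rfl) le_rfl) ?_
          omega
        have h3 : (C (6 * c) * (U ^ 2 * W ^ 2)).natDegree < 4 * U.natDegree := by
          refine lt_of_le_of_lt (natDegree_C_mul_le _ _) ?_
          refine lt_of_le_of_lt (natDegree_mul_le_of_le (natDegree_pow_le_of_le 2 le_rfl)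
            (natDegree_pow_le_of_le 2 le_rfl)) ?_
          omega
        have h3' : (C (-4 * d) * (U * W ^ 3)).natDegree < 4 * U.natDegree := by
          refine lt_of_le_of_lt (natDegree_C_mul_le _ _) ?_
          refine lt_of_le_of_lt (natDegree_mul_le_of_le le_rfl (natDegree_pow_le_of_le 3 le_rfl)) ?_
          omega
        have h4 : ((X + C e₁) * W ^ 4).natDegree < 4 * U.natDegree := by
          rw [natDegree_mul (X_add_C_ne_zero e₁) (pow_ne_zero 4 hW), natDegree_X_add_C,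
            natDegree_pow]
          omega
        have h5 : (GP a b c d e₁ W U).natDegree = 4 * U.natDegree := by
          unfold GP
          rw [natDegree_add_eq_left_of_natDegree_lt, h1]
          rw [h1]
          refine lt_of_le_of_lt (natDegree_add_le _ _) (max_lt h2 ?_)
          refine lt_of_le_of_lt (natDegree_add_le _ _) (max_lt h3 ?_)
          exact lt_of_le_of_lt (natDegree_add_le _ _) (max_lt h3' h4)
        rw [hG, natDegree_zero] at h5
        omega
  by_cases hcase : W ≠ 0 ∧ U.natDegree ≤ W.natDegree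
  · obtain ⟨hW, hUW⟩ := hcase
    have h1 : (C a * U ^ 4).natDegree ≤ 4 * W.natDegree :=
      (natDegree_C_mul_le _ _).trans (natDegree_pow_le_of_le 4 hUW)
    have h2 : (C (-4 * b) * (U ^ 3 * W)).natDegree ≤ 4 * W.natDegree := by
      refine (natDegree_C_mul_le _ _).trans ?_
      refine (natDegree_mul_le_of_le (natDegree_pow_le_of_le 3 hUW) le_rfl).trans ?_
      omega
    have h3 : (C (6 * c) * (U ^ 2 * W ^ 2)).natDegree ≤ 4 * W.natDegree := by
      refine (natDegree_C_mul_le _ _).trans ?_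
      refine (natDegree_mul_le_of_le (natDegree_pow_le_of_le 2 hUW)
        (natDegree_pow_le_of_le 2 le_rfl)).trans ?_
      omega
    have h3' : (C (-4 * d) * (U * W ^ 3)).natDegree ≤ 4 * W.natDegree := by
      refine (natDegree_C_mul_le _ _).trans ?_
      refine (natDegree_mul_le_of_le hUW (natDegree_pow_le_of_le 3 le_rfl)).trans ?_
      omega
    have h4 : ((X + C e₁) * W ^ 4).natDegree = 1 + 4 * W.natDegree := by
      rw [natDegree_mul (X_add_C_ne_zero e₁) (pow_ne_zero 4 hW), natDegree_X_add_C,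
        natDegree_pow]
    have h5 : (GP a b c d e₁ W U).natDegree = 1 + 4 * W.natDegree := by
      unfold GP
      have e0 : (C (-4 * d) * (U * W ^ 3) + (X + C e₁) * W ^ 4).natDegree =
          1 + 4 * W.natDegree := by
        rw [natDegree_add_eq_right_of_natDegree_lt (by omega), h4]
      have e1 : (C (6 * c) * (U ^ 2 * W ^ 2) + (C (-4 * d) * (U * W ^ 3) +
          (X + C e₁) * W ^ 4)).natDegree = 1 + 4 * W.natDegree := by
        rw [natDegree_add_eq_right_of_natDegree_lt (by omega), e0]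
      have e2 : (C (-4 * b) * (U ^ 3 * W) + (C (6 * c) * (U ^ 2 * W ^ 2) +
          (C (-4 * d) * (U * W ^ 3) + (X + C e₁) * W ^ 4))).natDegree =
          1 + 4 * W.natDegree := by
        rw [natDegree_add_eq_right_of_natDegree_lt (by omega), e1]
      rw [natDegree_add_eq_right_of_natDegree_lt (by omega), e2]
    have h6 := congrArg natDegree hkey
    rw [natDegree_mul (pow_ne_zero 2 hP2) hG0, natDegree_pow, natDegree_pow, h5] at h6
    omega
  · have hU : U ≠ 0 := by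
      rintro rfl
      rcases h0 with h0 | h0
      · exact hcase ⟨h0, by simp⟩
      · exact h0 rfl
    have hlc : (GP a b c d e₁ W U).leadingCoeff = a * U.leadingCoeff ^ 4 := by
      by_cases hW : W = 0
      · subst hW
        have h1 : GP a b c d e₁ 0 U = C a * U ^ 4 := by
          unfold GP; ring
        rw [h1, leadingCoeff_mul, leadingCoeff_C, leadingCoeff_pow]
      · have hlt : W.natDegree < U.natDegree := by
          by_contra hcon
          exact hcase ⟨hW, not_lt.1 hcon⟩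
        have h1 : (C a * U ^ 4).natDegree = 4 * U.natDegree := by
          rw [natDegree_C_mul ha, natDegree_pow]
        have h2 : (C (-4 * b) * (U ^ 3 * W)).natDegree < 4 * U.natDegree := by
          refine lt_of_le_of_lt (natDegree_C_mul_le _ _) ?_
          refine lt_of_le_of_lt (natDegree_mul_le_of_le (natDegree_pow_le_of_le 3 le_rfl) le_rfl) ?_
          omega
        have h3 : (C (6 * c) * (U ^ 2 * W ^ 2)).natDegree < 4 * U.natDegree := by
          refine lt_of_le_of_lt (natDegree_C_mul_le _ _) ?_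
          refine lt_of_le_of_lt (natDegree_mul_le_of_le (natDegree_pow_le_of_le 2 le_rfl)
            (natDegree_pow_le_of_le 2 le_rfl)) ?_
          omega
        have h3' : (C (-4 * d) * (U * W ^ 3)).natDegree < 4 * U.natDegree := by
          refine lt_of_le_of_lt (natDegree_C_mul_le _ _) ?_
          refine lt_of_le_of_lt (natDegree_mul_le_of_le le_rfl (natDegree_pow_le_of_le 3 le_rfl)) ?_
          omega
        have h4 : ((X + C e₁) * W ^ 4).natDegree < 4 * U.natDegree := by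
          rw [natDegree_mul (X_add_C_ne_zero e₁) (pow_ne_zero 4 hW), natDegree_X_add_C,
            natDegree_pow]
          omega
        have h5 : (C (-4 * b) * (U ^ 3 * W) + (C (6 * c) * (U ^ 2 * W ^ 2) +
            (C (-4 * d) * (U * W ^ 3) + (X + C e₁) * W ^ 4))).natDegree <
            (C a * U ^ 4).natDegree := by
          rw [h1]
          refine lt_of_le_of_lt (natDegree_add_le _ _) (max_lt h2 ?_)
          refine lt_of_le_of_lt (natDegree_add_le _ _) (max_lt h3 ?_)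
          exact lt_of_le_of_lt (natDegree_add_le _ _) (max_lt h3' h4)
        unfold GP
        rw [leadingCoeff_add_of_degree_lt' (degree_lt_degree h5), leadingCoeff_mul,
          leadingCoeff_C, leadingCoeff_pow]
    have h6 := congrArg leadingCoeff hkey
    rw [leadingCoeff_mul, leadingCoeff_pow, leadingCoeff_pow, hlc] at h6
    have hne : P₂.leadingCoeff * U.leadingCoeff ^ 2 ≠ 0 :=
      mul_ne_zero (leadingCoeff_ne_zero.2 hP2) (pow_ne_zero 2 (leadingCoeff_ne_zero.2 hU))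
    obtain ⟨e, he⟩ := square hne (a := a) (z := P₁.leadingCoeff) (by rw [← h6]; ring)
    exact hc e he

/-- Hensel approximation by a polynomial. -/
theorem approx (p : ℕ) (hp : p.Prime) (hp3 : 3 < p) (G : ℤ[X]) {ι : Type} (τ g : ι → ℤ) (i0 : ι)
    (hg : ∀ i, g i ^ 2 = G.eval (τ i)) (hpg : ∀ i, ¬ (p : ℤ) ∣ g i)
    (hgg : ∀ i j, (p : ℤ) ∣ g i - g j) (k : ℕ) :
    ∃ c : ℤ[X], ∀ i, (p : ℤ) ^ (k + 1) ∣ c.eval (τ i) - g i := by
  have hpp : Prime (p : ℤ) := Nat.prime_iff_prime_int.1 hp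
  have h3 : ¬ (p : ℤ) ∣ 2 := by
    intro h
    have := Int.le_of_dvd (by norm_num) h
    omega
  have hu : ∃ u : ℤ, (p : ℤ) ∣ 1 - u * (2 * g i0) := by
    have hnd : ¬ (p : ℤ) ∣ 2 * g i0 := by
      intro h
      rcases hpp.dvd_or_dvd h with h | h
      · exact h3 h
      · exact hpg i0 h
    have hcop : IsCoprime (p : ℤ) (2 * g i0) := (Prime.coprime_iff_not_dvd hpp).2 hnd
    obtain ⟨a, b, hab⟩ := hcop
    exact ⟨b, ⟨a, by linarith⟩⟩
  obtain ⟨u, hu⟩ := hu
  induction k with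
  | zero =>
    refine ⟨C (g i0), fun i => ?_⟩
    rw [eval_C, zero_add, pow_one]
    exact hgg i0 i
  | succ k ih =>
    obtain ⟨c, hc⟩ := ih
    refine ⟨c - C u * (c ^ 2 - G), fun i => ?_⟩
    have h1 : (c - C u * (c ^ 2 - G)).eval (τ i) - g i =
        (c.eval (τ i) - g i) *
          (1 - u * (c.eval (τ i) + g i)) := by
      simp only [eval_sub, eval_mul, eval_C, eval_pow]
      rw [← hg i]
      ring
    rw [h1, pow_succ]
    apply mul_dvd_mul (hc i)
    have hci : (p : ℤ) ∣ c.eval (τ i) - g i := (dvd_pow_self _ (Nat.succ_ne_zero k)).trans (hc i)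
    obtain ⟨r, hr⟩ := hci
    obtain ⟨s, hs⟩ := hgg i i0
    obtain ⟨v, hv⟩ := hu
    have e1 : c.eval (τ i) = g i + p * r := by linarith
    have e2 : g i = g i0 + p * s := by linarith
    have e3 : (1 : ℤ) = u * (2 * g i0) + p * v := by linarith
    refine ⟨v - u * (r + 2 * s), ?_⟩
    rw [e1, e2]
    linear_combination e3

theorem pad (p : ℕ) (hp : p.Prime) (hp3 : 3 < p) (G : ℤ[X]) (m : ℕ) (hm : 1 ≤ m)
    (τ g : Fin m ⊕ Fin m → ℤ) (hg : ∀ i, g i ^ 2 = G.eval (τ i)) (hpg : ∀ i, ¬ (p : ℤ) ∣ g i)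
    (hτ : ∀ i j, (p : ℤ) ∣ τ i - τ j) (hgg : ∀ i j, (p : ℤ) ∣ g i - g j) :
    (p : ℤ) ^ (m * (2 * m - 1)) ∣ Matrix.det (Matrix.of fun i : Fin m ⊕ Fin m =>
      Sum.elim (fun j : Fin m => τ i ^ (j : ℕ)) (fun j : Fin m => g i * τ i ^ (j : ℕ))) := by
  classical
  let i0 : Fin m ⊕ Fin m := Sum.inl ⟨0, by omega⟩
  obtain ⟨c, hc⟩ := approx p hp hp3 G τ g i0 hg hpg hgg (m * (2 * m - 1))
  let h : Fin m ⊕ Fin m → ℤ[X] := Sum.elim (fun j : Fin m => X ^ (j : ℕ))
    (fun j : Fin m => c * X ^ (j : ℕ))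
  let e : Fin m ⊕ Fin m ≃ Fin (m + m) := finSumFinEquiv
  have h1 := Pool.Agent.W61.HZ.det_dvd (p : ℤ) (m + m) (fun i => τ (e.symm i)) (fun i j => hτ _ _)
    (fun j => h (e.symm j))
  have h2 : Matrix.det (Matrix.of fun i j : Fin (m + m) => (h (e.symm j)).eval (τ (e.symm i))) =
      Matrix.det (Matrix.of fun i j : Fin m ⊕ Fin m => (h j).eval (τ i)) := by
    rw [← Matrix.det_submatrix_equiv_self e.symm
      (Matrix.of fun i j : Fin m ⊕ Fin m => (h j).eval (τ i))]
    rfl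
  have h3 : (m + m) * (m + m - 1) / 2 = m * (2 * m - 1) := by
    have : (m + m) * (m + m - 1) = 2 * (m * (2 * m - 1)) := by
      rw [show m + m = 2 * m by ring]
      ring
    rw [this]
    omega
  rw [h2, h3] at h1
  have hcast : ((Matrix.det (Matrix.of fun i : Fin m ⊕ Fin m =>
      Sum.elim (fun j : Fin m => τ i ^ (j : ℕ)) (fun j : Fin m => g i * τ i ^ (j : ℕ))) : ℤ) :
        ZMod (p ^ (m * (2 * m - 1)))) =
      ((Matrix.det (Matrix.of fun i j : Fin m ⊕ Fin m => (h j).eval (τ i)) : ℤ) :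
        ZMod (p ^ (m * (2 * m - 1)))) := by
    change (Int.castRingHom (ZMod (p ^ (m * (2 * m - 1))))) _ =
      (Int.castRingHom (ZMod (p ^ (m * (2 * m - 1))))) _
    rw [RingHom.map_det, RingHom.map_det]
    congr 1
    ext i j
    rcases j with j | j
    · simp [h]
    · have h4 : ((c.eval (τ i) : ℤ) : ZMod (p ^ (m * (2 * m - 1)))) = (g i : ℤ) := by
        rw [ZMod.intCast_eq_intCast_iff_dvd_sub]
        have h5 := hc i
        rw [pow_succ] at h5
        have h6 : ((p ^ (m * (2 * m - 1)) : ℕ) : ℤ) ∣ c.eval (τ i) - g i := by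
          push_cast
          exact (Dvd.intro _ rfl).trans h5
        rw [← neg_sub, dvd_neg]
        exact h6
      simp [h, h4]
  rw [ZMod.intCast_eq_intCast_iff_dvd_sub] at hcast
  push_cast at hcast
  have h7 := dvd_sub h1 hcast
  simpa using h7

theorem GP_natDegree (a b c d e₁ : ℤ) (A B : ℤ[X]) (m : ℕ) (hA : A.natDegree < m)
    (hB : B.natDegree < m) : (GP a b c d e₁ A B).natDegree ≤ 4 * m := by
  have hA' : A.natDegree ≤ m - 1 := by omega
  have hB' : B.natDegree ≤ m - 1 := by omega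
  have h1 : (C a * B ^ 4 : ℤ[X]).natDegree ≤ 4 * m :=
    ((natDegree_C_mul_le _ _).trans (natDegree_pow_le_of_le 4 hB')).trans (by omega)
  have h2 : (C (-4 * b) * (B ^ 3 * A) : ℤ[X]).natDegree ≤ 4 * m :=
    ((natDegree_C_mul_le _ _).trans
      (natDegree_mul_le_of_le (natDegree_pow_le_of_le 3 hB') hA')).trans (by omega)
  have h3 : (C (6 * c) * (B ^ 2 * A ^ 2) : ℤ[X]).natDegree ≤ 4 * m :=
    ((natDegree_C_mul_le _ _).trans
      (natDegree_mul_le_of_le (natDegree_pow_le_of_le 2 hB') (natDegree_pow_le_of_le 2 hA'))).trans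
      (by omega)
  have h4 : (C (-4 * d) * (B * A ^ 3) : ℤ[X]).natDegree ≤ 4 * m :=
    ((natDegree_C_mul_le _ _).trans
      (natDegree_mul_le_of_le hB' (natDegree_pow_le_of_le 3 hA'))).trans (by omega)
  have h5 : ((X + C e₁) * A ^ 4 : ℤ[X]).natDegree ≤ 4 * m := by
    refine (natDegree_mul_le_of_le (natDegree_X_add_C e₁).le
      (natDegree_pow_le_of_le 4 hA')).trans (by omega)
  unfold GP
  exact natDegree_add_le_of_degree_le h1 (natDegree_add_le_of_degree_le h2
    (natDegree_add_le_of_degree_le h3 (natDegree_add_le_of_degree_le h4 h5)))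

open Pool.Agent.W33.HZ in
theorem cls (a b c d e₁ : ℤ) (hsq : ∀ e : ℤ, e ^ 2 ≠ a) (A B : ℤ[X]) (m : ℕ)
    (hAB : A ≠ 0 ∨ B ≠ 0) (hA : A.natDegree < m) (hB : B.natDegree < m) (p m' : ℕ)
    (hp : p.Prime) (hp3 : 3 < p) (hm' : 1 ≤ m') (L Gm : ℝ) (hL : 1 ≤ L) (hGm : 1 ≤ Gm)
    (hlt : (2 * m') ^ 2 * Gm * L ^ (m' - 1) < (p : ℝ) ^ (2 * m' - 1))
    (𝒯 : Finset ℤ) (g : ℤ → ℤ) (hg : ∀ τ ∈ 𝒯, g τ ^ 2 = (GP a b c d e₁ A B).eval τ)
    (hτL : ∀ τ ∈ 𝒯, |(τ : ℝ)| ≤ L) (hgG : ∀ τ ∈ 𝒯, |(g τ : ℝ)| ≤ Gm)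
    (hpg : ∀ τ ∈ 𝒯, ¬ (p : ℤ) ∣ g τ)
    (hpp : ∀ τ ∈ 𝒯, ∀ τ' ∈ 𝒯, (p : ℤ) ∣ τ - τ' ∧ (p : ℤ) ∣ g τ - g τ') :
    𝒯.card ≤ 2 * m' + 4 * m := by
  classical
  rcases 𝒯.eq_empty_or_nonempty with rfl | ⟨τ₀, hτ₀⟩
  · simp
  have hL0 : (0 : ℝ) < L := by linarith
  have hG0 : (0 : ℝ) < Gm := by linarith
  -- the matrix
  set Am : {τ // τ ∈ 𝒯} → (Fin m' ⊕ Fin m') → ℤ := fun τ =>
    Sum.elim (fun j : Fin m' => τ.1 ^ (j : ℕ)) (fun j : Fin m' => g τ.1 * τ.1 ^ (j : ℕ)) with hAm
  set vv : Fin m' ⊕ Fin m' → ℝ := Sum.elim (fun j : Fin m' => L ^ (j : ℕ))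
    (fun j : Fin m' => Gm * L ^ (j : ℕ)) with hvv
  have hvpos : ∀ j, 0 < vv j := by
    rintro (j | j)
    · exact pow_pos hL0 _
    · exact mul_pos hG0 (pow_pos hL0 _)
  have hent : ∀ τ j, |(Am τ j : ℝ)| ≤ vv j := by
    rintro ⟨τ, hτ⟩ (j | j)
    · show |((τ ^ (j : ℕ) : ℤ) : ℝ)| ≤ L ^ (j : ℕ)
      push_cast
      rw [abs_pow]
      exact pow_le_pow_left₀ (abs_nonneg _) (hτL τ hτ) _
    · show |((g τ * τ ^ (j : ℕ) : ℤ) : ℝ)| ≤ Gm * L ^ (j : ℕ)
      push_cast
      rw [abs_mul, abs_pow]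
      exact mul_le_mul (hgG τ hτ) (pow_le_pow_left₀ (abs_nonneg _) (hτL τ hτ) _)
        (pow_nonneg (abs_nonneg _) _) hG0.le
  have hprod : ∏ j, vv j = (Gm * L ^ (m' - 1)) ^ m' := by
    rw [Fintype.prod_sum_type]
    have h1 : ∏ j : Fin m', vv (Sum.inl j) = ∏ j : Fin m', L ^ (j : ℕ) := rfl
    have h2 : ∏ j : Fin m', vv (Sum.inr j) = Gm ^ m' * ∏ j : Fin m', L ^ (j : ℕ) := by
      show ∏ j : Fin m', Gm * L ^ (j : ℕ) = _
      rw [Finset.prod_mul_distrib, Finset.prod_const, Finset.card_univ, Fintype.card_fin]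
    rw [h1, h2, mul_pow, ← prod_pow]
    ring
  have hdet : ∀ f : (Fin m' ⊕ Fin m') → {τ // τ ∈ 𝒯},
      Matrix.det (Matrix.of fun i j => Am (f i) j) = 0 := by
    intro f
    have h1 := pad p hp hp3 (GP a b c d e₁ A B) m' hm' (fun i => (f i).1) (fun i => g (f i).1)
      (fun i => hg _ (f i).2) (fun i => hpg _ (f i).2) (fun i j => (hpp _ (f i).2 _ (f j).2).1)
      (fun i j => (hpp _ (f i).2 _ (f j).2).2)
    have h2 : (Matrix.of fun i : Fin m' ⊕ Fin m' =>
        Sum.elim (fun j : Fin m' => (f i).1 ^ (j : ℕ)) (fun j : Fin m' => g (f i).1 *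
          (f i).1 ^ (j : ℕ))) = Matrix.of fun i j => Am (f i) j := rfl
    rw [h2] at h1
    refine Int.eq_zero_of_abs_lt_dvd h1 ?_
    have h3 := det_col_bound (Matrix.of fun i j => Am (f i) j) vv hvpos
      (fun i j => hent (f i) j)
    rw [hprod, Fintype.card_sum, Fintype.card_fin] at h3
    have h4 : (((m' + m').factorial : ℕ) : ℝ) ≤ ((2 * (m' : ℝ)) ^ 2) ^ m' := by
      have h5 : (m' + m').factorial ≤ (m' + m') ^ (m' + m') := Nat.factorial_le_pow _
      have h6 : (((m' + m').factorial : ℕ) : ℝ) ≤ (((m' + m') ^ (m' + m') : ℕ) : ℝ) := by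
        exact_mod_cast h5
      refine h6.trans (le_of_eq ?_)
      push_cast
      rw [← pow_mul, two_mul, two_mul]
    have h7 : |((Matrix.of fun i j => Am (f i) j).det : ℝ)| <
        (((p : ℤ) ^ (m' * (2 * m' - 1)) : ℤ) : ℝ) := by
      calc |((Matrix.of fun i j => Am (f i) j).det : ℝ)|
          ≤ (((m' + m').factorial : ℕ) : ℝ) * (Gm * L ^ (m' - 1)) ^ m' := h3
        _ ≤ ((2 * (m' : ℝ)) ^ 2) ^ m' * (Gm * L ^ (m' - 1)) ^ m' :=
            mul_le_mul_of_nonneg_right h4 (by positivity)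
        _ = ((2 * (m' : ℝ)) ^ 2 * Gm * L ^ (m' - 1)) ^ m' := by
            rw [← mul_pow, mul_assoc]
        _ < ((p : ℝ) ^ (2 * m' - 1)) ^ m' :=
            pow_lt_pow_left₀ hlt (by positivity) (by omega)
        _ = (((p : ℤ) ^ (m' * (2 * m' - 1)) : ℤ) : ℝ) := by
            push_cast
            rw [← pow_mul, Nat.mul_comm]
    exact_mod_cast h7
  -- the relation
  have hH1 : (1 : ℝ) ≤ Gm * L ^ m' := one_le_mul_of_one_le_of_one_le hGm (one_le_pow₀ hL)
  obtain ⟨v, hv0, hvs, -⟩ := Pool.Agent.W563.HZ.REL.t Am (Gm * L ^ m') hH1 ⟨⟨τ₀, hτ₀⟩⟩ (by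
    intro τ j
    refine (hent τ j).trans ?_
    rcases j with j | j
    · show L ^ (j : ℕ) ≤ Gm * L ^ m'
      calc L ^ (j : ℕ) ≤ L ^ m' := pow_le_pow_right₀ hL j.2.le
        _ ≤ Gm * L ^ m' := le_mul_of_one_le_left (by positivity) hGm
    · show Gm * L ^ (j : ℕ) ≤ Gm * L ^ m'
      exact mul_le_mul_of_nonneg_left (pow_le_pow_right₀ hL j.2.le) hG0.le) hdet
  set P₁ : ℤ[X] := pl fun j : Fin m' => v (Sum.inl j) with hP₁
  set P₂ : ℤ[X] := pl fun j : Fin m' => v (Sum.inr j) with hP₂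
  have hP0 : P₁ ≠ 0 ∨ P₂ ≠ 0 := by
    by_contra hc
    push Not at hc
    apply hv0
    ext j
    rcases j with j | j
    · have := pl_coeff (fun j : Fin m' => v (Sum.inl j)) j
      rw [← hP₁, hc.1, coeff_zero] at this
      exact this.symm
    · have := pl_coeff (fun j : Fin m' => v (Sum.inr j)) j
      rw [← hP₂, hc.2, coeff_zero] at this
      exact this.symm
  have hW := ncu a b c d e₁ hsq A B P₁ P₂ hAB hP0
  have hroot : ∀ τ ∈ 𝒯, (P₁ ^ 2 - P₂ ^ 2 * GP a b c d e₁ A B).eval τ = 0 := by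
    intro τ hτ
    have h1 := hvs ⟨τ, hτ⟩
    rw [Fintype.sum_sum_type] at h1
    have h2 : P₁.eval τ + g τ * P₂.eval τ = 0 := by
      rw [hP₁, hP₂, pl_eval, pl_eval, Finset.mul_sum, ← h1]
      congr 1
      · refine Finset.sum_congr rfl fun j _ => ?_
        show _ = τ ^ (j : ℕ) * v (Sum.inl j)
        ring
      · refine Finset.sum_congr rfl fun j _ => ?_
        show _ = g τ * τ ^ (j : ℕ) * v (Sum.inr j)
        ring
    rw [eval_sub, eval_mul, eval_pow, eval_pow, ← hg τ hτ]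
    have h3 : P₁.eval τ = -(g τ * P₂.eval τ) := by linarith
    rw [h3]
    ring
  have hdeg : (P₁ ^ 2 - P₂ ^ 2 * GP a b c d e₁ A B).natDegree ≤ 2 * m' + 4 * m := by
    refine (natDegree_sub_le_of_le (m := 2 * m') (n := 2 * m' + 4 * m) ?_ ?_).trans
      (max_le (by omega) le_rfl)
    · exact natDegree_pow_le_of_le 2 (pl_natDegree _)
    · exact natDegree_mul_le_of_le (natDegree_pow_le_of_le 2 (pl_natDegree _))
        (GP_natDegree a b c d e₁ A B m hA hB)
  refine le_trans (card_le_degree_of_subset_roots ?_) hdeg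
  intro τ hτ
  rw [mem_roots hW]
  exact hroot τ hτ

end

end Pool.Agent.R418.HL
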