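import Mathlib
import Pool.Agent.R418.HL.Q1
import Pool.Agent.W351.HZ.PPR
import Pool.Agent.W499.HZ.PRM

/-! Quartic version: the points on a relation. -/

set_option autoImplicit false

namespace Pool.Agent.R418.HL

open Polynomial

lemma eval_GP (a b c d e₁ : ℤ) (A B : ℤ[X]) (τ p q g : ℤ) (hA : A.eval τ = g * q)
    (hB : B.eval τ = -(g * p))
    (h1 : a * p ^ 4 + 4 * b * p ^ 3 * q + 6 * c * p ^ 2 * q ^ 2 + 4 * d * p * q ^ 3 +
      (e₁ + τ) * q ^ 4 = 1) :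
    (g ^ 2) ^ 2 = (GP a b c d e₁ A B).eval τ := by
  unfold GP
  simp only [eval_add, eval_mul, eval_pow, eval_C, eval_X, hA, hB]
  linear_combination (-(g ^ 4)) * h1

lemma exists_g (a b c d e₁ : ℤ) (hsq : ∀ e : ℤ, e ^ 2 ≠ a) (A B : ℤ[X]) (τ p q : ℤ)
    (h0 : p * A.eval τ + q * B.eval τ = 0)
    (h1 : a * p ^ 4 + 4 * b * p ^ 3 * q + 6 * c * p ^ 2 * q ^ 2 + 4 * d * p * q ^ 3 +
      (e₁ + τ) * q ^ 4 = 1) :
    ∃ g : ℤ, (g ^ 2) ^ 2 = (GP a b c d e₁ A B).eval τ ∧ |g| ≤ |A.eval τ| ∧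
      (g = 0 → A.eval τ = 0 ∧ B.eval τ = 0) := by
  have hq : q ≠ 0 := by
    rintro rfl
    have h2 : a * p ^ 4 = 1 := by linarith
    have h3 : IsUnit p := by
      have : p ∣ 1 := ⟨a * p ^ 3, by rw [← h2]; ring⟩
      exact isUnit_of_dvd_one this
    apply hsq 1
    rcases Int.isUnit_iff.1 h3 with h4 | h4
    · rw [h4] at h2
      linarith
    · rw [h4] at h2
      linarith
  have hcop : IsCoprime q p := by
    refine ⟨(e₁ + τ) * q ^ 3, a * p ^ 3 + 4 * b * p ^ 2 * q + 6 * c * p * q ^ 2 +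
      4 * d * q ^ 3, ?_⟩
    linear_combination h1
  have hdvd : q ∣ p * A.eval τ := ⟨-B.eval τ, by linear_combination h0⟩
  obtain ⟨g, hg⟩ := hcop.dvd_of_dvd_mul_left hdvd
  have hA : A.eval τ = g * q := by rw [hg]; ring
  have hB : B.eval τ = -(g * p) := by
    have h5 : q * (B.eval τ + g * p) = 0 := by
      rw [hA] at h0
      linear_combination h0
    rcases mul_eq_zero.1 h5 with h6 | h6
    · exact absurd h6 hq
    · linarith
  refine ⟨g, eval_GP a b c d e₁ A B τ p q g hA hB h1, ?_, ?_⟩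
  · rw [hA, abs_mul]
    have h7 : 1 ≤ |q| := Int.one_le_abs hq
    nlinarith [abs_nonneg g]
  · intro h8
    rw [hA, hB, h8]
    simp

lemma card_U (a b c d e₁ : ℤ) (A B : ℤ[X]) (p N : ℕ) (hp : p.Prime) (U : Finset ℤ) (g : ℤ → ℤ)
    (hg : ∀ τ ∈ U, g τ ^ 2 = (GP a b c d e₁ A B).eval τ)
    (hN : ∀ F ⊆ U, (∀ τ ∈ F, ∀ τ' ∈ F, (p : ℤ) ∣ τ - τ' ∧ (p : ℤ) ∣ g τ - g τ') → F.card ≤ N) :
    U.card ≤ N * (2 * p) := by
  have : Fact p.Prime := ⟨hp⟩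
  let f : ℤ → ZMod p × ZMod p := fun τ => ((τ : ZMod p), (g τ : ZMod p))
  have h1 : U.card ≤ N * (U.image f).card := by
    apply Finset.card_le_mul_card_image
    intro xy _
    apply hN _ (Finset.filter_subset _ _)
    intro τ hτ τ' hτ'
    rw [Finset.mem_filter] at hτ hτ'
    have h2 : f τ = f τ' := hτ.2.trans hτ'.2.symm
    have h3 : ((τ : ℤ) : ZMod p) = (τ' : ZMod p) := congrArg Prod.fst h2
    have h4 : ((g τ : ℤ) : ZMod p) = (g τ' : ZMod p) := congrArg Prod.snd h2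
    constructor
    · exact (ZMod.intCast_eq_intCast_iff_dvd_sub _ _ _).1 h3.symm
    · exact (ZMod.intCast_eq_intCast_iff_dvd_sub _ _ _).1 h4.symm
  have h5 : (U.image f).card ≤ 2 * p := by
    have h6 : (U.image f).card ≤ 2 * ((U.image f).image Prod.fst).card := by
      apply Finset.card_le_mul_card_image
      intro x _
      set G : (ZMod p)[X] := (GP a b c d e₁ A B).map (Int.castRingHom (ZMod p)) with hG
      have h7 : ((U.image f).filter fun xy => xy.1 = x).card ≤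
          (nthRoots 2 (G.eval x)).toFinset.card := by
        apply Finset.card_le_card_of_injOn Prod.snd
        · intro xy hxy
          rw [Finset.mem_coe, Finset.mem_filter, Finset.mem_image] at hxy
          obtain ⟨⟨τ, hτ, rfl⟩, hx⟩ := hxy
          rw [Finset.mem_coe, Multiset.mem_toFinset, mem_nthRoots (by norm_num)]
          rw [← hx]
          show ((g τ : ℤ) : ZMod p) ^ 2 = G.eval ((τ : ℤ) : ZMod p)
          rw [hG, Polynomial.eval_intCast_map, Int.cast_id, ← hg τ hτ]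
          simp
        · intro xy hxy xy' hxy' h
          rw [Finset.mem_coe, Finset.mem_filter] at hxy hxy'
          exact Prod.ext (hxy.2.trans hxy'.2.symm) h
      exact h7.trans ((Multiset.toFinset_card_le _).trans (card_nthRoots 2 _))
    refine h6.trans (Nat.mul_le_mul_left 2 ?_)
    calc ((U.image f).image Prod.fst).card ≤ (Finset.univ : Finset (ZMod p)).card :=
          Finset.card_le_card (Finset.subset_univ _)
      _ = p := by rw [Finset.card_univ, ZMod.card]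
  exact h1.trans (Nat.mul_le_mul_left N h5)

theorem cub (a b c d e₁ : ℤ) (hsq : ∀ e : ℤ, e ^ 2 ≠ a) (A B : ℤ[X]) (m : ℕ)
    (hAB : A ≠ 0 ∨ B ≠ 0) (hA : A.natDegree < m) (hB : B.natDegree < m) (L H Λ : ℝ)
    (hL : 1 ≤ L) (hH : 1 ≤ H) (hΛ : 1 ≤ Λ) (hmΛ : (m : ℝ) ≤ Λ)
    (hexp : ((m : ℝ) * H * L ^ m) ^ 2 ≤ Real.exp Λ) (hcA : ∀ k, |(A.coeff k : ℝ)| ≤ H)
    (hcB : ∀ k, |(B.coeff k : ℝ)| ≤ H) (𝒯 : Finset ℤ) (hτL : ∀ τ ∈ 𝒯, |(τ : ℝ)| ≤ L)
    (hpq : ∀ τ ∈ 𝒯, ∃ p q : ℤ, p * A.eval τ + q * B.eval τ = 0 ∧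
      a * p ^ 4 + 4 * b * p ^ 3 * q + 6 * c * p ^ 2 * q ^ 2 + 4 * d * p * q ^ 3 +
        (e₁ + τ) * q ^ 4 = 1) :
    (𝒯.card : ℝ) ≤ 200000 * √L * Λ ^ 2 * Real.log (120 * √L * Λ) := by
  -- the function g
  have hex : ∀ τ : ℤ, ∃ g : ℤ, τ ∈ 𝒯 → g ^ 2 = (GP a b c d e₁ A B).eval τ ∧
      |g| ≤ |A.eval τ| ^ 2 ∧ (g = 0 → A.eval τ = 0 ∧ B.eval τ = 0) := by
    intro τ
    by_cases hτ : τ ∈ 𝒯
    · obtain ⟨p, q, h0, h1⟩ := hpq τ hτ
      obtain ⟨g, hg1, hg2, hg3⟩ := exists_g a b c d e₁ hsq A B τ p q h0 h1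
      refine ⟨g ^ 2, fun _ => ⟨hg1, ?_, fun h => hg3 (pow_eq_zero_iff (by norm_num) |>.1 h)⟩⟩
      rw [abs_pow]
      exact pow_le_pow_left₀ (abs_nonneg _) hg2 2
    · exact ⟨0, fun h => absurd h hτ⟩
  choose g hg using hex
  have hgb : ∀ τ ∈ 𝒯, |(g τ : ℝ)| ≤ Real.exp Λ := by
    intro τ hτ
    have h1 : |(g τ : ℝ)| ≤ |((A.eval τ : ℤ) : ℝ)| ^ 2 := by exact_mod_cast (hg τ hτ).2.1
    refine h1.trans (le_trans ?_ hexp)
    exact pow_le_pow_left₀ (abs_nonneg _)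
      (Pool.Agent.W462.HZ.eval_bound A m L H hL hH hA hcA τ (hτL τ hτ)) 2
  -- the zeros
  have hzero : (𝒯.filter fun τ => g τ = 0).card ≤ m := by
    rcases hAB with h | h
    · apply Pool.Agent.W462.HZ.card_roots_le A h m hA
      intro τ hτ
      rw [Finset.mem_filter] at hτ
      exact ((hg τ hτ.1).2.2 hτ.2).1
    · apply Pool.Agent.W462.HZ.card_roots_le B h m hB
      intro τ hτ
      rw [Finset.mem_filter] at hτ
      exact ((hg τ hτ.1).2.2 hτ.2).2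
  obtain ⟨p, hp, hp3, hp16, hpup, hcard⟩ := Pool.Agent.W351.HZ.t Pool.Agent.W499.HZ.PRM.t L Λ hL hΛ
    (𝒯.filter fun τ => ¬ g τ = 0) g
    (fun τ hτ => (Finset.mem_filter.1 hτ).2)
    (fun τ hτ => hgb τ (Finset.mem_filter.1 hτ).1)
  set U := (𝒯.filter fun τ => ¬ g τ = 0).filter fun τ => ¬ (p : ℤ) ∣ g τ with hU
  have hU1 : ∀ τ ∈ U, τ ∈ 𝒯 ∧ ¬ (p : ℤ) ∣ g τ := by
    intro τ hτ
    rw [hU, Finset.mem_filter, Finset.mem_filter] at hτ
    exact ⟨hτ.1.1, hτ.2⟩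
  set m' : ℕ := ⌈Λ⌉₊ + 2 with hm'
  have hm'3 : 3 ≤ m' := by
    have : 0 < ⌈Λ⌉₊ := Nat.ceil_pos.2 (by linarith)
    omega
  have hΛm : Λ ≤ m' := by
    have h1 := Nat.le_ceil Λ
    rw [hm']
    push_cast
    linarith
  have hm'up : (m' : ℝ) ≤ Λ + 3 := by
    have h1 := Nat.ceil_lt_add_one (a := Λ) (by linarith)
    rw [hm']
    push_cast
    linarith
  have hUc : U.card ≤ (2 * m' + 4 * m) * (2 * p) := by
    apply card_U a b c d e₁ A B p _ hp U g (fun τ hτ => (hg τ (hU1 τ hτ).1).1)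
    intro F hF hcong
    exact cls a b c d e₁ hsq A B m hAB hA hB p m' hp hp3 (by omega) L (Real.exp Λ) hL
      (Real.one_le_exp (by linarith)) (Pool.Agent.W462.HZ.ineq L Λ hL hΛ p m' hm'3 hΛm hp16) F g
      (fun τ hτ => (hg τ (hU1 τ (hF hτ)).1).1)
      (fun τ hτ => hτL τ (hU1 τ (hF hτ)).1) (fun τ hτ => hgb τ (hU1 τ (hF hτ)).1)
      (fun τ hτ => (hU1 τ (hF hτ)).2) hcong
  have htot : 𝒯.card ≤ m + 2 * ((2 * m' + 4 * m) * (2 * p)) := by
    have h1 := Finset.card_filter_add_card_filter_not (s := 𝒯) (fun τ => g τ = 0)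
    omega
  have htotR : (𝒯.card : ℝ) ≤ m + 2 * ((2 * m' + 4 * m) * (2 * p)) := by exact_mod_cast htot
  have hsL : 1 ≤ √L := Real.one_le_sqrt.2 hL
  set ℓ := Real.log (120 * √L * Λ) with hℓ
  have hℓ1 : 1 ≤ ℓ := by
    rw [hℓ, Real.le_log_iff_exp_le (by positivity)]
    have h1 : Real.exp 1 ≤ 3 := by linarith [Real.exp_one_lt_d9]
    nlinarith [mul_le_mul hsL hΛ zero_le_one (by positivity : 0 ≤ √L)]
  have hp0 : (0 : ℝ) ≤ p := Nat.cast_nonneg _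
  have h15 : (2 * (m' : ℝ) + 4 * m) ≤ 12 * Λ := by linarith
  have h1 : (𝒯.card : ℝ) ≤ Λ + 2 * ((12 * Λ) * (2 * (1920 * √L * Λ * ℓ))) := by
    refine htotR.trans ?_
    gcongr
  refine h1.trans ?_
  have h2 : Λ ≤ √L * Λ ^ 2 * ℓ := by
    have h3 : 1 ≤ √L * Λ * ℓ := by
      have h4 : 1 ≤ √L * Λ := by nlinarith
      nlinarith
    calc Λ = Λ * 1 := (mul_one _).symm
      _ ≤ Λ * (√L * Λ * ℓ) := by gcongr
      _ = √L * Λ ^ 2 * ℓ := by ring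
  have h5 : 0 ≤ √L * Λ ^ 2 * ℓ := by positivity
  nlinarith

end Pool.Agent.R418.HL
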