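import Mathlib
import Pool.Agent.R418.HL.P3
import Pool.Agent.R418.HL.Q2
import Pool.Agent.W303.HZ.IN2
import Pool.Agent.W284.HZ.FIB

/-! Quartic version: the asymptotics; an interval and a cell; the last coefficients for given other
coefficients. -/

set_option autoImplicit false

namespace Pool.Agent.R418.HL

open Polynomial

theorem ina : ∃ S₀ : ℝ, 1 ≤ S₀ ∧ ∀ (S σ : ℝ) (m : ℕ), S₀ ≤ S → 1 / 10 ≤ σ →
    σ ≤ S ^ ((1 : ℝ) / 2500) → m = ⌈6 * σ⌉₊ → ∃ Λ : ℝ, 1 ≤ Λ ∧ (m : ℝ) ≤ Λ ∧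
      ((m : ℝ) * (((m + m : ℕ) : ℝ) * (S ^ 2 * S ^ σ * (S ^ ((1 : ℝ) / 6)) ^ m)) ^ (m + m) *
        (S ^ ((1 : ℝ) / 6)) ^ m) ^ 2 ≤ Real.exp Λ ∧
      200000 * √(S ^ ((1 : ℝ) / 6)) * Λ ^ 2 * Real.log (120 * √(S ^ ((1 : ℝ) / 6)) * Λ) ≤
        S ^ ((1 : ℝ) / 12 + 1 / 400) := by
  refine ⟨Real.exp (10 ^ 26), Real.one_le_exp (by positivity), ?_⟩
  intro S σ m hS hσ hσS hm
  have hSpos : 0 < S := lt_of_lt_of_le (Real.exp_pos _) hS
  set s := Real.log S with hs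
  have hSs : S = Real.exp s := (Real.exp_log hSpos).symm
  have hs26 : (10 : ℝ) ^ 26 ≤ s := by
    rw [hs]
    exact (Real.le_log_iff_exp_le hSpos).mpr hS
  have hs10 : (10000 : ℝ) ≤ s := le_trans (by norm_num) hs26
  have hs0 : 0 < s := by linarith
  have hσ0 : 0 < σ := by linarith
  have hpow : ∀ x : ℝ, S ^ x = Real.exp (s * x) := fun x => by
    rw [Real.rpow_def_of_pos hSpos]
  have hm1 : (6 : ℝ) * σ ≤ m := by
    rw [hm]
    exact Nat.le_ceil _
  have hm2 : (m : ℝ) ≤ 16 * σ := by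
    have : (m : ℝ) < 6 * σ + 1 := by
      rw [hm]
      exact Nat.ceil_lt_add_one (by positivity)
    linarith
  have hm0 : (0 : ℝ) ≤ m := Nat.cast_nonneg m
  have hσσ : σ ≤ 10 * σ ^ 2 := by nlinarith
  have hσs : σ ^ 2 * 10000 ≤ σ ^ 2 * s := mul_le_mul_of_nonneg_left hs10 (by positivity)
  have hσs' : σ * s ≤ 10 * (σ ^ 2 * s) := by nlinarith
  have hσ2 : 1 / 100 ≤ σ ^ 2 := by nlinarith
  refine ⟨2000 * (σ ^ 2 * s), ?_, ?_, ?_, ?_⟩
  · nlinarith
  · nlinarith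
  · -- the bound by the exponential
    have hL : S ^ ((1 : ℝ) / 6) = Real.exp (s / 6) := by
      rw [hpow]; congr 1; ring
    have hLm : (S ^ ((1 : ℝ) / 6)) ^ m = Real.exp (m * (s / 6)) := by
      rw [hL, ← Real.exp_nat_mul]
    have hm_exp : (m : ℝ) ≤ Real.exp m := by
      have := Real.add_one_le_exp (m : ℝ)
      linarith
    have h2m_exp : ((m + m : ℕ) : ℝ) ≤ Real.exp (2 * m) := by
      have := Real.add_one_le_exp (2 * (m : ℝ))
      push_cast
      linarith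
    have hSS : S ^ 2 = Real.exp (2 * s) := by
      rw [hSs, ← Real.exp_nat_mul]; push_cast; rfl
    have hbase : ((m + m : ℕ) : ℝ) * (S ^ 2 * S ^ σ * (S ^ ((1 : ℝ) / 6)) ^ m) ≤
        Real.exp (2 * m + (2 * s + s * σ + m * (s / 6))) := by
      rw [hLm, hpow σ, Real.exp_add, Real.exp_add, Real.exp_add, ← hSS]
      exact mul_le_mul_of_nonneg_right h2m_exp (by positivity)
    have hbase0 : 0 ≤ ((m + m : ℕ) : ℝ) * (S ^ 2 * S ^ σ * (S ^ ((1 : ℝ) / 6)) ^ m) := by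
      positivity
    have key : (m : ℝ) * (((m + m : ℕ) : ℝ) * (S ^ 2 * S ^ σ * (S ^ ((1 : ℝ) / 6)) ^ m)) ^ (m + m) *
          (S ^ ((1 : ℝ) / 6)) ^ m ≤ Real.exp (1000 * (σ ^ 2 * s)) := by
      calc (m : ℝ) * (((m + m : ℕ) : ℝ) * (S ^ 2 * S ^ σ * (S ^ ((1 : ℝ) / 6)) ^ m)) ^ (m + m) *
            (S ^ ((1 : ℝ) / 6)) ^ m
          ≤ Real.exp m * (Real.exp (2 * m + (2 * s + s * σ + m * (s / 6)))) ^ (m + m) *
            Real.exp (m * (s / 6)) := by
            rw [hLm] at hbase hbase0 ⊢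
            apply mul_le_mul_of_nonneg_right _ (by positivity)
            apply mul_le_mul hm_exp _ (by positivity) (by positivity)
            exact pow_le_pow_left₀ hbase0 hbase _
        _ = Real.exp (m + (m + m : ℕ) * (2 * m + (2 * s + s * σ + m * (s / 6))) +
            m * (s / 6)) := by
            rw [← Real.exp_nat_mul, Real.exp_add, Real.exp_add]
        _ ≤ Real.exp (1000 * (σ ^ 2 * s)) := by
            apply Real.exp_le_exp.mpr
            push_cast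
            have e1 : (m : ℝ) * m ≤ 256 * σ ^ 2 := by nlinarith
            have e2 : (m : ℝ) * s ≤ 160 * (σ ^ 2 * s) := by nlinarith
            have e3 : (m : ℝ) * (s * σ) ≤ 16 * (σ ^ 2 * s) := by
              have : (m : ℝ) * (s * σ) ≤ 16 * σ * (s * σ) :=
                mul_le_mul_of_nonneg_right hm2 (by positivity)
              nlinarith
            have e4 : (m : ℝ) * m * s ≤ 256 * (σ ^ 2 * s) := by
              have := mul_le_mul_of_nonneg_right e1 hs0.le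
              linarith
            have e5 : (m : ℝ) ≤ 160 * σ ^ 2 := by linarith
            have e7 : 0 ≤ σ ^ 2 * s := by positivity
            have e8 : (m : ℝ) + (m + m) * (2 * m + (2 * s + s * σ + m * (s / 6))) + m * (s / 6) =
              m + 4 * (m * m) + 4 * (m * s) + 2 * (m * (s * σ)) + (1 / 3) * (m * m * s) +
                (1 / 6) * (m * s) := by ring
            rw [e8]
            linarith
    calc _ ≤ (Real.exp (1000 * (σ ^ 2 * s))) ^ 2 := pow_le_pow_left₀ (by positivity) key 2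
      _ = Real.exp (2000 * (σ ^ 2 * s)) := by
        rw [← Real.exp_nat_mul]
        congr 1
        push_cast
        ring
  · -- the last bound
    have hsq : √(S ^ ((1 : ℝ) / 6)) = Real.exp (s / 12) := by
      rw [hpow, Real.sqrt_eq_iff_mul_self_eq (by positivity) (by positivity), ← Real.exp_add]
      congr 1
      ring
    rw [hsq]
    have hσexp : σ ≤ Real.exp (s / 2500) := by
      rw [hpow] at hσS
      have : s * (1 / 2500) = s / 2500 := by ring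
      rwa [this] at hσS
    have hσ2exp : σ ^ 2 ≤ Real.exp (s / 1250) := by
      have h1 := pow_le_pow_left₀ hσ0.le hσexp 2
      rw [← Real.exp_nat_mul] at h1
      have : ((2 : ℕ) : ℝ) * (s / 2500) = s / 1250 := by push_cast; ring
      rwa [this] at h1
    set Λ := 2000 * (σ ^ 2 * s) with hΛ
    have hΛ0 : 0 < Λ := by positivity
    have hΛle : Λ ≤ 2000 * (Real.exp (s / 1250) * s) := by
      rw [hΛ]
      have := mul_le_mul_of_nonneg_right hσ2exp hs0.le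
      linarith
    have hbig1 : 240000 * s ≤ Real.exp (s / 3) := by
      have h1 := Real.pow_div_factorial_le_exp (s / 3) (by positivity) 2
      have h2 : (240000 : ℝ) * s ≤ (s / 3) ^ 2 / (Nat.factorial 2 : ℕ) := by
        have : ((Nat.factorial 2 : ℕ) : ℝ) = 2 := by norm_num [Nat.factorial]
        rw [this]
        have h3 : (4320000 : ℝ) ≤ s := le_trans (by norm_num) hs26
        nlinarith
      linarith
    have hbig2 : 800000000000 * s ^ 3 ≤ Real.exp (9 / 10000 * s) := by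
      have h1 := Real.pow_div_factorial_le_exp (9 / 10000 * s) (by positivity) 4
      have h2 : (800000000000 : ℝ) * s ^ 3 ≤ (9 / 10000 * s) ^ 4 / (Nat.factorial 4 : ℕ) := by
        have : ((Nat.factorial 4 : ℕ) : ℝ) = 24 := by norm_num [Nat.factorial]
        rw [this]
        have h3 : s ^ 3 * 10 ^ 26 ≤ s ^ 3 * s := mul_le_mul_of_nonneg_left hs26 (by positivity)
        have h4 : (9 / 10000 * s) ^ 4 / 24 = (9 / 10000 : ℝ) ^ 4 / 24 * (s ^ 3 * s) := by ring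
        rw [h4]
        have h5 : (9 / 10000 : ℝ) ^ 4 / 24 * (s ^ 3 * 10 ^ 26) ≤
            (9 / 10000 : ℝ) ^ 4 / 24 * (s ^ 3 * s) :=
          mul_le_mul_of_nonneg_left h3 (by positivity)
        have h6 : (800000000000 : ℝ) * s ^ 3 ≤ (9 / 10000 : ℝ) ^ 4 / 24 * (s ^ 3 * 10 ^ 26) := by
          have h7 : (0 : ℝ) < s ^ 3 := by positivity
          nlinarith
        linarith
      linarith
    have hlog : Real.log (120 * Real.exp (s / 12) * Λ) ≤ s := by
      rw [Real.log_le_iff_le_exp (by positivity)]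
      calc 120 * Real.exp (s / 12) * Λ ≤
            120 * Real.exp (s / 12) * (2000 * (Real.exp (s / 1250) * s)) :=
            mul_le_mul_of_nonneg_left hΛle (by positivity)
        _ = Real.exp (s / 12) * Real.exp (s / 1250) * (240000 * s) := by ring
        _ ≤ Real.exp (s / 12) * Real.exp (s / 1250) * Real.exp (s / 3) :=
            mul_le_mul_of_nonneg_left hbig1 (by positivity)
        _ = Real.exp (s / 12 + s / 1250 + s / 3) := by rw [Real.exp_add, Real.exp_add]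
        _ ≤ Real.exp s := by
            apply Real.exp_le_exp.mpr
            linarith
    have hΛ2 : Λ ^ 2 ≤ 4000000 * (Real.exp (s / 625) * s ^ 2) := by
      have h1 := pow_le_pow_left₀ hΛ0.le hΛle 2
      have h2 : (2000 * (Real.exp (s / 1250) * s)) ^ 2 =
          4000000 * (Real.exp (s / 625) * s ^ 2) := by
        have h3 : Real.exp (s / 625) = Real.exp (s / 1250) ^ 2 := by
          rw [← Real.exp_nat_mul]
          congr 1
          push_cast
          ring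
        rw [h3]
        ring
      rwa [h2] at h1
    rw [hpow]
    calc 200000 * Real.exp (s / 12) * Λ ^ 2 * Real.log (120 * Real.exp (s / 12) * Λ)
        ≤ 200000 * Real.exp (s / 12) * Λ ^ 2 * s :=
          mul_le_mul_of_nonneg_left hlog (by positivity)
      _ ≤ 200000 * Real.exp (s / 12) * (4000000 * (Real.exp (s / 625) * s ^ 2)) * s := by
          apply mul_le_mul_of_nonneg_right _ hs0.le
          exact mul_le_mul_of_nonneg_left hΛ2 (by positivity)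
      _ = Real.exp (s / 12) * Real.exp (s / 625) * (800000000000 * s ^ 3) := by ring
      _ ≤ Real.exp (s / 12) * Real.exp (s / 625) * Real.exp (9 / 10000 * s) :=
          mul_le_mul_of_nonneg_left hbig2 (by positivity)
      _ = Real.exp (s / 12 + s / 625 + 9 / 10000 * s) := by rw [Real.exp_add, Real.exp_add]
      _ = Real.exp (s * (1 / 12 + 1 / 400)) := by
          congr 1
          ring

open Pool.Agent.W303.HZ.IN2 (pol coeff_pol natDegree_pol eval_pol pol_ne)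

/-- an interval and a cell -/
theorem in2 (K : ℝ) (hK : 1 ≤ K) : ∃ c₀ S₀ : ℝ, 0 < c₀ ∧ 1 ≤ S₀ ∧
    ∀ (R T V : ℝ) (a b c d : ℤ) (p q : ℤ → ℤ)
    (𝒟 : Finset ℤ), (∀ e : ℤ, e ^ 2 ≠ a) → 1 ≤ R → 0 < T → S₀ ≤ R * T ^ 4 → T ≤ R * T ^ 4 →
    1 ≤ T * (R * T ^ 4) → (R * T ^ 4) ^ ((1 : ℝ) / 10) ≤ V →
    Real.log V ≤ (R * T ^ 4) ^ ((1 : ℝ) / 2500) →
    (∀ e ∈ 𝒟, Good K R T V a b c d e (p e) (q e) ∧ Chart K R T V a b c d (p e) (q e)) →
    (∀ e ∈ 𝒟, ∀ e' ∈ 𝒟, |(p e : ℝ) / (T ^ 2 * q e) - p e' / (T ^ 2 * q e')| ≤ c₀) →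
    (∀ e ∈ 𝒟, ∀ e' ∈ 𝒟, |(e : ℝ) - e'| ≤ (R * T ^ 4) ^ ((1 : ℝ) / 6)) →
    (𝒟.card : ℝ) ≤ (R * T ^ 4) ^ ((1 : ℝ) / 12 + 1 / 400) := by
  obtain ⟨c₀, S₁, hc₀, hS₁, hV⟩ := va2 K hK
  obtain ⟨S₂, hS₂, hA⟩ := ina
  refine ⟨c₀, max (max S₁ S₂) (max 10 K), hc₀,
    le_trans hS₁ (le_trans (le_max_left _ _) (le_max_left _ _)), ?_⟩
  intro R T V a b c d p q 𝒟 hsq hR1 hT hS hTS hTS' hV1 hlog hG hcell hint
  have hK0 : 0 < K := by linarith
  set S : ℝ := R * T ^ 4 with hSdef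
  have hSS₁ : S₁ ≤ S := le_trans (le_trans (le_max_left _ _) (le_max_left _ _)) hS
  have hSS₂ : S₂ ≤ S := le_trans (le_trans (le_max_right _ _) (le_max_left _ _)) hS
  have hS10 : 10 ≤ S := le_trans (le_trans (le_max_left _ _) (le_max_right _ _)) hS
  have hSK : K ≤ S := le_trans (le_trans (le_max_right _ _) (le_max_right _ _)) hS
  have hS0 : 0 < S := by linarith
  rcases Finset.eq_empty_or_nonempty 𝒟 with rfl | ⟨d₀, hd₀⟩
  · simp only [Finset.card_empty, Nat.cast_zero]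
    exact Real.rpow_nonneg hS0.le _
  -- the exponent
  have hlS : 1 ≤ Real.log S := by
    rw [Real.le_log_iff_exp_le hS0]
    have := Real.exp_one_lt_d9
    linarith
  have hV0 : 0 < V := lt_of_lt_of_le (Real.rpow_pos_of_pos hS0 _) hV1
  obtain ⟨σ, hσ⟩ : ∃ σ : ℝ, σ = Real.log V / Real.log S := ⟨_, rfl⟩
  have hVσ : V = S ^ σ := by
    rw [Real.rpow_def_of_pos hS0, hσ, mul_div_cancel₀ _ (by linarith : Real.log S ≠ 0)]
    exact (Real.exp_log hV0).symm
  have hlV : 1 / 10 * Real.log S ≤ Real.log V := by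
    have := Real.log_le_log (Real.rpow_pos_of_pos hS0 _) hV1
    rwa [Real.log_rpow hS0] at this
  have hσ1 : 1 / 10 ≤ σ := by
    rw [hσ, le_div_iff₀ (by linarith)]
    exact hlV
  have hσ2 : σ ≤ S ^ ((1 : ℝ) / 2500) := by
    refine le_trans ?_ hlog
    rw [hσ]
    exact div_le_self (by linarith) hlS
  obtain ⟨m, hm⟩ : ∃ m : ℕ, m = ⌈6 * σ⌉₊ := ⟨_, rfl⟩
  have hm1 : 1 ≤ m := by
    rw [hm, Nat.one_le_ceil_iff]
    linarith
  set L : ℝ := S ^ ((1 : ℝ) / 6) with hLdef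
  have hL1 : 1 ≤ L := Real.one_le_rpow (by linarith) (by norm_num)
  obtain ⟨Λ, hΛ1, hΛm, hΛe, hΛf⟩ := hA S σ m hSS₂ hσ1 hσ2 hm
  have hV1' : 1 ≤ V := by
    rw [hVσ]; exact Real.one_le_rpow (by linarith) (by linarith)
  -- the matrix
  let A : {d // d ∈ 𝒟} → Fin m ⊕ Fin m → ℤ := fun i =>
    Sum.elim (fun j : Fin m => p i * ((i : ℤ) - d₀) ^ (j : ℕ))
      (fun j : Fin m => q i * ((i : ℤ) - d₀) ^ (j : ℕ))
  obtain ⟨H0, hH0⟩ : ∃ H0 : ℝ, H0 = S ^ 2 * S ^ σ * L ^ m := ⟨_, rfl⟩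
  have hLm : ∀ j : Fin m, L ^ (j : ℕ) ≤ L ^ m := fun j => pow_le_pow_right₀ hL1 j.2.le
  have hLm1 : 1 ≤ L ^ m := one_le_pow₀ hL1
  have hS21 : 1 ≤ S ^ 2 := one_le_pow₀ (by linarith)
  have hH01 : 1 ≤ H0 := by
    rw [hH0, ← hVσ]
    exact one_le_mul_of_one_le_of_one_le (one_le_mul_of_one_le_of_one_le hS21 hV1') hLm1
  have hτ : ∀ d ∈ 𝒟, |((d - d₀ : ℤ) : ℝ)| ≤ L := by
    intro d hd
    push_cast
    exact hint d hd d₀ hd₀
  have hAb : ∀ i j, |(A i j : ℝ)| ≤ H0 := by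
    rintro ⟨d, hd⟩ (j | j)
    · change |((p d * (d - d₀) ^ (j : ℕ) : ℤ) : ℝ)| ≤ H0
      rw [Int.cast_mul, Int.cast_pow, abs_mul, abs_pow]
      calc |(p d : ℝ)| * |((d - d₀ : ℤ) : ℝ)| ^ (j : ℕ) ≤ (K * (T * V)) * L ^ m := by
            refine mul_le_mul (hG d hd).1.hp ?_ (by positivity) (by positivity)
            exact (pow_le_pow_left₀ (abs_nonneg _) (hτ d hd) _).trans (hLm j)
        _ ≤ (S * (S * V)) * L ^ m := by gcongr
        _ = H0 := by
            rw [hH0, ← hVσ]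
            ring
    · change |((q d * (d - d₀) ^ (j : ℕ) : ℤ) : ℝ)| ≤ H0
      rw [Int.cast_mul, Int.cast_pow, abs_mul, abs_pow]
      have hq : |(q d : ℝ)| ≤ K * (S * V) := by
        have h1 := (hG d hd).1.hq
        calc |(q d : ℝ)| = |(q d : ℝ)| * 1 := (mul_one _).symm
          _ ≤ |(q d : ℝ)| * (T * S) := by gcongr
          _ = |(q d : ℝ)| * T * S := by ring
          _ ≤ K * V * S := by gcongr
          _ = K * (S * V) := by ring
      calc |(q d : ℝ)| * |((d - d₀ : ℤ) : ℝ)| ^ (j : ℕ) ≤ (K * (S * V)) * L ^ m := by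
            refine mul_le_mul hq ?_ (by positivity) (by positivity)
            exact (pow_le_pow_left₀ (abs_nonneg _) (hτ d hd) _).trans (hLm j)
        _ ≤ (S * (S * V)) * L ^ m := by gcongr
        _ = H0 := by
            rw [hH0, ← hVσ]
            ring
  have hdet : ∀ f : Fin m ⊕ Fin m → {d // d ∈ 𝒟},
      Matrix.det (Matrix.of fun i j => A (f i) j) = 0 := by
    intro f
    have h1 := hV R T V σ m a b c d d₀ (p d₀) (q d₀) (fun i => p (f i)) (fun i => q (f i))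
      (fun i => (f i : ℤ)) hR1 hT hSS₁ hσ1 hVσ hm (fun i => hG _ (f i).2) (hG d₀ hd₀).1
      (hG d₀ hd₀).2 (fun i j => hcell _ (f i).2 _ (f j).2) (fun i => hcell _ (f i).2 _ hd₀)
      (fun i => hint _ (f i).2 _ hd₀)
    exact h1
  obtain ⟨v, hv0, hvA, hvb⟩ := Pool.Agent.W563.HZ.REL.t A H0 hH01 ⟨⟨d₀, hd₀⟩⟩ hAb hdet
  have hcardκ : Fintype.card (Fin m ⊕ Fin m) = m + m := by simp
  rw [hcardκ] at hvb
  obtain ⟨Hb, hHb⟩ : ∃ Hb : ℝ, Hb = (((m + m : ℕ) : ℝ) * H0) ^ (m + m) := ⟨_, rfl⟩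
  have hHb1 : 1 ≤ Hb := by
    rw [hHb]
    apply one_le_pow₀
    have h1 : (1 : ℝ) ≤ ((m + m : ℕ) : ℝ) := by exact_mod_cast (by omega : 1 ≤ m + m)
    exact one_le_mul_of_one_le_of_one_le h1 hH01
  have hcf : ∀ (w : Fin m → ℤ), (∀ j, |(w j : ℝ)| ≤ Hb) → ∀ k, |((pol w).coeff k : ℝ)| ≤ Hb := by
    intro w hw k
    rw [coeff_pol]
    by_cases hk : k < m
    · rw [dif_pos hk]; exact hw _
    · rw [dif_neg hk]; simp only [Int.cast_zero, abs_zero]; linarith
  have hne : pol (fun j => v (Sum.inl j)) ≠ 0 ∨ pol (fun j => v (Sum.inr j)) ≠ 0 := by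
    obtain ⟨j, hj⟩ := Function.ne_iff.1 hv0
    rcases j with j | j
    · exact Or.inl (pol_ne _ j hj)
    · exact Or.inr (pol_ne _ j hj)
  have hfin := cub a b c d d₀ hsq (pol fun j => v (Sum.inl j)) (pol fun j => v (Sum.inr j)) m
    hne (natDegree_pol hm1 _) (natDegree_pol hm1 _) L Hb Λ hL1 hHb1 hΛ1 hΛm
    (by rw [hHb, hH0]; exact hΛe)
    (hcf _ fun j => by rw [hHb]; exact hvb _) (hcf _ fun j => by rw [hHb]; exact hvb _)
    (𝒟.image fun d => d - d₀) (by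
      intro τ hτ'
      obtain ⟨d, hd, rfl⟩ := Finset.mem_image.1 hτ'
      exact hτ d hd) (by
      intro τ hτ'
      obtain ⟨e, hd, rfl⟩ := Finset.mem_image.1 hτ'
      refine ⟨p e, q e, ?_, ?_⟩
      · have h1 := hvA ⟨e, hd⟩
        rw [Fintype.sum_sum_type] at h1
        rw [eval_pol, eval_pol, Finset.mul_sum, Finset.mul_sum, ← h1]
        congr 1
        · refine Finset.sum_congr rfl fun j _ => ?_
          change _ = p e * (e - d₀) ^ (j : ℕ) * v (Sum.inl j)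
          ring
        · refine Finset.sum_congr rfl fun j _ => ?_
          change _ = q e * (e - d₀) ^ (j : ℕ) * v (Sum.inr j)
          ring
      · have h1 := (hG e hd).1.heq
        rw [show d₀ + (e - d₀) = e by ring]
        exact h1)
  rw [Finset.card_image_of_injective _ (fun x y h => by simpa using h)] at hfin
  exact hfin.trans hΛf

/-- the last coefficients, for given other coefficients -/
theorem fib (K : ℝ) (hK : 1 ≤ K) : ∃ S₀ : ℝ, 1 ≤ S₀ ∧
    ∀ (R T V : ℝ) (a b c d : ℤ) (𝒟 : Finset ℤ),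
    (∀ e : ℤ, e ^ 2 ≠ a) → 1 ≤ R → 0 < T → S₀ ≤ R * T ^ 4 → T ≤ R * T ^ 4 →
    1 ≤ T * (R * T ^ 4) → (R * T ^ 4) ^ ((1 : ℝ) / 10) ≤ V →
    Real.log V ≤ (R * T ^ 4) ^ ((1 : ℝ) / 2500) →
    (∀ e ∈ 𝒟, ∃ p q : ℤ, Good K R T V a b c d e p q ∧ Chart K R T V a b c d p q) →
    (𝒟.card : ℝ) ≤ (R * T ^ 4) ^ (1 - (1 : ℝ) / 12 + 1 / 300) := by
  obtain ⟨c₂, S₂, hc₂, hS₂, h2⟩ := in2 K hK
  have hK0 : 0 < K := by linarith
  obtain ⟨M, hM⟩ : ∃ M : ℝ, M = (2 * K + 2) * (2 * (K ^ 2 / c₂) + 2) := ⟨_, rfl⟩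
  have hM1 : 1 ≤ M := by
    have e1 : 0 < K ^ 2 / c₂ := by positivity
    rw [hM]
    nlinarith
  obtain ⟨S₃, hS₃⟩ : ∃ S₃ : ℝ, S₃ = M ^ (1200 : ℝ) := ⟨_, rfl⟩
  refine ⟨max S₂ S₃, le_trans hS₂ (le_max_left _ _), ?_⟩
  intro R T V a b c d 𝒟 hsq hR hT0 hS hTS hTS' hV hlog hex
  have hSS2 : S₂ ≤ R * T ^ 4 := le_trans (le_max_left _ _) hS
  have hSK : S₃ ≤ R * T ^ 4 := le_trans (le_max_right _ _) hS
  set S : ℝ := R * T ^ 4 with hSdef
  have hS1 : 1 ≤ S := hS₂.trans hSS2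
  have hS0 : 0 < S := by linarith
  have hV0 : 0 < V := lt_of_lt_of_le (Real.rpow_pos_of_pos hS0 _) hV
  choose! p q hpq using hex
  classical
  set L : ℝ := S ^ ((1 : ℝ) / 6) with hL
  have hL0 : 0 < L := Real.rpow_pos_of_pos hS0 _
  set B : ℝ := S ^ ((1 : ℝ) / 12 + 1 / 400) with hBdef
  have hB0 : 0 ≤ B := (Real.rpow_pos_of_pos hS0 _).le
  have k2 : (𝒟.card : ℝ) ≤ B * ((2 * (K * S / L) + 2) * (2 * (K ^ 2 / c₂) + 2)) := by
    refine Pool.Agent.W284.HZFIB.fibre 𝒟 (fun e => (p e : ℝ) / (T ^ 2 * q e)) (K * S) L c₂ (K ^ 2) B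
      (by positivity) hL0 hc₂ (by positivity) hB0 ?_ ?_ ?_
    · intro e he
      exact (hpq e he).1.he
    · intro e he
      have h1 := (hpq e he).2.1
      have hq : (q e : ℝ) ≠ 0 := by
        intro h0
        rw [h0, abs_zero, zero_mul, mul_zero] at h1
        linarith
      exact y_le hK hT0 hq (hpq e he).1.hp h1
    · intro D' hD' hyy hdd
      exact h2 R T V a b c d p q D' hsq hR hT0 hSS2 hTS hTS' hV hlog
        (fun e he => hpq e (hD' he)) hyy hdd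
  have hSL : S / L = S ^ ((5 : ℝ) / 6) := by
    rw [hL, div_eq_iff (Real.rpow_pos_of_pos hS0 _).ne', ← Real.rpow_add hS0]
    norm_num
  have hSL1 : 1 ≤ S / L := by
    rw [hSL]
    exact Real.one_le_rpow hS1 (by norm_num)
  have hMS : M ≤ S ^ ((1 : ℝ) / 1200) := by
    have e : M = S₃ ^ ((1 : ℝ) / 1200) := by
      rw [hS₃, ← Real.rpow_mul (by linarith)]
      norm_num
    rw [e]
    exact Real.rpow_le_rpow (by rw [hS₃]; positivity) hSK (by norm_num)
  have hf : 2 * (K * S / L) + 2 ≤ (2 * K + 2) * (S / L) := by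
    rw [mul_div_assoc]
    linarith
  calc (𝒟.card : ℝ) ≤ B * ((2 * (K * S / L) + 2) * (2 * (K ^ 2 / c₂) + 2)) := k2
    _ ≤ B * (((2 * K + 2) * (S / L)) * (2 * (K ^ 2 / c₂) + 2)) := by
      gcongr
    _ = M * (B * (S / L)) := by rw [hM]; ring
    _ ≤ S ^ ((1 : ℝ) / 1200) * (B * (S / L)) := by
      gcongr
    _ = S ^ (1 - (1 : ℝ) / 12 + 1 / 300) := by
      rw [hSL, hBdef, ← Real.rpow_add hS0, ← Real.rpow_add hS0]
      norm_num

end Pool.Agent.R418.HL
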