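import Mathlib
import Pool.Agent.R418.HL.P4
import Pool.Agent.R418.HL.G1
import Pool.Agent.W654.HZ.CLT

/-! Quartic version: the curves from forms. -/

set_option autoImplicit false

namespace Pool.Agent.R418.HL

noncomputable section

open Pool.Agent.W654.HZ.CLT (card_Icc_le mem_Icc_of)

/-- integers of absolute value at most `x` -/
def bx (x : ℝ) : Finset ℤ := Finset.Icc (-⌊x⌋) ⌊x⌋

lemma bx_card {x M : ℝ} (hx : 0 ≤ x) (h : 2 * x + 1 ≤ M) : ((bx x).card : ℝ) ≤ M :=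
  (card_Icc_le x hx).trans h

/-- the curve of a form -/
def ab (a b c d e : ℤ) : ℤ × ℤ := (-invI a b c d e / 4, -invJ a b c d e / 4)

lemma ab_eq {a b c d e : ℤ} {P : ℤ × ℤ} (h1 : invI a b c d e = -4 * P.1)
    (h2 : invJ a b c d e = -4 * P.2) : ab a b c d e = P := by
  unfold ab
  rw [h1, h2]
  ext
  · show -(-4 * P.1) / 4 = P.1
    omega
  · show -(-4 * P.2) / 4 = P.2
    omega

/-- the curves with a point in a given range of heights, from forms whose first coefficient is not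
a square -/
def SN (K R T V : ℝ) : Set (ℤ × ℤ) := {P | ∃ a b c d e p q : ℤ, Good K R T V a b c d e p q ∧
  Chart K R T V a b c d p q ∧ (∀ s : ℤ, s ^ 2 ≠ a) ∧ invI a b c d e = -4 * P.1 ∧
  invJ a b c d e = -4 * P.2}

/-- the coefficients are in the box -/
def InBox (K R T : ℝ) (a b c d e : ℤ) : Prop :=
  |(a : ℝ)| * T ^ 4 ≤ K * R ∧ |(b : ℝ)| * T ^ 2 ≤ K * R ∧ |(c : ℝ)| ≤ K * R ∧
    |(d : ℝ)| ≤ K * (R * T ^ 2) ∧ |(e : ℝ)| ≤ K * (R * T ^ 4)

/-- the curves from forms whose first coefficient is a square -/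
def SQ (K R T : ℝ) : Set (ℤ × ℤ) := {P | ∃ a b c d e s : ℤ, InBox K R T a b c d e ∧
  s ^ 2 = a ∧ invI a b c d e = -4 * P.1 ∧ invJ a b c d e = -4 * P.2}

/-- the curves from forms of a large shape -/
def SL (K R T : ℝ) : Set (ℤ × ℤ) := {P | ∃ a b c d e : ℤ, InBox K R T a b c d e ∧
  a ≠ 0 ∧ invI a b c d e = -4 * P.1 ∧ invJ a b c d e = -4 * P.2}

lemma rT {R T : ℝ} (hR : 1 ≤ R) (hT : R ^ (-(1 : ℝ) / 25) ≤ T) (hT' : T ≤ R ^ ((1 : ℝ) / 25))
    (n : ℕ) : R ^ (-(n : ℝ) / 25) ≤ T ^ n ∧ T ^ n ≤ R ^ ((n : ℝ) / 25) := by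
  have hR0 : 0 < R := by linarith
  have hT0 : 0 < T := lt_of_lt_of_le (Real.rpow_pos_of_pos hR0 _) hT
  constructor
  · have h := pow_le_pow_left₀ (Real.rpow_pos_of_pos hR0 _).le hT n
    rw [← Real.rpow_natCast, ← Real.rpow_mul hR0.le] at h
    refine le_trans (le_of_eq ?_) h
    congr 1
    ring
  · have h := pow_le_pow_left₀ hT0.le hT' n
    rw [← Real.rpow_natCast (R ^ ((1 : ℝ) / 25)), ← Real.rpow_mul hR0.le] at h
    refine h.trans (le_of_eq ?_)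
    congr 1
    ring

lemma mulR {R : ℝ} (hR : 0 < R) (s : ℝ) : R * R ^ s = R ^ (1 + s) := by
  rw [Real.rpow_add hR, Real.rpow_one]

theorem cnc (K : ℝ) (hK : 1 ≤ K) : ∃ C R₀ : ℝ, 1 ≤ C ∧ 1 ≤ R₀ ∧ ∀ R T V : ℝ, R₀ ≤ R →
    R ^ (-(1 : ℝ) / 25) ≤ T → T ≤ R ^ ((1 : ℝ) / 25) → R ^ ((13 : ℝ) / 100) ≤ V →
    Real.log V ≤ R ^ ((1 : ℝ) / 3000) →
    (SN K R T V).Finite ∧ ((SN K R T V).ncard : ℝ) ≤ C * R ^ ((74 : ℝ) / 15) := by
  classical
  obtain ⟨S₀, hS₀, hF⟩ := fib K hK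
  refine ⟨(2 * K + 1) ^ 4, S₀ ^ 2, one_le_pow₀ (by linarith), one_le_pow₀ hS₀, ?_⟩
  intro R T V hR hTl hTu hV hlog
  have hK0 : 0 < K := by linarith
  have hRS : S₀ ^ 2 ≤ R := hR
  have hR1 : 1 ≤ R := le_trans (one_le_pow₀ hS₀) hRS
  have hR0 : 0 < R := by linarith
  have hT0 : 0 < T := lt_of_lt_of_le (Real.rpow_pos_of_pos hR0 _) hTl
  obtain ⟨hT4l, hT4u⟩ := rT hR1 hTl hTu 4
  obtain ⟨hT2l, hT2u⟩ := rT hR1 hTl hTu 2
  push_cast at hT4l hT4u hT2l hT2u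
  have hT4 : 0 < T ^ 4 := by positivity
  have hT2 : 0 < T ^ 2 := by positivity
  obtain ⟨S, hS⟩ : ∃ S, S = R * T ^ 4 := ⟨_, rfl⟩
  have hS0 : 0 < S := by rw [hS]; positivity
  have hSl : R ^ ((21 : ℝ) / 25) ≤ S := by
    rw [hS]
    calc R ^ ((21 : ℝ) / 25) = R * R ^ (-(4 : ℝ) / 25) := by rw [mulR hR0]; norm_num
      _ ≤ R * T ^ 4 := by gcongr
  have hSu : S ≤ R ^ ((29 : ℝ) / 25) := by
    rw [hS]
    calc R * T ^ 4 ≤ R * R ^ ((4 : ℝ) / 25) := by gcongr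
      _ = R ^ ((29 : ℝ) / 25) := by rw [mulR hR0]; norm_num
  have hmono : ∀ s t : ℝ, s ≤ t → R ^ s ≤ R ^ t := fun s t h =>
    Real.rpow_le_rpow_of_exponent_le hR1 h
  have hSS : S₀ ≤ S := by
    have h1 : S₀ ≤ R ^ ((1 : ℝ) / 2) := by
      rw [← Real.sqrt_eq_rpow]
      exact Real.le_sqrt_of_sq_le hRS
    have h2 := hmono ((1 : ℝ) / 2) ((21 : ℝ) / 25) (by norm_num)
    linarith
  have hTS : T ≤ S := hTu.trans ((hmono _ _ (by norm_num)).trans hSl)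
  have hTS' : 1 ≤ T * S := by
    calc (1 : ℝ) ≤ R ^ ((20 : ℝ) / 25) := Real.one_le_rpow hR1 (by norm_num)
      _ = R ^ (-(1 : ℝ) / 25) * R ^ ((21 : ℝ) / 25) := by
        rw [← Real.rpow_add hR0]; norm_num
      _ ≤ T * S := by gcongr
  have hSh : S ^ ((1 : ℝ) / 10) ≤ V := by
    have h1 : S ^ ((1 : ℝ) / 10) ≤ (R ^ ((29 : ℝ) / 25)) ^ ((1 : ℝ) / 10) :=
      Real.rpow_le_rpow hS0.le hSu (by norm_num)
    rw [← Real.rpow_mul hR0.le] at h1
    have h2 := hmono ((29 : ℝ) / 25 * (1 / 10)) ((13 : ℝ) / 100) (by norm_num)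
    linarith
  have hl : Real.log V ≤ S ^ ((1 : ℝ) / 2500) := by
    have h1 : (R ^ ((21 : ℝ) / 25)) ^ ((1 : ℝ) / 2500) ≤ S ^ ((1 : ℝ) / 2500) :=
      Real.rpow_le_rpow (by positivity) hSl (by norm_num)
    rw [← Real.rpow_mul hR0.le] at h1
    have h2 := hmono ((1 : ℝ) / 3000) ((21 : ℝ) / 25 * (1 / 2500)) (by norm_num)
    linarith
  -- the sets
  obtain ⟨D, hD⟩ : ∃ D : ℤ × ℤ × ℤ × ℤ → Finset ℤ, ∀ x, D x =
      (bx (K * (R * T ^ 4))).filter (fun e =>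
        ∃ p q : ℤ, Good K R T V x.1 x.2.1 x.2.2.1 x.2.2.2 e p q ∧
          Chart K R T V x.1 x.2.1 x.2.2.1 x.2.2.2 p q) := ⟨_, fun _ => rfl⟩
  obtain ⟨F, hFF⟩ : ∃ F : Finset (ℤ × ℤ × ℤ × ℤ), F =
      (bx (K * R / T ^ 4) ×ˢ bx (K * R / T ^ 2) ×ˢ bx (K * R) ×ˢ bx (K * (R * T ^ 2))).filter
        (fun x => ∀ s : ℤ, s ^ 2 ≠ x.1) := ⟨_, rfl⟩
  have hDc : ∀ x ∈ F, ((D x).card : ℝ) ≤ S ^ (1 - (1 : ℝ) / 12 + 1 / 300) := by
    intro x hx
    rw [hFF, Finset.mem_filter] at hx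
    rw [hS]
    refine hF R T V x.1 x.2.1 x.2.2.1 x.2.2.2 (D x) hx.2 hR1 hT0 (by rw [← hS]; exact hSS)
      (by rw [← hS]; exact hTS) (by rw [← hS]; exact hTS')
      (by rw [← hS]; exact hSh) (by rw [← hS]; exact hl) (fun d hd => ?_)
    rw [hD, Finset.mem_filter] at hd
    exact hd.2
  obtain ⟨G, hG⟩ : ∃ G : Finset (ℤ × ℤ), G =
      F.biUnion (fun x => (D x).image (fun e => ab x.1 x.2.1 x.2.2.1 x.2.2.2 e)) := ⟨_, rfl⟩
  have hsub : SN K R T V ⊆ (G : Set (ℤ × ℤ)) := by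
    rintro P ⟨a, b, c, d, e, p, q, hg, hch, hsq, hk1, hk2⟩
    rw [Finset.mem_coe, hG, Finset.mem_biUnion]
    refine ⟨(a, b, c, d), ?_, ?_⟩
    · rw [hFF, Finset.mem_filter, Finset.mem_product, Finset.mem_product, Finset.mem_product]
      refine ⟨⟨?_, ?_, ?_, ?_⟩, hsq⟩
      · refine mem_Icc_of _ _ ?_
        rw [le_div_iff₀ hT4]
        exact hg.ha
      · refine mem_Icc_of _ _ ?_
        rw [le_div_iff₀ hT2]
        exact hg.hb
      · exact mem_Icc_of _ _ hg.hc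
      · exact mem_Icc_of _ _ hg.hd
    · rw [Finset.mem_image]
      refine ⟨e, ?_, ab_eq hk1 hk2⟩
      rw [hD, Finset.mem_filter]
      exact ⟨mem_Icc_of _ _ hg.he, p, q, hg, hch⟩
  have hGc : (G.card : ℝ) ≤ (F.card : ℝ) * S ^ (1 - (1 : ℝ) / 12 + 1 / 300) := by
    have h1 : G.card ≤ ∑ x ∈ F, (D x).card := by
      rw [hG]
      exact le_trans Finset.card_biUnion_le (Finset.sum_le_sum (fun x _ => Finset.card_image_le))
    have h2 : ((∑ x ∈ F, (D x).card : ℕ) : ℝ) ≤ ∑ x ∈ F, S ^ (1 - (1 : ℝ) / 12 + 1 / 300) := by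
      push_cast
      exact Finset.sum_le_sum hDc
    rw [Finset.sum_const, nsmul_eq_mul] at h2
    exact le_trans (by exact_mod_cast h1) h2
  have hT4R : T ^ 4 ≤ R := by
    have := hmono ((4 : ℝ) / 25) 1 (by norm_num)
    rw [Real.rpow_one] at this
    linarith
  have hT2R : T ^ 2 ≤ R := by
    have := hmono ((2 : ℝ) / 25) 1 (by norm_num)
    rw [Real.rpow_one] at this
    linarith
  have hT2R' : 1 ≤ R * T ^ 2 := by
    calc (1 : ℝ) ≤ R ^ ((23 : ℝ) / 25) := Real.one_le_rpow hR1 (by norm_num)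
      _ = R * R ^ (-(2 : ℝ) / 25) := by rw [mulR hR0]; norm_num
      _ ≤ R * T ^ 2 := by gcongr
  have hFc : (F.card : ℝ) ≤ (2 * K + 1) ^ 4 * (R ^ 4 / T ^ 4) := by
    have h1 : F.card ≤ (bx (K * R / T ^ 4)).card * ((bx (K * R / T ^ 2)).card *
        ((bx (K * R)).card * (bx (K * (R * T ^ 2))).card)) := by
      rw [hFF]
      refine le_trans (Finset.card_filter_le _ _) ?_
      rw [Finset.card_product, Finset.card_product, Finset.card_product]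
    have b1 : ((bx (K * R / T ^ 4)).card : ℝ) ≤ (2 * K + 1) * (R / T ^ 4) := by
      apply bx_card (by positivity)
      have : 1 ≤ R / T ^ 4 := by rw [le_div_iff₀ hT4]; linarith
      rw [mul_div_assoc]
      linarith
    have b2 : ((bx (K * R / T ^ 2)).card : ℝ) ≤ (2 * K + 1) * (R / T ^ 2) := by
      apply bx_card (by positivity)
      have : 1 ≤ R / T ^ 2 := by rw [le_div_iff₀ hT2]; linarith
      rw [mul_div_assoc]
      linarith
    have b3 : ((bx (K * R)).card : ℝ) ≤ (2 * K + 1) * R := by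
      apply bx_card (by positivity)
      linarith
    have b4 : ((bx (K * (R * T ^ 2))).card : ℝ) ≤ (2 * K + 1) * (R * T ^ 2) := by
      apply bx_card (by positivity)
      linarith
    have h2 : (F.card : ℝ) ≤ ((2 * K + 1) * (R / T ^ 4)) * (((2 * K + 1) * (R / T ^ 2)) *
        (((2 * K + 1) * R) * ((2 * K + 1) * (R * T ^ 2)))) := by
      refine le_trans (Nat.cast_le.2 h1) ?_
      push_cast
      exact mul_le_mul b1 (mul_le_mul b2 (mul_le_mul b3 b4 (by positivity) (by positivity))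
        (by positivity) (by positivity)) (by positivity) (by positivity)
    refine h2.trans (le_of_eq ?_)
    field_simp
  have hfin : (2 * K + 1) ^ 4 * (R ^ 4 / T ^ 4) * S ^ (1 - (1 : ℝ) / 12 + 1 / 300) ≤
      (2 * K + 1) ^ 4 * R ^ ((74 : ℝ) / 15) := by
    have e1 : S ^ (1 - (1 : ℝ) / 12 + 1 / 300) =
        R ^ ((23 : ℝ) / 25) * (T ^ 4) ^ ((23 : ℝ) / 25) := by
      rw [hS, Real.mul_rpow hR0.le hT4.le]
      norm_num
    have e2 : (T ^ 4) ^ ((23 : ℝ) / 25) = T ^ 4 * (T ^ 4) ^ (-(2 : ℝ) / 25) := by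
      nth_rewrite 2 [← Real.rpow_one (T ^ 4)]
      rw [← Real.rpow_add hT4]
      norm_num
    have e3 : (T ^ 4) ^ (-(2 : ℝ) / 25) ≤ R ^ ((8 : ℝ) / 625) := by
      have h1 : (T ^ 4) ^ (-(2 : ℝ) / 25) ≤ (R ^ (-(4 : ℝ) / 25)) ^ (-(2 : ℝ) / 25) :=
        Real.rpow_le_rpow_of_nonpos (Real.rpow_pos_of_pos hR0 _) hT4l (by norm_num)
      rw [← Real.rpow_mul hR0.le] at h1
      refine h1.trans (le_of_eq ?_)
      norm_num
    have e4 : R ^ 4 * R ^ ((23 : ℝ) / 25) * R ^ ((8 : ℝ) / 625) ≤ R ^ ((74 : ℝ) / 15) := by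
      rw [← Real.rpow_natCast, ← Real.rpow_add hR0, ← Real.rpow_add hR0]
      exact hmono _ _ (by norm_num)
    rw [e1, e2, mul_assoc]
    refine mul_le_mul_of_nonneg_left ?_ (by positivity)
    calc R ^ 4 / T ^ 4 * (R ^ ((23 : ℝ) / 25) * (T ^ 4 * (T ^ 4) ^ (-(2 : ℝ) / 25)))
        = R ^ 4 * R ^ ((23 : ℝ) / 25) * (T ^ 4) ^ (-(2 : ℝ) / 25) := by field_simp
      _ ≤ R ^ 4 * R ^ ((23 : ℝ) / 25) * R ^ ((8 : ℝ) / 625) := by gcongr
      _ ≤ _ := e4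
  refine ⟨G.finite_toSet.subset hsub, ?_⟩
  have h8 : (SN K R T V).ncard ≤ G.card := by
    have h9 := Set.ncard_le_ncard hsub G.finite_toSet
    rwa [Set.ncard_coe_finset] at h9
  calc ((SN K R T V).ncard : ℝ) ≤ (G.card : ℝ) := by exact_mod_cast h8
    _ ≤ _ := hGc
    _ ≤ (2 * K + 1) ^ 4 * (R ^ 4 / T ^ 4) * S ^ (1 - (1 : ℝ) / 12 + 1 / 300) :=
      mul_le_mul_of_nonneg_right hFc (by positivity)
    _ ≤ _ := hfin

theorem csq (K : ℝ) (hK : 1 ≤ K) : ∃ C : ℝ, 1 ≤ C ∧ ∀ R T : ℝ, 1 ≤ R →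
    R ^ (-(1 : ℝ) / 25) ≤ T → T ≤ R ^ ((1 : ℝ) / 25) →
    (SQ K R T).Finite ∧ ((SQ K R T).ncard : ℝ) ≤ C * R ^ ((23 : ℝ) / 5) := by
  classical
  refine ⟨(2 * K + 1) ^ 5, one_le_pow₀ (by linarith), ?_⟩
  intro R T hR1 hTl hTu
  have hK0 : 0 < K := by linarith
  have hR0 : 0 < R := by linarith
  have hT0 : 0 < T := lt_of_lt_of_le (Real.rpow_pos_of_pos hR0 _) hTl
  obtain ⟨hT4l, hT4u⟩ := rT hR1 hTl hTu 4
  obtain ⟨hT2l, hT2u⟩ := rT hR1 hTl hTu 2
  push_cast at hT4l hT4u hT2l hT2u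
  have hT4 : 0 < T ^ 4 := by positivity
  have hT2 : 0 < T ^ 2 := by positivity
  have hmono : ∀ s t : ℝ, s ≤ t → R ^ s ≤ R ^ t := fun s t h =>
    Real.rpow_le_rpow_of_exponent_le hR1 h
  have hR2 : 0 < R ^ ((1 : ℝ) / 2) := Real.rpow_pos_of_pos hR0 _
  have hR22 : R ^ ((1 : ℝ) / 2) * R ^ ((1 : ℝ) / 2) = R := by
    rw [← Real.rpow_add hR0]; norm_num
  obtain ⟨F, hFF⟩ : ∃ F : Finset (ℤ × ℤ × ℤ × ℤ × ℤ), F =
      (bx (K * R ^ ((1 : ℝ) / 2) / T ^ 2) ×ˢ bx (K * R / T ^ 2) ×ˢ bx (K * R) ×ˢ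
        bx (K * (R * T ^ 2)) ×ˢ bx (K * (R * T ^ 4))) := ⟨_, rfl⟩
  obtain ⟨G, hG⟩ : ∃ G : Finset (ℤ × ℤ), G =
      F.image (fun x => ab (x.1 ^ 2) x.2.1 x.2.2.1 x.2.2.2.1 x.2.2.2.2) := ⟨_, rfl⟩
  have hsub : SQ K R T ⊆ (G : Set (ℤ × ℤ)) := by
    rintro P ⟨a, b, c, d, e, s, ⟨ha, hb, hc, hd, he⟩, hsq, hk1, hk2⟩
    rw [Finset.mem_coe, hG, Finset.mem_image]
    refine ⟨(s, b, c, d, e), ?_, ?_⟩
    · rw [hFF, Finset.mem_product, Finset.mem_product, Finset.mem_product, Finset.mem_product]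
      refine ⟨?_, ?_, ?_, ?_, ?_⟩
      · refine mem_Icc_of _ _ ?_
        rw [le_div_iff₀ hT2]
        show |(s : ℝ)| * T ^ 2 ≤ K * R ^ ((1 : ℝ) / 2)
        refine abs_le_of_sq_le_sq' ?_ (by positivity) |>.2
        have e1 : |(s : ℝ)| ^ 2 = |(a : ℝ)| := by
          rw [← hsq]; push_cast; rw [abs_pow]
        calc (|(s : ℝ)| * T ^ 2) ^ 2 = |(a : ℝ)| * T ^ 4 := by rw [mul_pow, e1]; ring
          _ ≤ K * R := ha
          _ = K * (R ^ ((1 : ℝ) / 2) * R ^ ((1 : ℝ) / 2)) := by rw [hR22]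
          _ ≤ K ^ 2 * (R ^ ((1 : ℝ) / 2) * R ^ ((1 : ℝ) / 2)) := by
            have : K ≤ K ^ 2 := by nlinarith
            gcongr
          _ = (K * R ^ ((1 : ℝ) / 2)) ^ 2 := by ring
      · refine mem_Icc_of _ _ ?_
        rw [le_div_iff₀ hT2]
        exact hb
      · exact mem_Icc_of _ _ hc
      · exact mem_Icc_of _ _ hd
      · exact mem_Icc_of _ _ he
    · show ab (s ^ 2) b c d e = P
      rw [hsq]
      exact ab_eq hk1 hk2
  have hT2R : T ^ 2 ≤ R := by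
    have := hmono ((2 : ℝ) / 25) 1 (by norm_num)
    rw [Real.rpow_one] at this
    linarith
  have hT2R2 : T ^ 2 ≤ R ^ ((1 : ℝ) / 2) := by
    have := hmono ((2 : ℝ) / 25) ((1 : ℝ) / 2) (by norm_num)
    linarith
  have hT2R' : 1 ≤ R * T ^ 2 := by
    calc (1 : ℝ) ≤ R ^ ((23 : ℝ) / 25) := Real.one_le_rpow hR1 (by norm_num)
      _ = R * R ^ (-(2 : ℝ) / 25) := by rw [mulR hR0]; norm_num
      _ ≤ R * T ^ 2 := by gcongr
  have hT4R' : 1 ≤ R * T ^ 4 := by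
    calc (1 : ℝ) ≤ R ^ ((21 : ℝ) / 25) := Real.one_le_rpow hR1 (by norm_num)
      _ = R * R ^ (-(4 : ℝ) / 25) := by rw [mulR hR0]; norm_num
      _ ≤ R * T ^ 4 := by gcongr
  have hFc : (F.card : ℝ) ≤ (2 * K + 1) ^ 5 * (R ^ ((1 : ℝ) / 2) * R ^ 4 * T ^ 2) := by
    have h1 : F.card = (bx (K * R ^ ((1 : ℝ) / 2) / T ^ 2)).card * ((bx (K * R / T ^ 2)).card *
        ((bx (K * R)).card * ((bx (K * (R * T ^ 2))).card * (bx (K * (R * T ^ 4))).card))) := by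
      rw [hFF, Finset.card_product, Finset.card_product, Finset.card_product,
        Finset.card_product]
    have b1 : ((bx (K * R ^ ((1 : ℝ) / 2) / T ^ 2)).card : ℝ) ≤
        (2 * K + 1) * (R ^ ((1 : ℝ) / 2) / T ^ 2) := by
      apply bx_card (by positivity)
      have : 1 ≤ R ^ ((1 : ℝ) / 2) / T ^ 2 := by rw [le_div_iff₀ hT2]; linarith
      rw [mul_div_assoc]
      linarith
    have b2 : ((bx (K * R / T ^ 2)).card : ℝ) ≤ (2 * K + 1) * (R / T ^ 2) := by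
      apply bx_card (by positivity)
      have : 1 ≤ R / T ^ 2 := by rw [le_div_iff₀ hT2]; linarith
      rw [mul_div_assoc]
      linarith
    have b3 : ((bx (K * R)).card : ℝ) ≤ (2 * K + 1) * R := by
      apply bx_card (by positivity)
      linarith
    have b4 : ((bx (K * (R * T ^ 2))).card : ℝ) ≤ (2 * K + 1) * (R * T ^ 2) := by
      apply bx_card (by positivity)
      linarith
    have b5 : ((bx (K * (R * T ^ 4))).card : ℝ) ≤ (2 * K + 1) * (R * T ^ 4) := by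
      apply bx_card (by positivity)
      linarith
    have h2 : (F.card : ℝ) ≤ ((2 * K + 1) * (R ^ ((1 : ℝ) / 2) / T ^ 2)) *
        (((2 * K + 1) * (R / T ^ 2)) *
        (((2 * K + 1) * R) * (((2 * K + 1) * (R * T ^ 2)) * ((2 * K + 1) * (R * T ^ 4))))) := by
      rw [h1]
      push_cast
      exact mul_le_mul b1 (mul_le_mul b2 (mul_le_mul b3 (mul_le_mul b4 b5 (by positivity)
        (by positivity)) (by positivity) (by positivity))
        (by positivity) (by positivity)) (by positivity) (by positivity)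
    refine h2.trans (le_of_eq ?_)
    field_simp
  refine ⟨G.finite_toSet.subset hsub, ?_⟩
  have h8 : (SQ K R T).ncard ≤ G.card := by
    have h9 := Set.ncard_le_ncard hsub G.finite_toSet
    rwa [Set.ncard_coe_finset] at h9
  have h9 : G.card ≤ F.card := by rw [hG]; exact Finset.card_image_le
  calc ((SQ K R T).ncard : ℝ) ≤ (F.card : ℝ) := by exact_mod_cast h8.trans h9
    _ ≤ _ := hFc
    _ ≤ (2 * K + 1) ^ 5 * (R ^ ((1 : ℝ) / 2) * R ^ 4 * R ^ ((2 : ℝ) / 25)) := by gcongr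
    _ ≤ (2 * K + 1) ^ 5 * R ^ ((23 : ℝ) / 5) := by
      refine mul_le_mul_of_nonneg_left ?_ (by positivity)
      rw [← Real.rpow_natCast, ← Real.rpow_add hR0, ← Real.rpow_add hR0]
      exact hmono _ _ (by norm_num)

theorem clt (K : ℝ) (hK : 1 ≤ K) : ∃ C : ℝ, 1 ≤ C ∧ ∀ R T : ℝ, 1 ≤ R →
    R ^ ((1 : ℝ) / 25) ≤ T →
    (SL K R T).Finite ∧ ((SL K R T).ncard : ℝ) ≤ C * R ^ ((123 : ℝ) / 25) := by
  classical
  refine ⟨2 * (33 * K) ^ 5, by
    have : 1 ≤ (33 * K) ^ 5 := one_le_pow₀ (by linarith)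
    linarith, ?_⟩
  intro R T hR1 hTl
  have hK0 : 0 < K := by linarith
  have hR0 : 0 < R := by linarith
  have hT1 : 1 ≤ T := (Real.one_le_rpow hR1 (by norm_num)).trans hTl
  have hT0 : 0 < T := by linarith
  have hT4 : 0 < T ^ 4 := by positivity
  have hT2 : 0 < T ^ 2 := by positivity
  have hT21 : 1 ≤ T ^ 2 := one_le_pow₀ hT1
  by_cases hTR : T ^ 4 ≤ K * R
  swap
  · have he : SL K R T = ∅ := by
      rw [Set.eq_empty_iff_forall_notMem]
      rintro P ⟨a, b, c, d, e, ⟨ha, -⟩, ha0, -⟩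
      apply hTR
      have h1 : (1 : ℝ) ≤ |(a : ℝ)| := by
        have : (1 : ℤ) ≤ |a| := Int.one_le_abs ha0
        exact_mod_cast this
      nlinarith
    rw [he]
    refine ⟨Set.finite_empty, ?_⟩
    rw [Set.ncard_empty]
    push_cast
    positivity
  -- the box
  obtain ⟨F, hFF⟩ : ∃ F : Finset (ℤ × ℤ × ℤ × ℤ × ℤ), F =
      (bx (16 * K * R / T ^ 4) ×ˢ bx (16 * K * R / T ^ 2) ×ˢ bx (16 * K * R) ×ˢ
        bx (16 * K * (R * T ^ 2)) ×ˢ bx (16 * K * (R * T ^ 4))) := ⟨_, rfl⟩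
  have hmem : ∀ a b c d e : ℤ, |(a : ℝ)| * T ^ 4 ≤ 16 * K * R → |(b : ℝ)| * T ^ 2 ≤ 16 * K * R →
      |(c : ℝ)| ≤ 16 * K * R → |(d : ℝ)| ≤ 16 * K * (R * T ^ 2) →
      |(e : ℝ)| ≤ 16 * K * (R * T ^ 4) → (a, b, c, d, e) ∈ F := by
    intro a b c d e ha hb hc hd he
    rw [hFF, Finset.mem_product, Finset.mem_product, Finset.mem_product, Finset.mem_product]
    refine ⟨?_, ?_, ?_, ?_, ?_⟩
    · refine mem_Icc_of _ _ ?_
      rw [le_div_iff₀ hT4]
      exact ha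
    · refine mem_Icc_of _ _ ?_
      rw [le_div_iff₀ hT2]
      exact hb
    · exact mem_Icc_of _ _ hc
    · exact mem_Icc_of _ _ hd
    · exact mem_Icc_of _ _ he
  have hfinS : (SL K R T).Finite := by
    apply (F.image (fun x => ab x.1 x.2.1 x.2.2.1 x.2.2.2.1 x.2.2.2.2)).finite_toSet.subset
    rintro P ⟨a, b, c, d, e, ⟨ha, hb, hc, hd, he⟩, ha0, hk1, hk2⟩
    rw [Finset.mem_coe, Finset.mem_image]
    have hKR : 0 ≤ K * R := by positivity
    have hKR2 : 0 ≤ K * (R * T ^ 2) := by positivity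
    have hKR4 : 0 ≤ K * (R * T ^ 4) := by positivity
    exact ⟨(a, b, c, d, e), hmem a b c d e (by linarith) (by linarith) (by linarith)
      (by linarith) (by linarith), ab_eq hk1 hk2⟩
  refine ⟨hfinS, ?_⟩
  -- choose forms
  have hch : ∀ P : ℤ × ℤ, ∃ x : ℤ × ℤ × ℤ × ℤ × ℤ, P ∈ SL K R T →
      InBox K R T x.1 x.2.1 x.2.2.1 x.2.2.2.1 x.2.2.2.2 ∧ x.1 ≠ 0 ∧
      invI x.1 x.2.1 x.2.2.1 x.2.2.2.1 x.2.2.2.2 = -4 * P.1 ∧
      invJ x.1 x.2.1 x.2.2.1 x.2.2.2.1 x.2.2.2.2 = -4 * P.2 := by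
    intro P
    by_cases hP : P ∈ SL K R T
    · obtain ⟨a, b, c, d, e, h⟩ := hP
      exact ⟨(a, b, c, d, e), fun _ => h⟩
    · exact ⟨(0, 0, 0, 0, 0), fun h => absurd h hP⟩
  choose φ hφ using hch
  obtain ⟨N, hN⟩ : ∃ N : ℕ, N = ⌊T ^ 2⌋₊ := ⟨_, rfl⟩
  have hN1 : (N : ℝ) ≤ T ^ 2 := by rw [hN]; exact Nat.floor_le hT2.le
  have hN2 : T ^ 2 / 2 ≤ N := by
    have h1 := Nat.lt_floor_add_one (T ^ 2)
    have h2 : 1 ≤ N := by rw [hN]; exact Nat.le_floor (by simpa using hT21)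
    have h3 : (1 : ℝ) ≤ N := by exact_mod_cast h2
    rw [← hN] at h1
    linarith
  let sh : (ℤ × ℤ) × ℕ → ℤ × ℤ × ℤ × ℤ × ℤ := fun Pn =>
    let x := φ Pn.1
    let n : ℤ := Pn.2
    (x.1, x.2.1 + n * x.1, x.2.2.1 + 2 * n * x.2.1 + n ^ 2 * x.1,
      x.2.2.2.1 + 3 * n * x.2.2.1 + 3 * n ^ 2 * x.2.1 + n ^ 3 * x.1,
      x.2.2.2.2 + 4 * n * x.2.2.2.1 + 6 * n ^ 2 * x.2.2.1 + 4 * n ^ 3 * x.2.1 + n ^ 4 * x.1)
  have hcard : (hfinS.toFinset ×ˢ Finset.range N).card ≤ F.card := by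
    apply Finset.card_le_card_of_injOn sh
    · rintro ⟨P, n⟩ hPn
      rw [Finset.mem_coe, Finset.mem_product, Set.Finite.mem_toFinset, Finset.mem_range] at hPn
      obtain ⟨⟨ha, hb, hc, hd, he⟩, ha0, hk1, hk2⟩ := hφ P hPn.1
      obtain ⟨⟨a, b, c, d, e⟩, hx⟩ : ∃ z, z = φ P := ⟨_, rfl⟩
      rw [← hx] at ha hb hc hd he
      dsimp only at ha hb hc hd he
      have hn : ((n : ℤ) : ℝ) ≤ T ^ 2 := by
        have : (n : ℝ) ≤ N := by exact_mod_cast hPn.2.le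
        push_cast
        linarith
      have hn0 : (0 : ℝ) ≤ ((n : ℤ) : ℝ) := by push_cast; exact Nat.cast_nonneg n
      obtain ⟨ν, hν⟩ : ∃ ν : ℝ, ν = ((n : ℤ) : ℝ) := ⟨_, rfl⟩
      rw [← hν] at hn hn0
      have a0 := abs_nonneg (a : ℝ)
      have b0 := abs_nonneg (b : ℝ)
      have c0' := abs_nonneg (c : ℝ)
      have d0' := abs_nonneg (d : ℝ)
      have hKR : 0 ≤ K * R := by positivity
      have hKR2 : 0 ≤ K * (R * T ^ 2) := by positivity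
      have hKR4 : 0 ≤ K * (R * T ^ 4) := by positivity
      have hshow : sh (P, n) = (a, b + n * a, c + 2 * n * b + n ^ 2 * a,
          d + 3 * n * c + 3 * n ^ 2 * b + n ^ 3 * a,
          e + 4 * n * d + 6 * n ^ 2 * c + 4 * n ^ 3 * b + n ^ 4 * a) := by
        simp only [sh, ← hx]
      rw [hshow, Finset.mem_coe]
      apply hmem
      · linarith
      · push_cast
        have hν' : ((n : ℕ) : ℝ) = ν := by rw [hν]; push_cast; rfl
        rw [hν']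
        calc |(b : ℝ) + ν * a| * T ^ 2 ≤ (|(b : ℝ)| + ν * |(a : ℝ)|) * T ^ 2 := by
              gcongr
              refine (abs_add_le _ _).trans ?_
              rw [abs_mul, abs_of_nonneg hn0]
          _ ≤ (|(b : ℝ)| + T ^ 2 * |(a : ℝ)|) * T ^ 2 := by gcongr
          _ = |(b : ℝ)| * T ^ 2 + |(a : ℝ)| * T ^ 4 := by ring
          _ ≤ 16 * K * R := by linarith
      · push_cast
        have hν' : ((n : ℕ) : ℝ) = ν := by rw [hν]; push_cast; rfl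
        rw [hν']
        calc |(c : ℝ) + 2 * ν * b + ν ^ 2 * a| ≤ |(c : ℝ)| + 2 * ν * |(b : ℝ)| +
              ν ^ 2 * |(a : ℝ)| := by
              refine (abs3 _ _ _).trans ?_
              rw [abs_mul, abs_mul, abs_mul, abs_pow, abs_of_nonneg hn0,
                abs_of_pos (by norm_num : (0 : ℝ) < 2)]
          _ ≤ |(c : ℝ)| + 2 * T ^ 2 * |(b : ℝ)| + (T ^ 2) ^ 2 * |(a : ℝ)| := by gcongr
          _ = |(c : ℝ)| + 2 * (|(b : ℝ)| * T ^ 2) + |(a : ℝ)| * T ^ 4 := by ring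
          _ ≤ 16 * K * R := by linarith
      · push_cast
        have hν' : ((n : ℕ) : ℝ) = ν := by rw [hν]; push_cast; rfl
        rw [hν']
        calc |(d : ℝ) + 3 * ν * c + 3 * ν ^ 2 * b + ν ^ 3 * a| ≤
              |(d : ℝ)| + 3 * ν * |(c : ℝ)| + 3 * ν ^ 2 * |(b : ℝ)| + ν ^ 3 * |(a : ℝ)| := by
              refine (abs_add_le _ _).trans ?_
              refine (add_le_add_left (abs3 _ _ _) _).trans ?_
              rw [abs_mul, abs_mul, abs_mul, abs_mul, abs_mul, abs_pow, abs_pow,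
                abs_of_nonneg hn0, abs_of_pos (by norm_num : (0 : ℝ) < 3)]
          _ ≤ |(d : ℝ)| + 3 * T ^ 2 * |(c : ℝ)| + 3 * (T ^ 2) ^ 2 * |(b : ℝ)| +
              (T ^ 2) ^ 3 * |(a : ℝ)| := by gcongr
          _ = |(d : ℝ)| + (3 * |(c : ℝ)| + 3 * (|(b : ℝ)| * T ^ 2) + |(a : ℝ)| * T ^ 4) *
              T ^ 2 := by ring
          _ ≤ K * (R * T ^ 2) + (3 * (K * R) + 3 * (K * R) + K * R) * T ^ 2 := by gcongr
          _ = 8 * (K * (R * T ^ 2)) := by ring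
          _ ≤ 16 * K * (R * T ^ 2) := by linarith
      · push_cast
        have hν' : ((n : ℕ) : ℝ) = ν := by rw [hν]; push_cast; rfl
        rw [hν']
        calc |(e : ℝ) + 4 * ν * d + 6 * ν ^ 2 * c + 4 * ν ^ 3 * b + ν ^ 4 * a| ≤
              |(e : ℝ)| + 4 * ν * |(d : ℝ)| + 6 * ν ^ 2 * |(c : ℝ)| + 4 * ν ^ 3 * |(b : ℝ)| +
                ν ^ 4 * |(a : ℝ)| := by
              refine (abs_add_le _ _).trans ?_
              refine (add_le_add_left (abs_add_le _ _) _).trans ?_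
              refine (add_le_add_left (add_le_add_left (abs3 _ _ _) _) _).trans ?_
              rw [abs_mul, abs_mul, abs_mul, abs_mul, abs_mul, abs_mul, abs_mul, abs_pow, abs_pow,
                abs_pow, abs_of_nonneg hn0, abs_of_pos (by norm_num : (0 : ℝ) < 4),
                abs_of_pos (by norm_num : (0 : ℝ) < 6)]
          _ ≤ |(e : ℝ)| + 4 * T ^ 2 * |(d : ℝ)| + 6 * (T ^ 2) ^ 2 * |(c : ℝ)| +
              4 * (T ^ 2) ^ 3 * |(b : ℝ)| + (T ^ 2) ^ 4 * |(a : ℝ)| := by gcongr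
          _ = |(e : ℝ)| + 4 * T ^ 2 * |(d : ℝ)| + (6 * |(c : ℝ)| +
              4 * (|(b : ℝ)| * T ^ 2) + |(a : ℝ)| * T ^ 4) * T ^ 4 := by ring
          _ ≤ K * (R * T ^ 4) + 4 * T ^ 2 * (K * (R * T ^ 2)) + (6 * (K * R) + 4 * (K * R) +
              K * R) * T ^ 4 := by gcongr
          _ = 16 * (K * (R * T ^ 4)) := by ring
          _ = 16 * K * (R * T ^ 4) := by ring
    · rintro ⟨P, n⟩ hPn ⟨P', n'⟩ hPn' h
      rw [Finset.mem_coe, Finset.mem_product, Set.Finite.mem_toFinset, Finset.mem_range] at hPn hPn'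
      obtain ⟨-, ha0, hk1, hk2⟩ := hφ P hPn.1
      obtain ⟨-, ha0', hk1', hk2'⟩ := hφ P' hPn'.1
      have key : ∀ (P : ℤ × ℤ) (n : ℕ), invI (φ P).1 (φ P).2.1 (φ P).2.2.1 (φ P).2.2.2.1
          (φ P).2.2.2.2 = -4 * P.1 → invJ (φ P).1 (φ P).2.1 (φ P).2.2.1 (φ P).2.2.2.1
          (φ P).2.2.2.2 = -4 * P.2 → ab (sh (P, n)).1 (sh (P, n)).2.1 (sh (P, n)).2.2.1
          (sh (P, n)).2.2.2.1 (sh (P, n)).2.2.2.2 = P := by
        intro P n h1 h2
        apply ab_eq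
        · rw [← h1]
          exact invI_shift _ _ _ _ _ _
        · rw [← h2]
          exact invJ_shift _ _ _ _ _ _
      have hPP : P = P' := by
        rw [← key P n hk1 hk2, h, key P' n' hk1' hk2']
      subst hPP
      have h2 : (φ P).2.1 + (n : ℤ) * (φ P).1 = (φ P).2.1 + (n' : ℤ) * (φ P).1 :=
        congrArg (fun x : ℤ × ℤ × ℤ × ℤ × ℤ => x.2.1) h
      have h3 : (n : ℤ) = n' := by
        have h4 : (n : ℤ) * (φ P).1 = n' * (φ P).1 := by linarith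
        exact mul_right_cancel₀ ha0 h4
      have h4 : n = n' := by exact_mod_cast h3
      rw [h4]
  rw [Finset.card_product, Finset.card_range] at hcard
  have hcardR : ((SL K R T).ncard : ℝ) * N ≤ F.card := by
    rw [Set.ncard_eq_toFinset_card _ hfinS]
    exact_mod_cast hcard
  have hT2R : T ^ 2 ≤ K * R := by
    refine le_trans ?_ hTR
    exact pow_le_pow_right₀ hT1 (by norm_num)
  have hFc : (F.card : ℝ) ≤ (33 * K) ^ 5 * R ^ 5 := by
    have h1 : F.card = (bx (16 * K * R / T ^ 4)).card * ((bx (16 * K * R / T ^ 2)).card *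
        ((bx (16 * K * R)).card * ((bx (16 * K * (R * T ^ 2))).card *
          (bx (16 * K * (R * T ^ 4))).card))) := by
      rw [hFF, Finset.card_product, Finset.card_product, Finset.card_product,
        Finset.card_product]
    have b1 : ((bx (16 * K * R / T ^ 4)).card : ℝ) ≤ (33 * K) * (R / T ^ 4) := by
      apply bx_card (by positivity)
      have : 1 ≤ K * (R / T ^ 4) := by rw [← mul_div_assoc, le_div_iff₀ hT4]; linarith
      rw [mul_div_assoc]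
      linarith
    have b2 : ((bx (16 * K * R / T ^ 2)).card : ℝ) ≤ (33 * K) * (R / T ^ 2) := by
      apply bx_card (by positivity)
      have : 1 ≤ K * (R / T ^ 2) := by rw [← mul_div_assoc, le_div_iff₀ hT2]; linarith
      rw [mul_div_assoc]
      linarith
    have hKR1 : 1 ≤ K * R := one_le_mul_of_one_le_of_one_le hK hR1
    have b3 : ((bx (16 * K * R)).card : ℝ) ≤ (33 * K) * R := by
      apply bx_card (by positivity)
      linarith
    have b4 : ((bx (16 * K * (R * T ^ 2))).card : ℝ) ≤ (33 * K) * (R * T ^ 2) := by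
      apply bx_card (by positivity)
      have : 1 ≤ K * R * T ^ 2 := one_le_mul_of_one_le_of_one_le hKR1 hT21
      linarith
    have b5 : ((bx (16 * K * (R * T ^ 4))).card : ℝ) ≤ (33 * K) * (R * T ^ 4) := by
      apply bx_card (by positivity)
      have : 1 ≤ K * R * T ^ 4 := one_le_mul_of_one_le_of_one_le hKR1 (one_le_pow₀ hT1)
      linarith
    have h2 : (F.card : ℝ) ≤ ((33 * K) * (R / T ^ 4)) * (((33 * K) * (R / T ^ 2)) *
        (((33 * K) * R) * (((33 * K) * (R * T ^ 2)) * ((33 * K) * (R * T ^ 4))))) := by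
      rw [h1]
      push_cast
      exact mul_le_mul b1 (mul_le_mul b2 (mul_le_mul b3 (mul_le_mul b4 b5 (by positivity)
        (by positivity)) (by positivity) (by positivity))
        (by positivity) (by positivity)) (by positivity) (by positivity)
    refine h2.trans (le_of_eq ?_)
    field_simp
  have h1 : ((SL K R T).ncard : ℝ) * (R ^ ((2 : ℝ) / 25) / 2) ≤ (33 * K) ^ 5 * R ^ 5 := by
    have h2 : R ^ ((2 : ℝ) / 25) ≤ T ^ 2 := by
      have h3 := pow_le_pow_left₀ (Real.rpow_pos_of_pos hR0 _).le hTl 2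
      rw [← Real.rpow_natCast, ← Real.rpow_mul hR0.le] at h3
      refine le_trans (le_of_eq ?_) h3
      norm_num
    calc ((SL K R T).ncard : ℝ) * (R ^ ((2 : ℝ) / 25) / 2) ≤ ((SL K R T).ncard : ℝ) * N := by
          gcongr
          linarith
      _ ≤ F.card := hcardR
      _ ≤ _ := hFc
  have h2 : R ^ 5 = R ^ ((123 : ℝ) / 25) * R ^ ((2 : ℝ) / 25) := by
    rw [← Real.rpow_add hR0, ← Real.rpow_natCast]
    norm_num
  have h3 : 0 < R ^ ((2 : ℝ) / 25) := Real.rpow_pos_of_pos hR0 _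
  rw [h2] at h1
  have h4 : ((SL K R T).ncard : ℝ) * R ^ ((2 : ℝ) / 25) ≤
      (2 * (33 * K) ^ 5 * R ^ ((123 : ℝ) / 25)) * R ^ ((2 : ℝ) / 25) := by linarith
  exact le_of_mul_le_mul_right h4 h3

end

end Pool.Agent.R418.HL
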