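import Mathlib
import Pool.Agent.R418.HL.C1

/-! Quartic version: the curves with a small point, or with a point which is twice an integral
point. -/

set_option autoImplicit false

namespace Pool.Agent.R418.HL

noncomputable section

open Pool.Agent.W654.HZ.CLT (card_Icc_le mem_Icc_of)

/-- the curves from halves -/
def SH (R : ℝ) : Set (ℤ × ℤ) := {P | |(P.1 : ℝ)| ≤ R ^ 2 ∧ ∃ r w : ℤ,
  P.2 = w ^ 2 - r * P.1 - r ^ 3 ∧ |(r : ℝ)| ≤ 3 * R ∧ |(w : ℝ)| ≤ 28 * R ^ ((7 : ℝ) / 10)}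

theorem sh_card (R : ℝ) (hR : 1 ≤ R) : (SH R).Finite ∧
    ((SH R).ncard : ℝ) ≤ 1197 * R ^ ((37 : ℝ) / 10) := by
  classical
  have hR0 : 0 < R := by linarith
  have hR7 : 1 ≤ R ^ ((7 : ℝ) / 10) := Real.one_le_rpow hR (by norm_num)
  have hR2 : 1 ≤ R ^ 2 := one_le_pow₀ hR
  obtain ⟨F, hF⟩ : ∃ F : Finset (ℤ × ℤ × ℤ), F =
      bx (R ^ 2) ×ˢ bx (3 * R) ×ˢ bx (28 * R ^ ((7 : ℝ) / 10)) := ⟨_, rfl⟩
  have hsub : SH R ⊆ ((F.image (fun x : ℤ × ℤ × ℤ =>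
      ((x.1, x.2.2 ^ 2 - x.2.1 * x.1 - x.2.1 ^ 3) : ℤ × ℤ)) : Finset (ℤ × ℤ)) : Set (ℤ × ℤ)) := by
    rintro P ⟨hA, r, w, hB, hr, hw⟩
    rw [Finset.mem_coe, Finset.mem_image]
    refine ⟨(P.1, r, w), ?_, ?_⟩
    · rw [hF, Finset.mem_product, Finset.mem_product]
      exact ⟨mem_Icc_of _ _ hA, mem_Icc_of _ _ hr, mem_Icc_of _ _ hw⟩
    · ext
      · rfl
      · exact hB.symm
  refine ⟨(Finset.finite_toSet _).subset hsub, ?_⟩
  have h1 : (SH R).ncard ≤ F.card := by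
    refine (Set.ncard_le_ncard hsub (Finset.finite_toSet _)).trans ?_
    rw [Set.ncard_coe_finset]
    exact Finset.card_image_le
  have b1 : ((bx (R ^ 2)).card : ℝ) ≤ 3 * R ^ 2 := bx_card (by positivity) (by linarith)
  have b2 : ((bx (3 * R)).card : ℝ) ≤ 7 * R := bx_card (by positivity) (by linarith)
  have b3 : ((bx (28 * R ^ ((7 : ℝ) / 10))).card : ℝ) ≤ 57 * R ^ ((7 : ℝ) / 10) :=
    bx_card (by positivity) (by linarith)
  calc ((SH R).ncard : ℝ) ≤ F.card := by exact_mod_cast h1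
    _ = (bx (R ^ 2)).card * ((bx (3 * R)).card * (bx (28 * R ^ ((7 : ℝ) / 10))).card) := by
      rw [hF, Finset.card_product, Finset.card_product]
      push_cast
      rfl
    _ ≤ (3 * R ^ 2) * ((7 * R) * (57 * R ^ ((7 : ℝ) / 10))) := by gcongr
    _ = 1197 * (R ^ 2 * R * R ^ ((7 : ℝ) / 10)) := by ring
    _ = 1197 * R ^ ((37 : ℝ) / 10) := by
      congr 1
      have e1 : R ^ 2 * R = R ^ ((3 : ℝ)) := by
        rw [← pow_succ, ← Real.rpow_natCast]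
        norm_num
      rw [e1, ← Real.rpow_add hR0]
      norm_num

/-- the curves with a point of middle size -/
def SM (R s t : ℝ) : Set (ℤ × ℤ) := {P | |(P.1 : ℝ)| ≤ R ^ 2 ∧ |(P.2 : ℝ)| ≤ R ^ 3 ∧
  ∃ x y : ℤ, y ^ 2 = x ^ 3 + P.1 * x + P.2 ∧ R ^ s ≤ (x : ℝ) ∧ (x : ℝ) ≤ R ^ t}

theorem sm_card (R s t : ℝ) (hR : 2 ^ 50 ≤ R) (hs : 11 / 10 ≤ s) (ht : 0 ≤ t)
    (h1 : t + 2 + (3 - 3 / 2 * s) ≤ 49 / 10) (h2 : t + 2 ≤ 49 / 10) : (SM R s t).Finite ∧
    ((SM R s t).ncard : ℝ) ≤ 81 * R ^ ((49 : ℝ) / 10) := by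
  classical
  have hR1 : 1 ≤ R := le_trans (by norm_num) hR
  have hR0 : 0 < R := by linarith
  have hR2 : 1 ≤ R ^ 2 := one_le_pow₀ hR1
  have hRt : 1 ≤ R ^ t := Real.one_le_rpow hR1 ht
  have hRs : 2 * R ≤ R ^ s := by
    have h3 : (2 : ℝ) ≤ R ^ ((1 : ℝ) / 10) := by
      have h4 : ((2 : ℝ) ^ 50) ^ ((1 : ℝ) / 10) ≤ R ^ ((1 : ℝ) / 10) :=
        Real.rpow_le_rpow (by positivity) hR (by norm_num)
      have h5 : ((2 : ℝ) ^ 50) ^ ((1 : ℝ) / 10) = 32 := by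
        rw [← Real.rpow_natCast, ← Real.rpow_mul (by norm_num)]
        norm_num
      linarith
    calc 2 * R ≤ R ^ ((1 : ℝ) / 10) * R := by gcongr
      _ = R ^ ((11 : ℝ) / 10) := by
        rw [mul_comm, mulR hR0]; norm_num
      _ ≤ R ^ s := Real.rpow_le_rpow_of_exponent_le hR1 hs
  obtain ⟨δ, hδ⟩ : ∃ δ : ℝ, δ = 2 * R ^ (3 - 3 / 2 * s) + 1 := ⟨_, rfl⟩
  have hδ0 : 0 < δ := by rw [hδ]; positivity
  obtain ⟨F, hF⟩ : ∃ F : Finset (ℤ × ℤ × ℤ), F = bx (R ^ 2) ×ˢ bx (R ^ t) ×ˢ bx δ := ⟨_, rfl⟩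
  obtain ⟨y₀, hy₀⟩ : ∃ y₀ : ℤ → ℤ → ℤ, ∀ A x, y₀ A x = ⌊√((x : ℝ) ^ 3 + A * x)⌋ := ⟨_, fun _ _ => rfl⟩
  have hsub : SM R s t ⊆ ((F.image (fun z : ℤ × ℤ × ℤ =>
      ((z.1, (y₀ z.1 z.2.1 + z.2.2) ^ 2 - z.2.1 ^ 3 - z.1 * z.2.1) : ℤ × ℤ)) :
        Finset (ℤ × ℤ)) : Set (ℤ × ℤ)) := by
    rintro ⟨A, B⟩ ⟨hA, hB, x, y, hxy, hx1, hx2⟩
    dsimp only at hA hB hxy
    rw [Finset.mem_coe, Finset.mem_image]
    refine ⟨(A, x, |y| - y₀ A x), ?_, ?_⟩
    · have hx2R : 2 * R ≤ x := hRs.trans hx1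
      have hx0 : (0 : ℝ) < x := by linarith
      rw [hF, Finset.mem_product, Finset.mem_product]
      refine ⟨mem_Icc_of _ _ hA, mem_Icc_of _ _ ?_, mem_Icc_of _ _ ?_⟩
      · show |(x : ℝ)| ≤ _
        rw [abs_of_pos hx0]; exact hx2
      · show |((|y| - y₀ A x : ℤ) : ℝ)| ≤ δ
        obtain ⟨c, hc⟩ : ∃ c : ℝ, c = (x : ℝ) ^ 3 + A * x := ⟨_, rfl⟩
        have hcl : 3 / 4 * (x : ℝ) ^ 3 ≤ c := by
          have h3 : |(A : ℝ) * x| ≤ 1 / 4 * (x : ℝ) ^ 3 := by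
            rw [abs_mul, abs_of_pos hx0]
            have h4 : (2 * R) ^ 2 ≤ (x : ℝ) ^ 2 := pow_le_pow_left₀ (by positivity) hx2R 2
            have h5 : |(A : ℝ)| ≤ 1 / 4 * (x : ℝ) ^ 2 := by linarith
            calc |(A : ℝ)| * x ≤ 1 / 4 * (x : ℝ) ^ 2 * x := by gcongr
              _ = _ := by ring
          have := neg_abs_le ((A : ℝ) * x)
          rw [hc]
          linarith
        have hc0 : 0 < c := lt_of_lt_of_le (by positivity) hcl
        have hyc : ((|y| : ℤ) : ℝ) ^ 2 = c + B := by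
          have h3 : (y : ℝ) ^ 2 = (x : ℝ) ^ 3 + A * x + B := by exact_mod_cast hxy
          push_cast
          rw [sq_abs, h3, hc]
        have hsq : √c ^ 2 = c := Real.sq_sqrt hc0.le
        have hsl : R ^ (3 / 2 * s) / 2 ≤ √c := by
          apply Real.le_sqrt_of_sq_le
          refine le_trans ?_ hcl
          have h3 : (R ^ (3 / 2 * s)) ^ 2 ≤ (x : ℝ) ^ 3 := by
            have h4 : (R ^ s) ^ 3 ≤ (x : ℝ) ^ 3 := pow_le_pow_left₀ (by positivity) hx1 3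
            refine le_trans (le_of_eq ?_) h4
            rw [← Real.rpow_natCast, ← Real.rpow_mul hR0.le, ← Real.rpow_natCast (R ^ s),
              ← Real.rpow_mul hR0.le]
            congr 1
            push_cast
            ring
          have h5 : 0 < (x : ℝ) ^ 3 := by positivity
          calc (R ^ (3 / 2 * s) / 2) ^ 2 = (R ^ (3 / 2 * s)) ^ 2 / 4 := by ring
            _ ≤ 3 / 4 * (x : ℝ) ^ 3 := by linarith
        have hyn : (0 : ℝ) ≤ ((|y| : ℤ) : ℝ) := by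
          push_cast
          positivity
        have h3 : |((|y| : ℤ) : ℝ) - √c| ≤ 2 * R ^ (3 - 3 / 2 * s) := by
          have h4 : |((|y| : ℤ) : ℝ) - √c| * (R ^ (3 / 2 * s) / 2) ≤ R ^ 3 := by
            calc |((|y| : ℤ) : ℝ) - √c| * (R ^ (3 / 2 * s) / 2)
                ≤ |((|y| : ℤ) : ℝ) - √c| * (((|y| : ℤ) : ℝ) + √c) := by
                  gcongr
                  linarith
              _ = |(((|y| : ℤ) : ℝ) - √c) * (((|y| : ℤ) : ℝ) + √c)| := by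
                rw [abs_mul, abs_of_nonneg (by positivity : 0 ≤ ((|y| : ℤ) : ℝ) + √c)]
              _ = |(B : ℝ)| := by
                congr 1
                have : (((|y| : ℤ) : ℝ) - √c) * (((|y| : ℤ) : ℝ) + √c) =
                  ((|y| : ℤ) : ℝ) ^ 2 - √c ^ 2 := by ring
                rw [this, hyc, hsq]
                ring
              _ ≤ R ^ 3 := hB
          have h5 : R ^ 3 = 2 * R ^ (3 - 3 / 2 * s) * (R ^ (3 / 2 * s) / 2) := by
            have h6 : R ^ (3 - 3 / 2 * s) * R ^ (3 / 2 * s) = R ^ 3 := by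
              rw [← Real.rpow_add hR0, ← Real.rpow_natCast]
              congr 1
              push_cast
              ring
            rw [← h6]
            ring
          rw [h5] at h4
          exact le_of_mul_le_mul_right h4 (by positivity)
        have h4 : |√c - (y₀ A x : ℝ)| ≤ 1 := by
          rw [hy₀, ← hc, abs_le]
          have h5 := Int.floor_le (√c)
          have h6 := Int.lt_floor_add_one (√c)
          constructor <;> linarith
        rw [Int.cast_sub, hδ]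
        calc |((|y| : ℤ) : ℝ) - (y₀ A x : ℝ)| = |(((|y| : ℤ) : ℝ) - √c) + (√c - (y₀ A x : ℝ))| := by
              congr 1; ring
          _ ≤ |((|y| : ℤ) : ℝ) - √c| + |√c - (y₀ A x : ℝ)| := abs_add_le _ _
          _ ≤ _ := by linarith
    · ext
      · rfl
      · show (y₀ A x + (|y| - y₀ A x)) ^ 2 - x ^ 3 - A * x = B
        have : y₀ A x + (|y| - y₀ A x) = |y| := by ring
        rw [this, sq_abs, hxy]
        ring
  refine ⟨(Finset.finite_toSet _).subset hsub, ?_⟩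
  have h3 : (SM R s t).ncard ≤ F.card := by
    refine (Set.ncard_le_ncard hsub (Finset.finite_toSet _)).trans ?_
    rw [Set.ncard_coe_finset]
    exact Finset.card_image_le
  have hpos : 0 < R ^ (3 - 3 / 2 * s) := by positivity
  have b1 : ((bx (R ^ 2)).card : ℝ) ≤ 3 * R ^ 2 := bx_card (by positivity) (by linarith)
  have b2 : ((bx (R ^ t)).card : ℝ) ≤ 3 * R ^ t := bx_card (by positivity) (by linarith)
  have b3 : ((bx δ).card : ℝ) ≤ 4 * R ^ (3 - 3 / 2 * s) + 3 :=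
    bx_card hδ0.le (by rw [hδ]; linarith)
  have e1 : R ^ 2 * R ^ t * R ^ (3 - 3 / 2 * s) ≤ R ^ ((49 : ℝ) / 10) := by
    rw [← Real.rpow_natCast, ← Real.rpow_add hR0, ← Real.rpow_add hR0]
    apply Real.rpow_le_rpow_of_exponent_le hR1
    push_cast
    linarith
  have e2 : R ^ 2 * R ^ t ≤ R ^ ((49 : ℝ) / 10) := by
    rw [← Real.rpow_natCast, ← Real.rpow_add hR0]
    apply Real.rpow_le_rpow_of_exponent_le hR1
    push_cast
    linarith
  calc ((SM R s t).ncard : ℝ) ≤ F.card := by exact_mod_cast h3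
    _ = (bx (R ^ 2)).card * ((bx (R ^ t)).card * (bx δ).card) := by
      rw [hF, Finset.card_product, Finset.card_product]
      push_cast
      rfl
    _ ≤ (3 * R ^ 2) * ((3 * R ^ t) * (4 * R ^ (3 - 3 / 2 * s) + 3)) := by gcongr
    _ = 36 * (R ^ 2 * R ^ t * R ^ (3 - 3 / 2 * s)) + 27 * (R ^ 2 * R ^ t) := by ring
    _ ≤ 81 * R ^ ((49 : ℝ) / 10) := by
      have : 0 < R ^ ((49 : ℝ) / 10) := by positivity
      linarith

/-- the curves with a small point -/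
def SS (R : ℝ) : Set (ℤ × ℤ) := {P | |(P.1 : ℝ)| ≤ R ^ 2 ∧ |(P.2 : ℝ)| ≤ R ^ 3 ∧
  ∃ x y : ℤ, y ^ 2 = x ^ 3 + P.1 * x + P.2 ∧ (x : ℝ) ≤ R ^ ((11 : ℝ) / 10)}

theorem ss_card (R : ℝ) (hR : 2 ^ 50 ≤ R) : (SS R).Finite ∧
    ((SS R).ncard : ℝ) ≤ 45 * R ^ ((49 : ℝ) / 10) := by
  classical
  have hR1 : 1 ≤ R := le_trans (by norm_num) hR
  have hR0 : 0 < R := by linarith
  have hR2 : 1 ≤ R ^ 2 := one_le_pow₀ hR1
  have hRs : 2 * R ≤ R ^ ((11 : ℝ) / 10) := by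
    have h3 : (2 : ℝ) ≤ R ^ ((1 : ℝ) / 10) := by
      have h4 : ((2 : ℝ) ^ 50) ^ ((1 : ℝ) / 10) ≤ R ^ ((1 : ℝ) / 10) :=
        Real.rpow_le_rpow (by positivity) hR (by norm_num)
      have h5 : ((2 : ℝ) ^ 50) ^ ((1 : ℝ) / 10) = 32 := by
        rw [← Real.rpow_natCast, ← Real.rpow_mul (by norm_num)]
        norm_num
      linarith
    calc 2 * R ≤ R ^ ((1 : ℝ) / 10) * R := by gcongr
      _ = R ^ ((11 : ℝ) / 10) := by
        rw [mul_comm, mulR hR0]; norm_num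
  obtain ⟨X, hX⟩ : ∃ X : ℝ, X = R ^ ((11 : ℝ) / 10) := ⟨_, rfl⟩
  rw [← hX] at hRs
  have hX1 : 1 ≤ X := by linarith
  obtain ⟨Y, hY⟩ : ∃ Y : ℝ, Y = R ^ ((33 : ℝ) / 20) := ⟨_, rfl⟩
  have hY2 : Y ^ 2 = X ^ 3 := by
    rw [hX, hY, ← Real.rpow_natCast, ← Real.rpow_natCast, ← Real.rpow_mul hR0.le,
      ← Real.rpow_mul hR0.le]
    norm_num
  have hY1 : 1 ≤ Y := by rw [hY]; exact Real.one_le_rpow hR1 (by norm_num)
  obtain ⟨F, hF⟩ : ∃ F : Finset (ℤ × ℤ × ℤ), F = bx (R ^ 2) ×ˢ bx X ×ˢ bx (2 * Y) := ⟨_, rfl⟩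
  have hsub : SS R ⊆ ((F.image (fun z : ℤ × ℤ × ℤ =>
      ((z.1, z.2.2 ^ 2 - z.2.1 ^ 3 - z.1 * z.2.1) : ℤ × ℤ)) :
        Finset (ℤ × ℤ)) : Set (ℤ × ℤ)) := by
    rintro ⟨A, B⟩ ⟨hA, hB, x, y, hxy, hx⟩
    dsimp only at hA hB hxy
    rw [← hX] at hx
    rw [Finset.mem_coe, Finset.mem_image]
    have hxyr : (y : ℝ) ^ 2 = (x : ℝ) ^ 3 + A * x + B := by exact_mod_cast hxy
    have hxabs : |(x : ℝ)| ≤ X := by
      rw [abs_le]
      refine ⟨?_, hx⟩
      by_contra hcon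
      push Not at hcon
      have h3 : 2 * R < -(x : ℝ) := by linarith
      obtain ⟨z, hz⟩ : ∃ z : ℝ, z = -(x : ℝ) := ⟨_, rfl⟩
      rw [← hz] at h3
      have hz0 : 0 < z := by linarith
      have h4 : (y : ℝ) ^ 2 = -z ^ 3 - A * z + B := by rw [hxyr, hz]; ring
      have h5 : -(A : ℝ) * z ≤ R ^ 2 * z := by
        have := neg_abs_le (A : ℝ)
        have h6 : -(A : ℝ) ≤ R ^ 2 := by linarith
        gcongr
      have h6 : (B : ℝ) ≤ R ^ 3 := (le_abs_self _).trans hB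
      have h7 : (2 * R) ^ 2 ≤ z ^ 2 := pow_le_pow_left₀ (by positivity) h3.le 2
      have h8 : (2 * R) ^ 3 ≤ z ^ 3 := pow_le_pow_left₀ (by positivity) h3.le 3
      have h9 : R ^ 2 * z ≤ 1 / 4 * z ^ 3 := by
        have : R ^ 2 ≤ 1 / 4 * z ^ 2 := by linarith
        calc R ^ 2 * z ≤ 1 / 4 * z ^ 2 * z := by gcongr
          _ = _ := by ring
      have h10 : 0 < z ^ 3 := by positivity
      have h11 : 0 ≤ (y : ℝ) ^ 2 := sq_nonneg _
      nlinarith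
    refine ⟨(A, x, y), ?_, ?_⟩
    · rw [hF, Finset.mem_product, Finset.mem_product]
      refine ⟨mem_Icc_of _ _ hA, mem_Icc_of _ _ hxabs, mem_Icc_of _ _ ?_⟩
      show |(y : ℝ)| ≤ 2 * Y
      refine abs_le_of_sq_le_sq' ?_ (by positivity) |>.2
      rw [sq_abs, hxyr]
      have h3 : (x : ℝ) ^ 3 ≤ X ^ 3 := by
        have h4 : |(x : ℝ)| ^ 3 ≤ X ^ 3 := pow_le_pow_left₀ (abs_nonneg _) hxabs 3
        rw [← abs_pow] at h4
        exact (le_abs_self _).trans h4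
      have h4 : (A : ℝ) * x ≤ R ^ 2 * X := by
        refine (le_abs_self _).trans ?_
        rw [abs_mul]
        gcongr
      have h5 : (B : ℝ) ≤ R ^ 3 := (le_abs_self _).trans hB
      have h6 : R ≤ X := by linarith
      have h7 : R ^ 2 * X ≤ X ^ 2 * X := by gcongr
      have h8 : R ^ 3 ≤ X ^ 3 := pow_le_pow_left₀ hR0.le h6 3
      have h9 : (2 * Y) ^ 2 = 4 * X ^ 3 := by rw [mul_pow, hY2]; norm_num
      have h10 : X ^ 2 * X = X ^ 3 := by ring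
      have h11 : 0 < X ^ 3 := by positivity
      rw [h9]
      linarith
    · ext
      · rfl
      · show y ^ 2 - x ^ 3 - A * x = B
        linarith
  refine ⟨(Finset.finite_toSet _).subset hsub, ?_⟩
  have h3 : (SS R).ncard ≤ F.card := by
    refine (Set.ncard_le_ncard hsub (Finset.finite_toSet _)).trans ?_
    rw [Set.ncard_coe_finset]
    exact Finset.card_image_le
  have b1 : ((bx (R ^ 2)).card : ℝ) ≤ 3 * R ^ 2 := bx_card (by positivity) (by linarith)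
  have b2 : ((bx X).card : ℝ) ≤ 3 * X := bx_card (by positivity) (by linarith)
  have b3 : ((bx (2 * Y)).card : ℝ) ≤ 5 * Y := bx_card (by positivity) (by linarith)
  have e1 : R ^ 2 * X * Y ≤ R ^ ((49 : ℝ) / 10) := by
    rw [hX, hY, ← Real.rpow_natCast, ← Real.rpow_add hR0, ← Real.rpow_add hR0]
    apply Real.rpow_le_rpow_of_exponent_le hR1
    norm_num
  calc ((SS R).ncard : ℝ) ≤ F.card := by exact_mod_cast h3
    _ = (bx (R ^ 2)).card * ((bx X).card * (bx (2 * Y)).card) := by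
      rw [hF, Finset.card_product, Finset.card_product]
      push_cast
      rfl
    _ ≤ (3 * R ^ 2) * ((3 * X) * (5 * Y)) := by gcongr
    _ = 45 * (R ^ 2 * X * Y) := by ring
    _ ≤ 45 * R ^ ((49 : ℝ) / 10) := by gcongr

end

end Pool.Agent.R418.HL
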