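import Mathlib
import Pool.Agent.R418.HL.G1
import Pool.Agent.R418.HL.P3

/-! Quartic version: from a basis to a good form. -/

set_option autoImplicit false

namespace Pool.Agent.R418.HL

noncomputable section

/-- the polar form of `p4 X⁴ + 4 p3 X³ Y + 4 p1 X Y³ + p0 Y⁴` -/
def Pol (p4 p3 p1 p0 X1 Y1 X2 Y2 X3 Y3 X4 Y4 : ℝ) : ℝ :=
  p4 * (X1 * X2 * X3 * X4) + p3 * (X1 * X2 * X3 * Y4 + X1 * X2 * Y3 * X4 + X1 * Y2 * X3 * X4 +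
    Y1 * X2 * X3 * X4) + p1 * (X1 * Y2 * Y3 * Y4 + Y1 * X2 * Y3 * Y4 + Y1 * Y2 * X3 * Y4 +
    Y1 * Y2 * Y3 * X4) + p0 * (Y1 * Y2 * Y3 * Y4)

lemma prod4_le {a b c d n1 n2 n3 n4 : ℝ} (h1 : |a| ≤ n1) (h2 : |b| ≤ n2) (h3 : |c| ≤ n3)
    (h4 : |d| ≤ n4) : |a * b * c * d| ≤ n1 * n2 * n3 * n4 := by
  have k1 : 0 ≤ n1 := (abs_nonneg _).trans h1
  have k2 : 0 ≤ n2 := (abs_nonneg _).trans h2
  have k3 : 0 ≤ n3 := (abs_nonneg _).trans h3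
  rw [abs_mul, abs_mul, abs_mul]
  gcongr

lemma Pol_le {p4 p3 p1 p0 X1 Y1 X2 Y2 X3 Y3 X4 Y4 M n1 n2 n3 n4 : ℝ}
    (hM : |p4| + 4 * |p3| + 4 * |p1| + |p0| ≤ M)
    (hX1 : |X1| ≤ n1) (hY1 : |Y1| ≤ n1) (hX2 : |X2| ≤ n2) (hY2 : |Y2| ≤ n2)
    (hX3 : |X3| ≤ n3) (hY3 : |Y3| ≤ n3) (hX4 : |X4| ≤ n4) (hY4 : |Y4| ≤ n4) :
    |Pol p4 p3 p1 p0 X1 Y1 X2 Y2 X3 Y3 X4 Y4| ≤ M * (n1 * n2 * n3 * n4) := by
  have k1 : 0 ≤ n1 := (abs_nonneg _).trans hX1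
  have k2 : 0 ≤ n2 := (abs_nonneg _).trans hX2
  have k3 : 0 ≤ n3 := (abs_nonneg _).trans hX3
  have k4 : 0 ≤ n4 := (abs_nonneg _).trans hX4
  have kN : 0 ≤ n1 * n2 * n3 * n4 := by positivity
  have f4 : ∀ a b c d : ℝ, |a + b + c + d| ≤ |a| + |b| + |c| + |d| := by
    intro a b c d
    have e1 := abs_add_le (a + b + c) d
    have e2 := abs_add_le (a + b) c
    have e3 := abs_add_le a b
    linarith
  have t4 : |p4 * (X1 * X2 * X3 * X4)| ≤ |p4| * (n1 * n2 * n3 * n4) := by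
    rw [abs_mul]
    exact mul_le_mul_of_nonneg_left (prod4_le hX1 hX2 hX3 hX4) (abs_nonneg _)
  have t0 : |p0 * (Y1 * Y2 * Y3 * Y4)| ≤ |p0| * (n1 * n2 * n3 * n4) := by
    rw [abs_mul]
    exact mul_le_mul_of_nonneg_left (prod4_le hY1 hY2 hY3 hY4) (abs_nonneg _)
  have t3 : |p3 * (X1 * X2 * X3 * Y4 + X1 * X2 * Y3 * X4 + X1 * Y2 * X3 * X4 +
      Y1 * X2 * X3 * X4)| ≤ |p3| * (4 * (n1 * n2 * n3 * n4)) := by
    rw [abs_mul]
    refine mul_le_mul_of_nonneg_left ((f4 _ _ _ _).trans ?_) (abs_nonneg _)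
    have a1 := prod4_le hX1 hX2 hX3 hY4
    have a2 := prod4_le hX1 hX2 hY3 hX4
    have a3 := prod4_le hX1 hY2 hX3 hX4
    have a4 := prod4_le hY1 hX2 hX3 hX4
    linarith
  have t1 : |p1 * (X1 * Y2 * Y3 * Y4 + Y1 * X2 * Y3 * Y4 + Y1 * Y2 * X3 * Y4 +
      Y1 * Y2 * Y3 * X4)| ≤ |p1| * (4 * (n1 * n2 * n3 * n4)) := by
    rw [abs_mul]
    refine mul_le_mul_of_nonneg_left ((f4 _ _ _ _).trans ?_) (abs_nonneg _)
    have a1 := prod4_le hX1 hY2 hY3 hY4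
    have a2 := prod4_le hY1 hX2 hY3 hY4
    have a3 := prod4_le hY1 hY2 hX3 hY4
    have a4 := prod4_le hY1 hY2 hY3 hX4
    linarith
  unfold Pol
  refine (f4 _ _ _ _).trans ?_
  have := mul_le_mul_of_nonneg_right hM kN
  linarith

lemma c0_pol (x y A u v : ℤ) (α V : ℝ) (hV : V ≠ 0) (hx : α ^ 2 = x) :
    ((c0 x y A u v : ℤ) : ℝ) = Pol (1 / V ^ 4) (α / V ^ 2) (2 * (y - α ^ 3) * V ^ 2)
      ((8 * α * (y - α ^ 3) - 4 * A) * V ^ 4) ((u - α * v) * V) (v / V) ((u - α * v) * V) (v / V)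
      ((u - α * v) * V) (v / V) ((u - α * v) * V) (v / V) := by
  unfold c0 Pol
  push_cast
  rw [← hx]
  field_simp
  ring

lemma c1_pol (x y A u v s w : ℤ) (α V : ℝ) (hV : V ≠ 0) (hx : α ^ 2 = x) :
    ((c1 x y A u v s w : ℤ) : ℝ) = Pol (1 / V ^ 4) (α / V ^ 2) (2 * (y - α ^ 3) * V ^ 2)
      ((8 * α * (y - α ^ 3) - 4 * A) * V ^ 4) ((u - α * v) * V) (v / V) ((u - α * v) * V) (v / V)
      ((u - α * v) * V) (v / V) ((s - α * w) * V) (w / V) := by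
  unfold c1 Pol
  push_cast
  rw [← hx]
  field_simp
  ring

lemma c2_pol (x y A u v s w : ℤ) (α V : ℝ) (hV : V ≠ 0) (hx : α ^ 2 = x) :
    ((c2 x y A u v s w : ℤ) : ℝ) = Pol (1 / V ^ 4) (α / V ^ 2) (2 * (y - α ^ 3) * V ^ 2)
      ((8 * α * (y - α ^ 3) - 4 * A) * V ^ 4) ((u - α * v) * V) (v / V) ((u - α * v) * V) (v / V)
      ((s - α * w) * V) (w / V) ((s - α * w) * V) (w / V) := by
  unfold c2 Pol
  push_cast
  rw [← hx]
  field_simp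
  ring

/-- the size of the coefficients -/
lemma coef_le (R α V : ℝ) (hR : 1 ≤ R) (hV : 1 ≤ V) (hα : α = R * V ^ 2) (x y A B : ℤ)
    (hx : α ^ 2 = x) (hy : 0 ≤ y) (hxy : y ^ 2 = x ^ 3 + A * x + B) (hA : |(A : ℝ)| ≤ R ^ 2)
    (hB : |(B : ℝ)| ≤ R ^ 3) :
    |1 / V ^ 4| + 4 * |α / V ^ 2| + 4 * |2 * ((y : ℝ) - α ^ 3) * V ^ 2| +
      |(8 * α * ((y : ℝ) - α ^ 3) - 4 * A) * V ^ 4| ≤ 37 * R := by
  have hR0 : 0 < R := by linarith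
  have hV0 : 0 < V := by linarith
  have hα0 : 0 < α := by rw [hα]; positivity
  have hV4 : 1 ≤ V ^ 4 := one_le_pow₀ hV
  have hV2 : 1 ≤ V ^ 2 := one_le_pow₀ hV
  have hyr : (0 : ℝ) ≤ y := by exact_mod_cast hy
  have hαR : R ≤ α := by rw [hα]; nlinarith
  have hα1 : 1 ≤ α := by linarith
  have hxyr : (y : ℝ) ^ 2 = α ^ 6 + A * α ^ 2 + B := by
    have : (y : ℝ) ^ 2 = (x : ℝ) ^ 3 + A * x + B := by exact_mod_cast hxy
    rw [this, ← hx]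
    ring
  have hsum : 0 < (y : ℝ) + α ^ 3 := by positivity
  have hsumge : α ^ 3 ≤ (y : ℝ) + α ^ 3 := by linarith
  have hprod : ((y : ℝ) - α ^ 3) * ((y : ℝ) + α ^ 3) = A * α ^ 2 + B := by
    have : ((y : ℝ) - α ^ 3) * ((y : ℝ) + α ^ 3) = (y : ℝ) ^ 2 - α ^ 6 := by ring
    rw [this, hxyr]
    ring
  have hR3 : R ^ 3 ≤ R ^ 2 * α ^ 2 := by
    have : R ≤ α ^ 2 := by nlinarith
    calc R ^ 3 = R ^ 2 * R := by ring
      _ ≤ R ^ 2 * α ^ 2 := by gcongr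
  -- the first quantity
  have hη : |(y : ℝ) - α ^ 3| ≤ 2 * R / V ^ 2 := by
    have h1 : |(y : ℝ) - α ^ 3| * α ^ 3 ≤ 2 * (R ^ 2 * α ^ 2) := by
      calc |(y : ℝ) - α ^ 3| * α ^ 3 ≤ |(y : ℝ) - α ^ 3| * ((y : ℝ) + α ^ 3) := by gcongr
        _ = |((y : ℝ) - α ^ 3) * ((y : ℝ) + α ^ 3)| := by rw [abs_mul, abs_of_pos hsum]
        _ = |A * α ^ 2 + B| := by rw [hprod]
        _ ≤ |A * α ^ 2| + |(B : ℝ)| := abs_add_le _ _
        _ = |(A : ℝ)| * α ^ 2 + |(B : ℝ)| := by rw [abs_mul, abs_of_pos (by positivity : 0 < α ^ 2)]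
        _ ≤ R ^ 2 * α ^ 2 + R ^ 3 := by gcongr
        _ ≤ 2 * (R ^ 2 * α ^ 2) := by linarith
    have h2 : |(y : ℝ) - α ^ 3| * α ≤ 2 * R ^ 2 := by
      have h3 : (|(y : ℝ) - α ^ 3| * α) * α ^ 2 ≤ (2 * R ^ 2) * α ^ 2 := by
        calc (|(y : ℝ) - α ^ 3| * α) * α ^ 2 = |(y : ℝ) - α ^ 3| * α ^ 3 := by ring
          _ ≤ _ := h1
          _ = _ := by ring
      exact le_of_mul_le_mul_right h3 (by positivity)
    rw [le_div_iff₀ (by positivity)]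
    have h4 : (|(y : ℝ) - α ^ 3| * V ^ 2) * R ≤ (2 * R) * R := by
      calc (|(y : ℝ) - α ^ 3| * V ^ 2) * R = |(y : ℝ) - α ^ 3| * α := by rw [hα]; ring
        _ ≤ 2 * R ^ 2 := h2
        _ = (2 * R) * R := by ring
    exact le_of_mul_le_mul_right h4 hR0
  have hη2 : |(y : ℝ) - α ^ 3| ≤ 2 * R := by
    refine hη.trans ?_
    rw [div_le_iff₀ (by positivity)]
    nlinarith
  -- the second quantity
  have hlam : |8 * α * ((y : ℝ) - α ^ 3) - 4 * A| * V ^ 4 ≤ 16 * R := by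
    have h0 : (8 * α * ((y : ℝ) - α ^ 3) - 4 * A) * ((y : ℝ) + α ^ 3) =
        -4 * A * ((y : ℝ) - α ^ 3) + 8 * α * B := by
      linear_combination (8 * α) * hprod
    have hA0 : |(A : ℝ)| * |(y : ℝ) - α ^ 3| ≤ R ^ 3 * α * 2 := by
      have h5 : |(A : ℝ)| * |(y : ℝ) - α ^ 3| ≤ R ^ 2 * (2 * R) := by gcongr
      have h6 : R ^ 3 * 1 ≤ R ^ 3 * α := by gcongr
      nlinarith
    have h1 : |8 * α * ((y : ℝ) - α ^ 3) - 4 * A| * α ^ 3 ≤ 16 * (R ^ 3 * α) := by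
      calc |8 * α * ((y : ℝ) - α ^ 3) - 4 * A| * α ^ 3
          ≤ |8 * α * ((y : ℝ) - α ^ 3) - 4 * A| * ((y : ℝ) + α ^ 3) := by gcongr
        _ = |(8 * α * ((y : ℝ) - α ^ 3) - 4 * A) * ((y : ℝ) + α ^ 3)| := by
          rw [abs_mul _ ((y : ℝ) + α ^ 3), abs_of_pos hsum]
        _ = |-4 * A * ((y : ℝ) - α ^ 3) + 8 * α * B| := by rw [h0]
        _ ≤ |-4 * A * ((y : ℝ) - α ^ 3)| + |8 * α * B| := abs_add_le _ _
        _ = 4 * (|(A : ℝ)| * |(y : ℝ) - α ^ 3|) + 8 * α * |(B : ℝ)| := by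
          rw [abs_mul, abs_mul, abs_mul, abs_mul, abs_of_pos hα0,
            abs_of_pos (by norm_num : (0 : ℝ) < 8)]
          norm_num
          ring
        _ ≤ 4 * (R ^ 3 * α * 2) + 8 * α * R ^ 3 := by gcongr
        _ = 16 * (R ^ 3 * α) := by ring
    have h2 : (|8 * α * ((y : ℝ) - α ^ 3) - 4 * A| * V ^ 4) * (R ^ 2 * α) ≤
        (16 * R) * (R ^ 2 * α) := by
      calc (|8 * α * ((y : ℝ) - α ^ 3) - 4 * A| * V ^ 4) * (R ^ 2 * α)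
          = |8 * α * ((y : ℝ) - α ^ 3) - 4 * A| * α ^ 3 := by rw [hα]; ring
        _ ≤ 16 * (R ^ 3 * α) := h1
        _ = (16 * R) * (R ^ 2 * α) := by ring
    exact le_of_mul_le_mul_right h2 (by positivity)
  have e1 : |1 / V ^ 4| ≤ R := by
    rw [abs_of_pos (by positivity), div_le_iff₀ (by positivity)]
    nlinarith
  have e2 : |α / V ^ 2| = R := by
    rw [abs_of_pos (by positivity), hα]
    field_simp
  have e3 : |2 * ((y : ℝ) - α ^ 3) * V ^ 2| ≤ 4 * R := by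
    rw [abs_mul, abs_mul, abs_of_pos (by norm_num : (0 : ℝ) < 2),
      abs_of_pos (by positivity : 0 < V ^ 2)]
    rw [le_div_iff₀ (by positivity)] at hη
    linarith
  have e4 : |(8 * α * ((y : ℝ) - α ^ 3) - 4 * A) * V ^ 4| ≤ 16 * R := by
    rw [abs_mul, abs_of_pos (by positivity : 0 < V ^ 4)]
    exact hlam
  rw [e2]
  linarith

theorem gd (R α V V₀ T : ℝ) (hR : 100 ≤ R) (hV₀ : 1 ≤ V₀) (hVV : V₀ ≤ V) (hV2 : V < 2 * V₀)
    (hα : α = R * V ^ 2) (hT : 1 / 2 ≤ T) (x y A B : ℤ)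
    (hx : α ^ 2 = x) (hy : 0 ≤ y) (hxy : y ^ 2 = x ^ 3 + A * x + B) (hA : |(A : ℝ)| ≤ R ^ 2)
    (hB : |(B : ℝ)| ≤ R ^ 3) (u₁ v₁ u₂ v₂ : ℤ) (hdet : u₁ * v₂ - u₂ * v₁ = 1) (hv : 1 ≤ v₁)
    (h1 : ((((u₁ : ℝ) - α * v₁) * V) ^ 2 + (v₁ / V) ^ 2) * T ^ 2 ≤ 1)
    (h2 : (((u₂ : ℝ) - α * v₂) * V) ^ 2 + (v₂ / V) ^ 2 ≤ 8 * T ^ 2) :
    Good 3000 R T V₀ (c0 x y A u₁ v₁) (c1 x y A u₁ v₁ u₂ v₂) (c2 x y A u₁ v₁ u₂ v₂)
      (c1 x y A u₂ v₂ u₁ v₁) (c0 x y A u₂ v₂) v₂ (-v₁) ∧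
    (Chart 3000 R T V₀ (c0 x y A u₁ v₁) (c1 x y A u₁ v₁ u₂ v₂) (c2 x y A u₁ v₁ u₂ v₂)
      (c1 x y A u₂ v₂ u₁ v₁) v₂ (-v₁) ∨
    Chart 3000 R (1 / T) V₀ (c0 x y A u₂ v₂) (c1 x y A u₂ v₂ u₁ v₁) (c2 x y A u₁ v₁ u₂ v₂)
      (c1 x y A u₁ v₁ u₂ v₂) (-v₁) v₂) := by
  have hR0 : 0 < R := by linarith
  have hV1 : 1 ≤ V := by linarith
  have hV0 : 0 < V := by linarith
  have hV₀0 : 0 < V₀ := by linarith
  have hT0 : 0 < T := by linarith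
  have hVne : V ≠ 0 := hV0.ne'
  have hα0 : 0 < α := by rw [hα]; positivity
  have hM := coef_le R α V (by linarith) hV1 hα x y A B hx hy hxy hA hB
  obtain ⟨X₁, hX₁⟩ : ∃ X₁ : ℝ, X₁ = ((u₁ : ℝ) - α * v₁) * V := ⟨_, rfl⟩
  obtain ⟨Y₁, hY₁⟩ : ∃ Y₁ : ℝ, Y₁ = (v₁ : ℝ) / V := ⟨_, rfl⟩
  obtain ⟨X₂, hX₂⟩ : ∃ X₂ : ℝ, X₂ = ((u₂ : ℝ) - α * v₂) * V := ⟨_, rfl⟩
  obtain ⟨Y₂, hY₂⟩ : ∃ Y₂ : ℝ, Y₂ = (v₂ : ℝ) / V := ⟨_, rfl⟩
  rw [← hX₁, ← hY₁] at h1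
  rw [← hX₂, ← hY₂] at h2
  have bX₁ : |X₁| ≤ 1 / T := by
    rw [le_div_iff₀ hT0]
    refine abs_le_of_sq_le_sq' ?_ zero_le_one |>.2
    rw [mul_pow, sq_abs]
    nlinarith [mul_nonneg (sq_nonneg Y₁) (sq_nonneg T)]
  have bY₁ : |Y₁| ≤ 1 / T := by
    rw [le_div_iff₀ hT0]
    refine abs_le_of_sq_le_sq' ?_ zero_le_one |>.2
    rw [mul_pow, sq_abs]
    nlinarith [mul_nonneg (sq_nonneg X₁) (sq_nonneg T)]
  have bX₂ : |X₂| ≤ 3 * T := by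
    refine abs_le_of_sq_le_sq' ?_ (by positivity) |>.2
    rw [sq_abs]
    nlinarith [sq_nonneg Y₂, sq_nonneg T]
  have bY₂ : |Y₂| ≤ 3 * T := by
    refine abs_le_of_sq_le_sq' ?_ (by positivity) |>.2
    rw [sq_abs]
    nlinarith [sq_nonneg X₂, sq_nonneg T]
  have hv₁e : (v₁ : ℝ) = Y₁ * V := by rw [hY₁]; field_simp
  have hv₂e : (v₂ : ℝ) = Y₂ * V := by rw [hY₂]; field_simp
  have hv₁0 : (1 : ℝ) ≤ v₁ := by exact_mod_cast hv
  have hv₁a : |(v₁ : ℝ)| = v₁ := abs_of_pos (by linarith)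
  have hp : |(v₂ : ℝ)| ≤ 3 * T * V := by
    rw [hv₂e, abs_mul, abs_of_pos hV0]
    gcongr
  have hq : (v₁ : ℝ) * T ≤ V := by
    have h3 : |Y₁| * T ≤ 1 := by rwa [le_div_iff₀ hT0] at bY₁
    have h4 : (v₁ : ℝ) * T = |Y₁| * T * V := by
      rw [← hv₁a, hv₁e, abs_mul, abs_of_pos hV0]
      ring
    rw [h4]
    nlinarith
  have hRV : 100 ≤ R * V ^ 3 := by
    have : 1 ≤ V ^ 3 := one_le_pow₀ hV1
    nlinarith
  have hV₀3 : V₀ ^ 3 ≤ V ^ 3 := pow_le_pow_left₀ hV₀0.le hVV 3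
  constructor
  · refine ⟨?_, ?_, ?_, ?_, ?_, ?_, ?_, ?_⟩
    · have h3 : |((c0 x y A u₁ v₁ : ℤ) : ℝ)| ≤ 37 * R * (1 / T * (1 / T) * (1 / T) * (1 / T)) := by
        rw [c0_pol x y A u₁ v₁ α V hVne hx, ← hX₁, ← hY₁]
        exact Pol_le hM bX₁ bY₁ bX₁ bY₁ bX₁ bY₁ bX₁ bY₁
      calc |((c0 x y A u₁ v₁ : ℤ) : ℝ)| * T ^ 4 ≤
          37 * R * (1 / T * (1 / T) * (1 / T) * (1 / T)) * T ^ 4 := by gcongr
        _ = 37 * R := by field_simp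
        _ ≤ 3000 * R := by linarith
    · have h3 : |((c1 x y A u₁ v₁ u₂ v₂ : ℤ) : ℝ)| ≤
          37 * R * (1 / T * (1 / T) * (1 / T) * (3 * T)) := by
        rw [c1_pol x y A u₁ v₁ u₂ v₂ α V hVne hx, ← hX₁, ← hY₁, ← hX₂, ← hY₂]
        exact Pol_le hM bX₁ bY₁ bX₁ bY₁ bX₁ bY₁ bX₂ bY₂
      calc |((c1 x y A u₁ v₁ u₂ v₂ : ℤ) : ℝ)| * T ^ 2 ≤
          37 * R * (1 / T * (1 / T) * (1 / T) * (3 * T)) * T ^ 2 := by gcongr
        _ = 111 * R := by field_simp; ring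
        _ ≤ 3000 * R := by linarith
    · have h3 : |((c2 x y A u₁ v₁ u₂ v₂ : ℤ) : ℝ)| ≤
          37 * R * (1 / T * (1 / T) * (3 * T) * (3 * T)) := by
        rw [c2_pol x y A u₁ v₁ u₂ v₂ α V hVne hx, ← hX₁, ← hY₁, ← hX₂, ← hY₂]
        exact Pol_le hM bX₁ bY₁ bX₁ bY₁ bX₂ bY₂ bX₂ bY₂
      calc |((c2 x y A u₁ v₁ u₂ v₂ : ℤ) : ℝ)| ≤
          37 * R * (1 / T * (1 / T) * (3 * T) * (3 * T)) := h3
        _ = 333 * R := by field_simp; ring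
        _ ≤ 3000 * R := by linarith
    · have h3 : |((c1 x y A u₂ v₂ u₁ v₁ : ℤ) : ℝ)| ≤
          37 * R * (3 * T * (3 * T) * (3 * T) * (1 / T)) := by
        rw [c1_pol x y A u₂ v₂ u₁ v₁ α V hVne hx, ← hX₁, ← hY₁, ← hX₂, ← hY₂]
        exact Pol_le hM bX₂ bY₂ bX₂ bY₂ bX₂ bY₂ bX₁ bY₁
      calc |((c1 x y A u₂ v₂ u₁ v₁ : ℤ) : ℝ)| ≤
          37 * R * (3 * T * (3 * T) * (3 * T) * (1 / T)) := h3
        _ = 999 * (R * T ^ 2) := by field_simp; ring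
        _ ≤ 3000 * (R * T ^ 2) := by
          have : 0 ≤ R * T ^ 2 := by positivity
          linarith
    · have h3 : |((c0 x y A u₂ v₂ : ℤ) : ℝ)| ≤
          37 * R * (3 * T * (3 * T) * (3 * T) * (3 * T)) := by
        rw [c0_pol x y A u₂ v₂ α V hVne hx, ← hX₂, ← hY₂]
        exact Pol_le hM bX₂ bY₂ bX₂ bY₂ bX₂ bY₂ bX₂ bY₂
      calc |((c0 x y A u₂ v₂ : ℤ) : ℝ)| ≤
          37 * R * (3 * T * (3 * T) * (3 * T) * (3 * T)) := h3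
        _ = 2997 * (R * T ^ 4) := by ring
        _ ≤ 3000 * (R * T ^ 4) := by
          have : 0 ≤ R * T ^ 4 := by positivity
          linarith
    · calc |(v₂ : ℝ)| ≤ 3 * T * V := hp
        _ ≤ 3 * T * (2 * V₀) := by gcongr
        _ = 6 * (T * V₀) := by ring
        _ ≤ 3000 * (T * V₀) := by
          have : 0 ≤ T * V₀ := by positivity
          linarith
    · push_cast
      rw [abs_neg, hv₁a]
      linarith
    · rw [value, hdet, one_pow]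
  · by_cases hcase : V ≤ 8 * ((v₁ : ℝ) * T)
    · left
      refine ⟨?_, ?_⟩
      · push_cast
        rw [abs_neg, hv₁a]
        linarith
      · rw [grad_p, hdet, one_pow, one_mul]
        have h3 : |X₁| * T ≤ 1 := by rwa [le_div_iff₀ hT0] at bX₁
        have h4 : |(u₁ : ℝ) - α * v₁| * T ≤ 1 := by
          have h5 : |X₁| = |(u₁ : ℝ) - α * v₁| * V := by rw [hX₁, abs_mul, abs_of_pos hV0]
          rw [h5] at h3
          have h6 : |(u₁ : ℝ) - α * v₁| * T * 1 ≤ |(u₁ : ℝ) - α * v₁| * T * V := by gcongr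
          linarith
        have h7 : α * v₁ * T ≤ T * |(u₁ : ℝ)| + 1 := by
          have h8 : α * v₁ ≤ |(u₁ : ℝ)| + |(u₁ : ℝ) - α * v₁| := by
            have e1 : α * v₁ = u₁ - (u₁ - α * v₁) := by ring
            calc α * v₁ = u₁ - (u₁ - α * v₁) := e1
              _ ≤ |(u₁ : ℝ)| + |(u₁ : ℝ) - α * v₁| := by
                have := le_abs_self (u₁ : ℝ)
                have := neg_abs_le ((u₁ : ℝ) - α * v₁)
                linarith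
          have h9 := mul_le_mul_of_nonneg_right h8 hT0.le
          linarith
        have h10 : R * V ^ 3 ≤ 8 * (α * v₁ * T) := by
          calc R * V ^ 3 = R * V ^ 2 * V := by ring
            _ ≤ R * V ^ 2 * (8 * ((v₁ : ℝ) * T)) := by gcongr
            _ = 8 * (α * v₁ * T) := by rw [hα]; ring
        have h11 : R * V₀ ^ 3 ≤ R * V ^ 3 := by gcongr
        have h12 : 0 ≤ T * |(u₁ : ℝ)| := by positivity
        linarith
    · right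
      push Not at hcase
      have hdetR : X₁ * Y₂ - X₂ * Y₁ = 1 := by
        have h3 : (u₁ : ℝ) * v₂ - u₂ * v₁ = 1 := by exact_mod_cast hdet
        rw [hX₁, hX₂, hY₁, hY₂]
        field_simp
        linarith
      have h3 : |X₂ * Y₁| ≤ 3 / 8 := by
        rw [abs_mul]
        have h4 : |Y₁| * (8 * T) ≤ 1 := by
          have h5 : |Y₁| = v₁ / V := by rw [hY₁, abs_div, hv₁a, abs_of_pos hV0]
          rw [h5, div_mul_eq_mul_div, div_le_one hV0]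
          linarith
        have h6 : |X₂| * |Y₁| ≤ 3 * T * |Y₁| := by gcongr
        linarith
      have h4 : 5 / 8 ≤ |X₁ * Y₂| := by
        have h5 : X₁ * Y₂ = 1 + X₂ * Y₁ := by linarith
        have h6 := neg_abs_le (X₂ * Y₁)
        have h7 := le_abs_self (X₁ * Y₂)
        linarith
      have h5 : 5 / 8 * T ≤ |Y₂| := by
        rw [abs_mul] at h4
        have h6 : |X₁| * T ≤ 1 := by rwa [le_div_iff₀ hT0] at bX₁
        calc 5 / 8 * T ≤ |X₁| * |Y₂| * T := by gcongr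
          _ = |Y₂| * (|X₁| * T) := by ring
          _ ≤ |Y₂| * 1 := by gcongr
          _ = |Y₂| := mul_one _
      have hv₂l : 5 / 8 * T * V ≤ |(v₂ : ℝ)| := by
        rw [hv₂e, abs_mul, abs_of_pos hV0]
        gcongr
      refine ⟨?_, ?_⟩
      · have h6 : 5 / 8 * V ≤ |(v₂ : ℝ)| * (1 / T) := by
          rw [mul_one_div, le_div_iff₀ hT0]
          linarith
        linarith
      · have e0 : (c0 x y A u₂ v₂ * (-v₁) ^ 3 + 3 * c1 x y A u₂ v₂ u₁ v₁ * (-v₁) ^ 2 * v₂ +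
            3 * c2 x y A u₁ v₁ u₂ v₂ * (-v₁) * v₂ ^ 2 + c1 x y A u₁ v₁ u₂ v₂ * v₂ ^ 3) = u₂ := by
          rw [grad_q, hdet, one_pow, one_mul]
        rw [e0]
        have h6 : |(u₂ : ℝ) - α * v₂| ≤ 3 * T := by
          have h7 : |X₂| = |(u₂ : ℝ) - α * v₂| * V := by rw [hX₂, abs_mul, abs_of_pos hV0]
          rw [h7] at bX₂
          have h8 : |(u₂ : ℝ) - α * v₂| * 1 ≤ |(u₂ : ℝ) - α * v₂| * V := by gcongr
          linarith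
        have h7 : α * |(v₂ : ℝ)| ≤ |(u₂ : ℝ)| + 3 * T := by
          have e1 : α * |(v₂ : ℝ)| = |α * v₂| := by rw [abs_mul, abs_of_pos hα0]
          have e2 : α * (v₂ : ℝ) = u₂ - (u₂ - α * v₂) := by ring
          calc α * |(v₂ : ℝ)| = |(u₂ : ℝ) - (u₂ - α * v₂)| := by rw [e1, ← e2]
            _ ≤ |(u₂ : ℝ)| + |(u₂ : ℝ) - α * v₂| := abs_sub _ _
            _ ≤ _ := by linarith
        have h8 : 5 / 8 * (R * V ^ 3) * T ≤ α * |(v₂ : ℝ)| := by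
          calc 5 / 8 * (R * V ^ 3) * T = α * (5 / 8 * T * V) := by rw [hα]; ring
            _ ≤ α * |(v₂ : ℝ)| := by gcongr
        have h9 : 1 / 2 * (R * V ^ 3) * T ≤ |(u₂ : ℝ)| := by
          have h10 : 3 * T ≤ 1 / 8 * (R * V ^ 3) * T := by
            have : 3 ≤ 1 / 8 * (R * V ^ 3) := by linarith
            exact mul_le_mul_of_nonneg_right this hT0.le
          linarith
        have h11 : 1 / 2 * (R * V ^ 3) ≤ 1 / T * |(u₂ : ℝ)| := by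
          have e3 : 1 / T * |(u₂ : ℝ)| = |(u₂ : ℝ)| / T := by ring
          rw [e3, le_div_iff₀ hT0]
          exact h9
        have h12 : R * V₀ ^ 3 ≤ R * V ^ 3 := by gcongr
        linarith

end

end Pool.Agent.R418.HL
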