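import Mathlib
import Pool.Agent.R418.HL.G2
import Pool.Agent.W349.HZ.LAT

/-! Quartic version: the reduction. -/

set_option autoImplicit false

namespace Pool.Agent.R418.HL

/-- the case of a vanishing first coefficient -/
theorem half (R α V : ℝ) (hR : 100 ≤ R) (hV : 1 ≤ V) (hα : α = R * V ^ 2) (x y A B u : ℤ)
    (hx : α ^ 2 = x) (hxy : y ^ 2 = x ^ 3 + A * x + B) (hA : |(A : ℝ)| ≤ R ^ 2)
    (hB : |(B : ℝ)| ≤ R ^ 3) (h0 : u ^ 4 - 6 * x * u ^ 2 + 8 * y * u - (3 * x ^ 2 + 4 * A) = 0)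
    (hu : |(u : ℝ) - α| * V ≤ 1) :
    ∃ r w : ℤ, B = w ^ 2 - r * A - r ^ 3 ∧ |(r : ℝ)| ≤ 3 * R ∧ |(w : ℝ)| * α ≤ 28 * R ^ 2 := by
  have hR0 : 0 < R := by linarith
  have hV0 : 0 < V := by linarith
  have hα0 : 0 < α := by rw [hα]; positivity
  have hV2 : 1 ≤ V ^ 2 := one_le_pow₀ hV
  have hV3 : 1 ≤ V ^ 3 := one_le_pow₀ hV
  have hαR : R ≤ α := by rw [hα]; nlinarith
  have hpar : (2 : ℤ) ∣ u ^ 2 - x := by
    have h2 : (2 : ℤ) ∣ (u ^ 2 - x) ^ 2 := by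
      refine ⟨2 * x * u ^ 2 - 4 * y * u + 2 * x ^ 2 + 2 * A, ?_⟩
      linear_combination h0
    exact Int.prime_two.dvd_of_dvd_pow h2
  obtain ⟨r, hr⟩ := hpar
  have hx' : x = u ^ 2 - 2 * r := by linarith
  obtain ⟨w, hw⟩ : ∃ w : ℤ, w = y - u ^ 3 + 3 * r * u := ⟨_, rfl⟩
  have hy' : y = u ^ 3 - 3 * r * u + w := by linarith
  have hA' : A = 2 * u * w - 3 * r ^ 2 := by
    have h1 : 4 * A = 4 * (2 * u * w - 3 * r ^ 2) := by
      rw [hx', hy'] at h0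
      linear_combination -h0
    linarith
  have hB' : B = w ^ 2 - r * A - r ^ 3 := by
    have h1 : B = y ^ 2 - x ^ 3 - A * x := by linarith
    rw [h1, hA', hx', hy']
    ring
  -- sizes
  have hA'' : (A : ℝ) = 2 * u * w - 3 * r ^ 2 := by exact_mod_cast hA'
  have hB'' : (B : ℝ) = w ^ 2 - r * A - r ^ 3 := by exact_mod_cast hB'
  have hxr : α ^ 2 = (u : ℝ) ^ 2 - 2 * r := by rw [hx, hx']; push_cast; ring
  have hu1 : |(u : ℝ) - α| ≤ 1 := by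
    have : |(u : ℝ) - α| * 1 ≤ |(u : ℝ) - α| * V := by gcongr
    linarith
  obtain ⟨hu2, hu3⟩ := abs_le.1 hu1
  have hul : α / 2 ≤ u := by linarith
  have hu0 : (0 : ℝ) < u := by linarith
  have hr1 : |(r : ℝ)| ≤ 3 / 2 * (R * V) := by
    have h1 : 2 * (r : ℝ) = (u - α) * (u + α) := by
      have : (u - α) * (u + α) = (u : ℝ) ^ 2 - α ^ 2 := by ring
      rw [this, hxr]
      ring
    have h2 : 2 * |(r : ℝ)| = |(u : ℝ) - α| * (u + α) := by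
      rw [← abs_of_pos (by linarith : 0 < (u : ℝ) + α), ← abs_mul, ← h1, abs_mul,
        abs_of_pos (by norm_num : (0 : ℝ) < 2)]
    have h3 : 2 * |(r : ℝ)| * V ≤ 3 * α := by
      calc 2 * |(r : ℝ)| * V = (|(u : ℝ) - α| * V) * (u + α) := by rw [h2]; ring
        _ ≤ 1 * (u + α) := by gcongr
        _ ≤ 3 * α := by linarith
    have h4 : |(r : ℝ)| * V ≤ 3 / 2 * (R * V) * V := by
      calc |(r : ℝ)| * V ≤ 3 / 2 * α := by linarith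
        _ = 3 / 2 * (R * V) * V := by rw [hα]; ring
    exact le_of_mul_le_mul_right h4 hV0
  have hwα : ∀ X : ℝ, R ^ 2 + 3 * (r : ℝ) ^ 2 ≤ X → |(w : ℝ)| * α ≤ X := by
    intro X hX
    have h1 : |(w : ℝ)| * (2 * u) = |A + 3 * (r : ℝ) ^ 2| := by
      rw [hA'', show 2 * (u : ℝ) * w - 3 * (r : ℝ) ^ 2 + 3 * (r : ℝ) ^ 2 = w * (2 * u) by ring,
        abs_mul, abs_of_pos (by positivity : (0 : ℝ) < 2 * u)]
    have h2 : |A + 3 * (r : ℝ) ^ 2| ≤ R ^ 2 + 3 * (r : ℝ) ^ 2 := by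
      refine (abs_add_le _ _).trans ?_
      rw [abs_of_nonneg (by positivity : (0 : ℝ) ≤ 3 * (r : ℝ) ^ 2)]
      linarith
    calc |(w : ℝ)| * α ≤ |(w : ℝ)| * (2 * u) := by
          gcongr
          linarith
      _ ≤ X := by rw [h1]; linarith
  have hr2 : |(r : ℝ)| ≤ 3 * R := by
    by_contra hcon
    push Not at hcon
    obtain ⟨ρ, hρ⟩ : ∃ ρ : ℝ, ρ = |(r : ℝ)| := ⟨_, rfl⟩
    rw [← hρ] at hcon hr1
    have hρ0 : 0 < ρ := by linarith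
    have hr2 : (r : ℝ) ^ 2 = ρ ^ 2 := by rw [hρ, sq_abs]
    have h1 := hwα (4 * ρ ^ 2) (by rw [hr2]; nlinarith)
    have h2 : ρ ^ 3 ≤ R ^ 3 + (w : ℝ) ^ 2 + ρ * R ^ 2 := by
      have h3 : (r : ℝ) ^ 3 = w ^ 2 - r * A - B := by linarith
      have h4 : ρ ^ 3 = |(r : ℝ) ^ 3| := by rw [hρ, abs_pow]
      rw [h4, h3]
      calc |(w : ℝ) ^ 2 - r * A - B| ≤ |(w : ℝ) ^ 2 - r * A| + |(B : ℝ)| := abs_sub _ _
        _ ≤ |(w : ℝ) ^ 2| + |(r : ℝ) * A| + |(B : ℝ)| := by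
          gcongr
          exact abs_sub _ _
        _ = (w : ℝ) ^ 2 + ρ * |(A : ℝ)| + |(B : ℝ)| := by
          rw [abs_mul, ← hρ, abs_of_nonneg (sq_nonneg _)]
        _ ≤ (w : ℝ) ^ 2 + ρ * R ^ 2 + R ^ 3 := by gcongr
        _ = _ := by ring
    have h5 : (w : ℝ) ^ 2 * α ^ 2 ≤ 16 * ρ ^ 4 := by
      have h6 : (|(w : ℝ)| * α) ^ 2 ≤ (4 * ρ ^ 2) ^ 2 := pow_le_pow_left₀ (by positivity) h1 2
      rw [mul_pow, sq_abs] at h6
      linarith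
    have h7 : ρ ^ 3 ≤ 2 * (w : ℝ) ^ 2 := by
      have h8 : R ^ 3 ≤ ρ ^ 3 / 27 := by
        have := pow_le_pow_left₀ (by positivity) hcon.le 3
        linarith
      have h9 : ρ * R ^ 2 ≤ ρ ^ 3 / 9 := by
        have := pow_le_pow_left₀ (by positivity) hcon.le 2
        have h10 : ρ * (3 * R) ^ 2 ≤ ρ * ρ ^ 2 := by gcongr
        linarith
      have h11 : 0 < ρ ^ 3 := by positivity
      linarith
    have h8 : ρ ^ 3 * α ^ 2 ≤ 32 * ρ ^ 4 := by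
      have := mul_le_mul_of_nonneg_right h7 (sq_nonneg α)
      linarith
    have h9 : α ^ 2 ≤ 32 * ρ := by
      have h10 : α ^ 2 * ρ ^ 3 ≤ 32 * ρ * ρ ^ 3 := by linarith
      exact le_of_mul_le_mul_right h10 (by positivity)
    have h10 : α ^ 2 ≤ 48 * (R * V) := by linarith
    have h11 : R * V ^ 3 * (R * V) ≤ 48 * (R * V) := by
      calc R * V ^ 3 * (R * V) = α ^ 2 := by rw [hα]; ring
        _ ≤ _ := h10
    have h12 : R * V ^ 3 ≤ 48 := le_of_mul_le_mul_right h11 (by positivity)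
    nlinarith
  refine ⟨r, w, hB', hr2, hwα _ ?_⟩
  have h1 : (r : ℝ) ^ 2 ≤ (3 * R) ^ 2 := by
    rw [← sq_abs]
    exact pow_le_pow_left₀ (abs_nonneg _) hr2 2
  nlinarith

theorem red (R : ℝ) (hR : 100 ≤ R) (x y A B : ℤ) (hxy : y ^ 2 = x ^ 3 + A * x + B) (hy : 0 ≤ y)
    (hA : |(A : ℝ)| ≤ R ^ 2) (hB : |(B : ℝ)| ≤ R ^ 3) (hx : R ^ 2 ≤ (x : ℝ)) :
    (∃ r w : ℤ, B = w ^ 2 - r * A - r ^ 3 ∧ |(r : ℝ)| ≤ 3 * R ∧
      |(w : ℝ)| * √(x : ℝ) ≤ 28 * R ^ 2) ∨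
    (∃ (i j : ℕ) (a b c d e p q : ℤ), (2 : ℝ) ^ i ≤ √(√(x : ℝ) / R) ∧
      √(√(x : ℝ) / R) < 2 ^ (i + 1) ∧ a ≠ 0 ∧
      Good 3000 R (2 ^ j / 2) (2 ^ i) a b c d e p q ∧
      (Chart 3000 R (2 ^ j / 2) (2 ^ i) a b c d p q ∨
        Chart 3000 R (1 / (2 ^ j / 2)) (2 ^ i) e d c b q p) ∧
      invI a b c d e = -4 * A ∧ invJ a b c d e = -4 * B) := by
  have hR0 : 0 < R := by linarith
  have hx0 : (0 : ℝ) ≤ (x : ℝ) := le_trans (by positivity) hx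
  have hαR : R ≤ √(x : ℝ) := Real.le_sqrt_of_sq_le hx
  have hα0 : 0 < √(x : ℝ) := lt_of_lt_of_le hR0 hαR
  have hα2 : √(x : ℝ) ^ 2 = (x : ℝ) := Real.sq_sqrt hx0
  obtain ⟨V, hVdef⟩ : ∃ V : ℝ, V = √(√(x : ℝ) / R) := ⟨_, rfl⟩
  have hV : 1 ≤ V := by
    rw [hVdef, Real.one_le_sqrt, le_div_iff₀ hR0, one_mul]
    exact hαR
  have hα : √(x : ℝ) = R * V ^ 2 := by
    rw [hVdef, Real.sq_sqrt (by positivity)]
    field_simp
  obtain ⟨i, hi1, hi2⟩ := exists_nat_pow_near hV (one_lt_two : (1 : ℝ) < 2)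
  obtain ⟨u₁, v₁, u₂, v₂, j, hdet, hv1, hu, hvV, hs1, hs2⟩ :=
    Pool.Agent.W349.HZ.LAT.t (√(x : ℝ)) V hV
  have hT : (1 : ℝ) / 2 ≤ 2 ^ j / 2 := by
    have : (1 : ℝ) ≤ 2 ^ j := one_le_pow₀ (by norm_num)
    linarith
  have hV0 : (1 : ℝ) ≤ 2 ^ i := one_le_pow₀ (by norm_num)
  have hi3 : V < 2 * 2 ^ i := by
    rw [pow_succ] at hi2
    linarith
  by_cases ha : c0 x y A u₁ v₁ = 0
  · left
    have hv : v₁ = 1 := by
      have h1 : v₁ ∣ u₁ ^ 4 := by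
        refine ⟨6 * x * u₁ ^ 2 * v₁ - 8 * y * u₁ * v₁ ^ 2 + (3 * x ^ 2 + 4 * A) * v₁ ^ 3, ?_⟩
        unfold c0 at ha
        linear_combination ha
      have h2 : IsCoprime v₁ u₁ := ⟨-u₂, v₂, by linarith⟩
      have h3 : IsCoprime v₁ (u₁ ^ 4) := h2.pow_right
      have h4 : IsUnit v₁ := h3.isUnit_of_dvd' dvd_rfl h1
      rcases Int.isUnit_iff.1 h4 with h5 | h5
      · exact h5
      · omega
    subst hv
    refine half R (√(x : ℝ)) V hR hV hα x y A B u₁ hα2 hxy hA hB ?_ ?_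
    · unfold c0 at ha
      linear_combination ha
    · simpa using hu
  · right
    obtain ⟨g1, g2⟩ := gd R (√(x : ℝ)) V (2 ^ i) (2 ^ j / 2) hR hV0 hi1 hi3 hα hT x y A B hα2 hy hxy
      hA hB u₁ v₁ u₂ v₂ hdet hv1 hs1 hs2
    refine ⟨i, j, _, _, _, _, _, _, _, by rw [← hVdef]; exact hi1, by rw [← hVdef]; exact hi2, ha,
      g1, g2, ?_, ?_⟩
    · rw [inv_I, hdet, one_pow, one_mul]
    · rw [inv_J, hdet, one_pow, one_mul]
      have : B = y ^ 2 - x ^ 3 - A * x := by linarith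
      rw [this]

end Pool.Agent.R418.HL
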