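import Mathlib
import Pool.Agent.R418.HL.C2
import Pool.Agent.R418.HL.G3
import Pool.Agent.W382.HZ.FIN

/-! Quartic version: final assembly. -/

set_option autoImplicit false

namespace Pool.Agent.R418.HL

noncomputable section

open Pool.Agent.W654.HZ.CLT (card_Icc_le mem_Icc_of)

lemma Good.swap {K R T V : ℝ} {a b c d e p q : ℤ} (hT : 0 < T)
    (h : Good K R T V a b c d e p q) : Good K R (1 / T) V e d c b a q p := by
  have hT4 : 0 < T ^ 4 := by positivity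
  have hT2 : 0 < T ^ 2 := by positivity
  refine ⟨?_, ?_, h.hc, ?_, ?_, ?_, ?_, ?_⟩
  · rw [one_div, inv_pow, ← div_eq_mul_inv, div_le_iff₀ hT4]
    have := h.he
    linarith
  · rw [one_div, inv_pow, ← div_eq_mul_inv, div_le_iff₀ hT2]
    have := h.hd
    linarith
  · have e1 : K * (R * (1 / T) ^ 2) = K * R / T ^ 2 := by
      rw [one_div, inv_pow]; ring
    rw [e1, le_div_iff₀ hT2]
    exact h.hb
  · have e1 : K * (R * (1 / T) ^ 4) = K * R / T ^ 4 := by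
      rw [one_div, inv_pow]; ring
    rw [e1, le_div_iff₀ hT4]
    exact h.ha
  · have e1 : K * (1 / T * V) = K * V / T := by ring
    rw [e1, le_div_iff₀ hT]
    exact h.hq
  · rw [mul_one_div, div_le_iff₀ hT]
    have := h.hp
    linarith
  · linear_combination h.heq

lemma Good.box {K R T V : ℝ} {a b c d e p q : ℤ} (h : Good K R T V a b c d e p q) :
    InBox K R T a b c d e := ⟨h.ha, h.hb, h.hc, h.hd, h.he⟩

/-- the data of a point of large height -/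
theorem mem {R : ℝ} (hb : (2 : ℝ) ^ 50 ≤ R) {A B x y : ℤ} (hA : |(A : ℝ)| ≤ R ^ 2)
    (hB : |(B : ℝ)| ≤ R ^ 3) (hxy : y ^ 2 = x ^ 3 + A * x + B)
    (hx : |(x : ℝ)| ≤ Real.exp (R ^ ((1 : ℝ) / 3000))) (hx2 : R ^ ((13 : ℝ) / 5) ≤ x) :
    (A, B) ∈ SH R ∨ ∃ i j : ℕ, (i : ℝ) ≤ R ^ ((1 : ℝ) / 3000) ∧
      (j : ℝ) ≤ 3000 * R ^ ((1 : ℝ) / 1000) ∧ R ^ ((13 : ℝ) / 100) ≤ 2 ^ i ∧
      Real.log (2 ^ i) ≤ R ^ ((1 : ℝ) / 3000) ∧
      (((2 : ℝ) ^ j / 2 ≤ R ^ ((1 : ℝ) / 25) ∧ ((A, B) ∈ SN 3000 R (2 ^ j / 2) (2 ^ i) ∨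
        (A, B) ∈ SQ 3000 R (2 ^ j / 2) ∨ (A, B) ∈ SN 3000 R (1 / (2 ^ j / 2)) (2 ^ i) ∨
        (A, B) ∈ SQ 3000 R (1 / (2 ^ j / 2)))) ∨
      (R ^ ((1 : ℝ) / 25) ≤ (2 : ℝ) ^ j / 2 ∧ (A, B) ∈ SL 3000 R (2 ^ j / 2))) := by
  have hR1 : (1 : ℝ) ≤ R := le_trans (by norm_num) hb
  have hR100 : (100 : ℝ) ≤ R := le_trans (by norm_num) hb
  have hR0 : (0 : ℝ) < R := by linarith
  have hmono : ∀ s t : ℝ, s ≤ t → R ^ s ≤ R ^ t := fun s t h =>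
    Real.rpow_le_rpow_of_exponent_le hR1 h
  have h2 : R ^ (2 : ℕ) ≤ (x : ℝ) := by
    have h1 : R ^ (2 : ℕ) ≤ R ^ ((13 : ℝ) / 5) := by
      rw [← Real.rpow_natCast]
      exact hmono _ _ (by norm_num)
    linarith
  have hx0 : (0 : ℝ) < x := lt_of_lt_of_le (by positivity) h2
  have hsx : R ^ ((13 : ℝ) / 10) ≤ √(x : ℝ) := by
    apply Real.le_sqrt_of_sq_le
    rw [← Real.rpow_natCast, ← Real.rpow_mul hR0.le]
    refine le_trans (le_of_eq ?_) hx2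
    norm_num
  have hsx0 : 0 < √(x : ℝ) := lt_of_lt_of_le (by positivity) hsx
  rcases red R hR100 x |y| A B (by rw [sq_abs]; exact hxy) (abs_nonneg y) hA hB h2 with
    ⟨r, w, h4, h5, h6⟩ | ⟨i, j, a, b, c, d, e, p, q, h4, h5, h6, h7, h8, h9, h10⟩
  · left
    refine ⟨hA, r, w, h4, h5, ?_⟩
    have h7 : |(w : ℝ)| * R ^ ((13 : ℝ) / 10) ≤ 28 * R ^ ((7 : ℝ) / 10) * R ^ ((13 : ℝ) / 10) := by
      calc |(w : ℝ)| * R ^ ((13 : ℝ) / 10) ≤ |(w : ℝ)| * √(x : ℝ) := by gcongr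
        _ ≤ 28 * R ^ 2 := h6
        _ = 28 * (R ^ ((7 : ℝ) / 10) * R ^ ((13 : ℝ) / 10)) := by
          rw [← Real.rpow_add hR0, ← Real.rpow_natCast]
          norm_num
        _ = _ := by ring
    exact le_of_mul_le_mul_right h7 (by positivity)
  · right
    have hxle : (x : ℝ) ≤ Real.exp (R ^ ((1 : ℝ) / 3000)) := le_trans (le_abs_self _) hx
    have hRp : 0 < R ^ ((1 : ℝ) / 3000) := by positivity
    have h11 : √(√(x : ℝ) / R) ≤ Real.exp (1 / 4 * R ^ ((1 : ℝ) / 3000)) := by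
      rw [Real.sqrt_le_left (Real.exp_pos _).le, ← Real.exp_nat_mul]
      have h12 : √(x : ℝ) ≤ Real.exp (1 / 2 * R ^ ((1 : ℝ) / 3000)) := by
        rw [Real.sqrt_le_left (Real.exp_pos _).le, ← Real.exp_nat_mul]
        refine hxle.trans (le_of_eq ?_)
        congr 1
        push_cast
        ring
      refine (div_le_self hsx0.le hR1).trans (h12.trans (le_of_eq ?_))
      congr 1
      push_cast
      ring
    have hlog4 : Real.log (2 ^ i) ≤ 1 / 4 * R ^ ((1 : ℝ) / 3000) := by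
      rw [Real.log_le_iff_le_exp (by positivity)]
      exact h4.trans h11
    have hlog : Real.log (2 ^ i) ≤ R ^ ((1 : ℝ) / 3000) := by linarith
    have hT0 : (0 : ℝ) < 2 ^ j / 2 := by positivity
    refine ⟨i, j, ?_, ?_, ?_, hlog, ?_⟩
    · rw [Real.log_pow] at hlog4
      have h12 := Real.log_two_gt_d9
      have h13 : (0 : ℝ) ≤ i := Nat.cast_nonneg i
      nlinarith
    · have ha := h7.ha
      have ha1 : (1 : ℝ) ≤ |(a : ℝ)| := by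
        have : (1 : ℤ) ≤ |a| := Int.one_le_abs h6
        exact_mod_cast this
      have h10 : ((2 : ℝ) ^ j / 2) ^ 4 ≤ 3000 * R := by
        refine le_trans ?_ ha
        have : (0 : ℝ) ≤ ((2 : ℝ) ^ j / 2) ^ 4 := by positivity
        nlinarith
      have h11 : (2 : ℝ) ^ j ≤ 48000 * R := by
        have h12 : (1 : ℝ) ≤ 2 ^ j := one_le_pow₀ (by norm_num)
        have h13 : (2 : ℝ) ^ j ≤ ((2 : ℝ) ^ j) ^ 4 := le_self_pow₀ h12 (by norm_num)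
        have h14 : ((2 : ℝ) ^ j / 2) ^ 4 = ((2 : ℝ) ^ j) ^ 4 / 16 := by ring
        rw [h14] at h10
        linarith
      have h12 : Real.log ((2 : ℝ) ^ j) ≤ Real.log (48000 * R) :=
        Real.log_le_log (by positivity) h11
      rw [Real.log_pow, Real.log_mul (by norm_num) hR0.ne'] at h12
      have h13 := Real.log_two_gt_d9
      have h14 : Real.log 48000 ≤ 11 := by
        rw [Real.log_le_iff_le_exp (by norm_num)]
        have h15 : (2.7182818283 : ℝ) < Real.exp 1 := Real.exp_one_gt_d9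
        have h16 : Real.exp 11 = Real.exp 1 ^ 11 := by
          rw [← Real.exp_nat_mul]
          norm_num
        rw [h16]
        have h17 : (2.7 : ℝ) ^ 11 ≤ Real.exp 1 ^ 11 := by
          gcongr
          linarith
        refine le_trans ?_ h17
        norm_num
      have h15 : Real.log R ≤ R ^ ((1 : ℝ) / 1000) / (1 / 1000) :=
        Real.log_le_rpow_div hR0.le (by norm_num)
      have h16 : (1 : ℝ) ≤ R ^ ((1 : ℝ) / 1000) := Real.one_le_rpow hR1 (by norm_num)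
      have h17 : (0 : ℝ) ≤ j := Nat.cast_nonneg j
      have h18 : (1 / 2 : ℝ) * j ≤ j * Real.log 2 := by nlinarith
      have h19 : R ^ ((1 : ℝ) / 1000) / (1 / 1000) = 1000 * R ^ ((1 : ℝ) / 1000) := by ring
      rw [h19] at h15
      nlinarith
    · have h11 : R ^ ((3 : ℝ) / 20) ≤ √(√(x : ℝ) / R) := by
        apply Real.le_sqrt_of_sq_le
        rw [le_div_iff₀ hR0]
        refine le_trans (le_of_eq ?_) hsx
        rw [← Real.rpow_natCast, ← Real.rpow_mul hR0.le, mul_comm, mulR hR0]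
        norm_num
      have h12 : (2 : ℝ) ≤ R ^ ((2 : ℝ) / 100) := by
        have h13 : ((2 : ℝ) ^ 50) ^ ((2 : ℝ) / 100) ≤ R ^ ((2 : ℝ) / 100) :=
          Real.rpow_le_rpow (by positivity) hb (by norm_num)
        refine le_trans (le_of_eq ?_) h13
        rw [← Real.rpow_natCast, ← Real.rpow_mul (by norm_num)]
        norm_num
      have h13 : R ^ ((3 : ℝ) / 20) = R ^ ((13 : ℝ) / 100) * R ^ ((2 : ℝ) / 100) := by
        rw [← Real.rpow_add hR0]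
        norm_num
      have h14 : (0 : ℝ) < R ^ ((13 : ℝ) / 100) := by positivity
      have h15 : (2 : ℝ) ^ (i + 1) = 2 * 2 ^ i := by ring
      rw [h15] at h5
      rw [h13] at h11
      nlinarith
    · rcases le_total ((2 : ℝ) ^ j / 2) (R ^ ((1 : ℝ) / 25)) with hT | hT
      · left
        refine ⟨hT, ?_⟩
        rcases h8 with h8 | h8
        · by_cases hsq : ∃ s : ℤ, s ^ 2 = a
          · obtain ⟨s, hs⟩ := hsq
            right; left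
            exact ⟨a, b, c, d, e, s, h7.box, hs, h9, h10⟩
          · left
            exact ⟨a, b, c, d, e, p, q, h7, h8, fun s hs => hsq ⟨s, hs⟩, h9, h10⟩
        · have h7' := h7.swap hT0
          by_cases hsq : ∃ s : ℤ, s ^ 2 = e
          · obtain ⟨s, hs⟩ := hsq
            right; right; right
            exact ⟨e, d, c, b, a, s, h7'.box, hs, by rw [invI_swap]; exact h9,
              by rw [invJ_swap]; exact h10⟩
          · right; right; left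
            exact ⟨e, d, c, b, a, q, p, h7', h8, fun s hs => hsq ⟨s, hs⟩,
              by rw [invI_swap]; exact h9, by rw [invJ_swap]; exact h10⟩
      · right
        exact ⟨hT, a, b, c, d, e, h7.box, h6, h9, h10⟩

theorem cnd {α : Type} {p : Prop} {S : Set α} {B : ℝ} (hB : 0 ≤ B)
    (h : p → S.Finite ∧ (S.ncard : ℝ) ≤ B) :
    {x | p ∧ x ∈ S}.Finite ∧ (({x | p ∧ x ∈ S}).ncard : ℝ) ≤ B := by
  by_cases hp : p
  · obtain ⟨h1, h2⟩ := h hp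
    have hs : {x | p ∧ x ∈ S} ⊆ S := fun x hx => hx.2
    refine ⟨h1.subset hs, le_trans ?_ h2⟩
    exact_mod_cast Set.ncard_le_ncard hs h1
  · have he : {x | p ∧ x ∈ S} = ∅ := Set.eq_empty_of_forall_notMem fun k hk => hp hk.1
    rw [he]
    refine ⟨Set.finite_empty, ?_⟩
    rw [Set.ncard_empty]
    simpa using hB

/-- the exceptional curves -/
def EX (R : ℝ) : Set (ℤ × ℤ) := {P | |(P.1 : ℝ)| ≤ R ^ 2 ∧ |(P.2 : ℝ)| ≤ R ^ 3 ∧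
  ∃ x y : ℤ, y ^ 2 = x ^ 3 + P.1 * x + P.2 ∧ |(x : ℝ)| ≤ Real.exp (R ^ ((1 : ℝ) / 3000))}

def Q (R : ℝ) (i j : ℕ) : Prop := R ^ ((13 : ℝ) / 100) ≤ (2 : ℝ) ^ i ∧
  Real.log (2 ^ i) ≤ R ^ ((1 : ℝ) / 3000) ∧ (2 : ℝ) ^ j / 2 ≤ R ^ ((1 : ℝ) / 25)

theorem large : ∃ M R₁ : ℝ, 0 ≤ M ∧ 1 ≤ R₁ ∧ ∀ R : ℝ, R₁ ≤ R →
    (EX R).Finite ∧ ((EX R).ncard : ℝ) ≤ M * R ^ ((79 : ℝ) / 16) := by
  classical
  obtain ⟨C1, R0, hC1, hR0, hN⟩ := cnc 3000 (by norm_num)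
  obtain ⟨C2, hC2, hQ⟩ := csq 3000 (by norm_num)
  obtain ⟨C3, hC3, hL⟩ := clt 3000 (by norm_num)
  refine ⟨1485 + 3001 * C3 + 3001 * C2 + 3001 * C2 + 6002 * C1 + 6002 * C1, max R0 (2 ^ 50),
    by positivity, le_trans hR0 (le_max_left _ _), fun R hRR => ?_⟩
  have hb : (2 : ℝ) ^ 50 ≤ R := le_trans (le_max_right _ _) hRR
  have hRR0 : R0 ≤ R := le_trans (le_max_left _ _) hRR
  have hR1 : (1 : ℝ) ≤ R := le_trans (by norm_num) hb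
  have hRpos : (0 : ℝ) < R := by linarith
  have hpow : ∀ s : ℝ, 0 < R ^ s := fun s => Real.rpow_pos_of_pos hRpos s
  have hmono : ∀ s : ℝ, s ≤ (79 : ℝ) / 16 → R ^ s ≤ R ^ ((79 : ℝ) / 16) := fun s hs =>
    Real.rpow_le_rpow_of_exponent_le hR1 hs
  have hR2 : (2 : ℝ) ≤ R ^ ((1 : ℝ) / 25) := by
    have h13 : ((2 : ℝ) ^ 50) ^ ((1 : ℝ) / 25) ≤ R ^ ((1 : ℝ) / 25) :=
      Real.rpow_le_rpow (by positivity) hb (by norm_num)
    have h14 : ((2 : ℝ) ^ 50) ^ ((1 : ℝ) / 25) = 4 := by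
      rw [← Real.rpow_natCast, ← Real.rpow_mul (by norm_num)]
      norm_num
    linarith
  have hRinv : R ^ (-(1 : ℝ) / 25) ≤ 1 / 2 := by
    rw [show (-(1 : ℝ) / 25) = -((1 : ℝ) / 25) by ring, Real.rpow_neg hRpos.le, ← one_div]
    exact one_div_le_one_div_of_le (by norm_num) hR2
  have hhalf : ∀ j : ℕ, (1 / 2 : ℝ) ≤ 2 ^ j / 2 := Pool.Agent.W382.HZ.FIN.half
  have hinv1 : ∀ j : ℕ, (2 : ℝ) ^ j / 2 ≤ R ^ ((1 : ℝ) / 25) →
      R ^ (-(1 : ℝ) / 25) ≤ 1 / ((2 : ℝ) ^ j / 2) := by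
    intro j hj
    rw [show (-(1 : ℝ) / 25) = -((1 : ℝ) / 25) by ring, Real.rpow_neg hRpos.le, ← one_div]
    exact one_div_le_one_div_of_le (by positivity) hj
  have hinv2 : ∀ j : ℕ, 1 / ((2 : ℝ) ^ j / 2) ≤ R ^ ((1 : ℝ) / 25) := by
    intro j
    refine le_trans ?_ hR2
    rw [div_le_iff₀ (by positivity)]
    have := hhalf j
    linarith
  set I := ⌊R ^ ((1 : ℝ) / 3000)⌋₊ with hI
  set J := ⌊3000 * R ^ ((1 : ℝ) / 1000)⌋₊ with hJ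
  have hI1 : ((I + 1 : ℕ) : ℝ) ≤ 2 * R ^ ((1 : ℝ) / 3000) := by
    have h1 := Nat.floor_le (hpow ((1 : ℝ) / 3000)).le
    have h2 : (1 : ℝ) ≤ R ^ ((1 : ℝ) / 3000) := Real.one_le_rpow hR1 (by norm_num)
    push_cast
    rw [← hI] at h1
    linarith
  have hJ1 : ((J + 1 : ℕ) : ℝ) ≤ 3001 * R ^ ((1 : ℝ) / 1000) := by
    have h1 := Nat.floor_le (show (0 : ℝ) ≤ 3000 * R ^ ((1 : ℝ) / 1000) by
      have := hpow ((1 : ℝ) / 1000)
      positivity)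
    have h2 : (1 : ℝ) ≤ R ^ ((1 : ℝ) / 1000) := Real.one_le_rpow hR1 (by norm_num)
    push_cast
    rw [← hJ] at h1
    linarith
  -- the unions
  have hC1' : (0 : ℝ) ≤ C1 * R ^ ((74 : ℝ) / 15) := by have := hpow ((74 : ℝ) / 15); positivity
  have hC2' : (0 : ℝ) ≤ C2 * R ^ ((23 : ℝ) / 5) := by have := hpow ((23 : ℝ) / 5); positivity
  have hC3' : (0 : ℝ) ≤ C3 * R ^ ((123 : ℝ) / 25) := by have := hpow ((123 : ℝ) / 25); positivity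
  have kL : ∀ j ∈ Finset.range (J + 1), {P | (R ^ ((1 : ℝ) / 25) ≤ (2 : ℝ) ^ j / 2) ∧
      P ∈ SL 3000 R (2 ^ j / 2)}.Finite ∧ (({P | (R ^ ((1 : ℝ) / 25) ≤ (2 : ℝ) ^ j / 2) ∧
      P ∈ SL 3000 R (2 ^ j / 2)}).ncard : ℝ) ≤ C3 * R ^ ((123 : ℝ) / 25) := fun j _ =>
    cnd hC3' fun h => hL R (2 ^ j / 2) hR1 h
  have kQ1 : ∀ j ∈ Finset.range (J + 1), {P | ((2 : ℝ) ^ j / 2 ≤ R ^ ((1 : ℝ) / 25)) ∧
      P ∈ SQ 3000 R (2 ^ j / 2)}.Finite ∧ (({P | ((2 : ℝ) ^ j / 2 ≤ R ^ ((1 : ℝ) / 25)) ∧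
      P ∈ SQ 3000 R (2 ^ j / 2)}).ncard : ℝ) ≤ C2 * R ^ ((23 : ℝ) / 5) := fun j _ =>
    cnd hC2' fun h => hQ R (2 ^ j / 2) hR1 (hRinv.trans (hhalf j)) h
  have kQ2 : ∀ j ∈ Finset.range (J + 1), {P | ((2 : ℝ) ^ j / 2 ≤ R ^ ((1 : ℝ) / 25)) ∧
      P ∈ SQ 3000 R (1 / (2 ^ j / 2))}.Finite ∧ (({P | ((2 : ℝ) ^ j / 2 ≤ R ^ ((1 : ℝ) / 25)) ∧
      P ∈ SQ 3000 R (1 / (2 ^ j / 2))}).ncard : ℝ) ≤ C2 * R ^ ((23 : ℝ) / 5) := fun j _ =>
    cnd hC2' fun h => hQ R (1 / (2 ^ j / 2)) hR1 (hinv1 j h) (hinv2 j)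
  have kN1 : ∀ ij ∈ Finset.range (I + 1) ×ˢ Finset.range (J + 1), {P | Q R ij.1 ij.2 ∧
      P ∈ SN 3000 R (2 ^ ij.2 / 2) (2 ^ ij.1)}.Finite ∧ (({P | Q R ij.1 ij.2 ∧
      P ∈ SN 3000 R (2 ^ ij.2 / 2) (2 ^ ij.1)}).ncard : ℝ) ≤ C1 * R ^ ((74 : ℝ) / 15) :=
    fun ij _ => cnd hC1' fun h => hN R (2 ^ ij.2 / 2) (2 ^ ij.1) hRR0 (hRinv.trans (hhalf ij.2))
      h.2.2 h.1 h.2.1
  have kN2 : ∀ ij ∈ Finset.range (I + 1) ×ˢ Finset.range (J + 1), {P | Q R ij.1 ij.2 ∧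
      P ∈ SN 3000 R (1 / (2 ^ ij.2 / 2)) (2 ^ ij.1)}.Finite ∧ (({P | Q R ij.1 ij.2 ∧
      P ∈ SN 3000 R (1 / (2 ^ ij.2 / 2)) (2 ^ ij.1)}).ncard : ℝ) ≤ C1 * R ^ ((74 : ℝ) / 15) :=
    fun ij _ => cnd hC1' fun h => hN R (1 / (2 ^ ij.2 / 2)) (2 ^ ij.1) hRR0 (hinv1 ij.2 h.2.2)
      (hinv2 ij.2) h.1 h.2.1
  obtain ⟨fL, cL⟩ := Pool.Agent.W382.HZ.FIN.bU _ _ _ (fun j hj => (kL j hj).1)
    (fun j hj => (kL j hj).2)
  obtain ⟨fQ1, cQ1⟩ := Pool.Agent.W382.HZ.FIN.bU _ _ _ (fun j hj => (kQ1 j hj).1)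
    (fun j hj => (kQ1 j hj).2)
  obtain ⟨fQ2, cQ2⟩ := Pool.Agent.W382.HZ.FIN.bU _ _ _ (fun j hj => (kQ2 j hj).1)
    (fun j hj => (kQ2 j hj).2)
  obtain ⟨fN1, cN1⟩ := Pool.Agent.W382.HZ.FIN.bU _ _ _ (fun j hj => (kN1 j hj).1)
    (fun j hj => (kN1 j hj).2)
  obtain ⟨fN2, cN2⟩ := Pool.Agent.W382.HZ.FIN.bU _ _ _ (fun j hj => (kN2 j hj).1)
    (fun j hj => (kN2 j hj).2)
  obtain ⟨fH, cH⟩ := sh_card R hR1
  obtain ⟨fS, cS⟩ := ss_card R hb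
  obtain ⟨fM1, cM1⟩ := sm_card R (11 / 10) (3 / 2) hb (by norm_num) (by norm_num) (by norm_num)
    (by norm_num)
  obtain ⟨fM2, cM2⟩ := sm_card R (3 / 2) (21 / 10) hb (by norm_num) (by norm_num) (by norm_num)
    (by norm_num)
  obtain ⟨fM3, cM3⟩ := sm_card R (21 / 10) (13 / 5) hb (by norm_num) (by norm_num) (by norm_num)
    (by norm_num)
  rw [Finset.card_range] at cL cQ1 cQ2
  rw [Finset.card_product, Finset.card_range, Finset.card_range] at cN1 cN2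
  set UL := ⋃ j ∈ Finset.range (J + 1), {P | (R ^ ((1 : ℝ) / 25) ≤ (2 : ℝ) ^ j / 2) ∧
      P ∈ SL 3000 R (2 ^ j / 2)} with hUL
  set U1 := ⋃ j ∈ Finset.range (J + 1), {P | ((2 : ℝ) ^ j / 2 ≤ R ^ ((1 : ℝ) / 25)) ∧
      P ∈ SQ 3000 R (2 ^ j / 2)} with hU1
  set U2 := ⋃ j ∈ Finset.range (J + 1), {P | ((2 : ℝ) ^ j / 2 ≤ R ^ ((1 : ℝ) / 25)) ∧
      P ∈ SQ 3000 R (1 / (2 ^ j / 2))} with hU2
  set U3 := ⋃ ij ∈ Finset.range (I + 1) ×ˢ Finset.range (J + 1), {P | Q R ij.1 ij.2 ∧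
      P ∈ SN 3000 R (2 ^ ij.2 / 2) (2 ^ ij.1)} with hU3
  set U4 := ⋃ ij ∈ Finset.range (I + 1) ×ˢ Finset.range (J + 1), {P | Q R ij.1 ij.2 ∧
      P ∈ SN 3000 R (1 / (2 ^ ij.2 / 2)) (2 ^ ij.1)} with hU4
  have hfin : (SS R ∪ (SM R (11 / 10) (3 / 2) ∪ (SM R (3 / 2) (21 / 10) ∪
      (SM R (21 / 10) (13 / 5) ∪ (SH R ∪ (UL ∪ (U1 ∪ (U2 ∪ (U3 ∪ U4))))))))).Finite :=
    fS.union (fM1.union (fM2.union (fM3.union (fH.union (fL.union (fQ1.union (fQ2.union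
      (fN1.union fN2))))))))
  have hsub : EX R ⊆ SS R ∪ (SM R (11 / 10) (3 / 2) ∪ (SM R (3 / 2) (21 / 10) ∪
      (SM R (21 / 10) (13 / 5) ∪ (SH R ∪ (UL ∪ (U1 ∪ (U2 ∪ (U3 ∪ U4)))))))) := by
    rintro ⟨A, B⟩ ⟨hA, hB, x, y, hxy, hx⟩
    dsimp only at hA hB hxy
    rcases le_total (x : ℝ) (R ^ ((11 : ℝ) / 10)) with k1 | k1
    · exact Or.inl ⟨hA, hB, x, y, hxy, k1⟩
    right
    rcases le_total (x : ℝ) (R ^ ((3 : ℝ) / 2)) with k2 | k2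
    · exact Or.inl ⟨hA, hB, x, y, hxy, k1, k2⟩
    right
    rcases le_total (x : ℝ) (R ^ ((21 : ℝ) / 10)) with k3 | k3
    · exact Or.inl ⟨hA, hB, x, y, hxy, k2, k3⟩
    right
    rcases le_total (x : ℝ) (R ^ ((13 : ℝ) / 5)) with k4 | k4
    · exact Or.inl ⟨hA, hB, x, y, hxy, k3, k4⟩
    right
    rcases mem hb hA hB hxy hx k4 with h1 | ⟨i, j, hi, hj, h3, h4, h5⟩
    · exact Or.inl h1
    right
    have hi' : i ∈ Finset.range (I + 1) :=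
      Finset.mem_range.2 (Nat.lt_succ_of_le (Nat.le_floor hi))
    have hj' : j ∈ Finset.range (J + 1) :=
      Finset.mem_range.2 (Nat.lt_succ_of_le (Nat.le_floor hj))
    have hij : (i, j) ∈ Finset.range (I + 1) ×ˢ Finset.range (J + 1) :=
      Finset.mem_product.2 ⟨hi', hj'⟩
    rcases h5 with ⟨hT, h6 | h6 | h6 | h6⟩ | ⟨hT, h6⟩
    · right; right; right; left
      exact Set.mem_biUnion hij ⟨⟨h3, h4, hT⟩, h6⟩
    · right; left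
      exact Set.mem_biUnion hj' ⟨hT, h6⟩
    · right; right; right; right
      exact Set.mem_biUnion hij ⟨⟨h3, h4, hT⟩, h6⟩
    · right; right; left
      exact Set.mem_biUnion hj' ⟨hT, h6⟩
    · left
      exact Set.mem_biUnion hj' ⟨hT, h6⟩
  refine ⟨hfin.subset hsub, ?_⟩
  have hcard : ((EX R).ncard : ℝ) ≤ (SS R).ncard + ((SM R (11 / 10) (3 / 2)).ncard +
      ((SM R (3 / 2) (21 / 10)).ncard + ((SM R (21 / 10) (13 / 5)).ncard + ((SH R).ncard +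
      (UL.ncard + (U1.ncard + (U2.ncard + (U3.ncard + U4.ncard)))))))) := by
    have h1 := Set.ncard_le_ncard hsub hfin
    have h2 := Set.ncard_union_le (SS R) (SM R (11 / 10) (3 / 2) ∪ (SM R (3 / 2) (21 / 10) ∪
      (SM R (21 / 10) (13 / 5) ∪ (SH R ∪ (UL ∪ (U1 ∪ (U2 ∪ (U3 ∪ U4))))))))
    have h3 := Set.ncard_union_le (SM R (11 / 10) (3 / 2)) (SM R (3 / 2) (21 / 10) ∪
      (SM R (21 / 10) (13 / 5) ∪ (SH R ∪ (UL ∪ (U1 ∪ (U2 ∪ (U3 ∪ U4)))))))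
    have h4 := Set.ncard_union_le (SM R (3 / 2) (21 / 10))
      (SM R (21 / 10) (13 / 5) ∪ (SH R ∪ (UL ∪ (U1 ∪ (U2 ∪ (U3 ∪ U4))))))
    have h5 := Set.ncard_union_le (SM R (21 / 10) (13 / 5)) (SH R ∪ (UL ∪ (U1 ∪ (U2 ∪ (U3 ∪ U4)))))
    have h6 := Set.ncard_union_le (SH R) (UL ∪ (U1 ∪ (U2 ∪ (U3 ∪ U4))))
    have h7 := Set.ncard_union_le UL (U1 ∪ (U2 ∪ (U3 ∪ U4)))
    have h8 := Set.ncard_union_le U1 (U2 ∪ (U3 ∪ U4))
    have h9 := Set.ncard_union_le U2 (U3 ∪ U4)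
    have h10 := Set.ncard_union_le U3 U4
    have h11 : (EX R).ncard ≤ (SS R).ncard + ((SM R (11 / 10) (3 / 2)).ncard +
      ((SM R (3 / 2) (21 / 10)).ncard + ((SM R (21 / 10) (13 / 5)).ncard + ((SH R).ncard +
      (UL.ncard + (U1.ncard + (U2.ncard + (U3.ncard + U4.ncard)))))))) := by omega
    exact_mod_cast h11
  refine hcard.trans ?_
  -- bounds
  obtain ⟨Z, hZ⟩ : ∃ Z : ℝ, Z = R ^ ((79 : ℝ) / 16) := ⟨_, rfl⟩
  have hZ0 : 0 < Z := by rw [hZ]; exact hpow _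
  rw [← hZ] at hmono ⊢
  have b0 : R ^ ((49 : ℝ) / 10) ≤ Z := hmono _ (by norm_num)
  have b1 : R ^ ((37 : ℝ) / 10) ≤ Z := hmono _ (by norm_num)
  have b3 : (UL.ncard : ℝ) ≤ 3001 * C3 * Z := by
    refine cL.trans ?_
    have h2 : R ^ ((1 : ℝ) / 1000) * R ^ ((123 : ℝ) / 25) ≤ Z := by
      rw [← Real.rpow_add hRpos]
      exact hmono _ (by norm_num)
    calc ((J + 1 : ℕ) : ℝ) * (C3 * R ^ ((123 : ℝ) / 25))
        ≤ (3001 * R ^ ((1 : ℝ) / 1000)) * (C3 * R ^ ((123 : ℝ) / 25)) :=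
          mul_le_mul_of_nonneg_right hJ1 hC3'
      _ = 3001 * C3 * (R ^ ((1 : ℝ) / 1000) * R ^ ((123 : ℝ) / 25)) := by ring
      _ ≤ 3001 * C3 * Z := mul_le_mul_of_nonneg_left h2 (by positivity)
  have b4 : ∀ U : Set (ℤ × ℤ), (U.ncard : ℝ) ≤ ((J + 1 : ℕ) : ℝ) * (C2 * R ^ ((23 : ℝ) / 5)) →
      (U.ncard : ℝ) ≤ 3001 * C2 * Z := by
    intro U hU
    refine hU.trans ?_
    have h2 : R ^ ((1 : ℝ) / 1000) * R ^ ((23 : ℝ) / 5) ≤ Z := by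
      rw [← Real.rpow_add hRpos]
      exact hmono _ (by norm_num)
    calc ((J + 1 : ℕ) : ℝ) * (C2 * R ^ ((23 : ℝ) / 5))
        ≤ (3001 * R ^ ((1 : ℝ) / 1000)) * (C2 * R ^ ((23 : ℝ) / 5)) :=
          mul_le_mul_of_nonneg_right hJ1 hC2'
      _ = 3001 * C2 * (R ^ ((1 : ℝ) / 1000) * R ^ ((23 : ℝ) / 5)) := by ring
      _ ≤ 3001 * C2 * Z := mul_le_mul_of_nonneg_left h2 (by positivity)
  have b5 : ∀ U : Set (ℤ × ℤ), (U.ncard : ℝ) ≤ (((I + 1) * (J + 1) : ℕ) : ℝ) *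
      (C1 * R ^ ((74 : ℝ) / 15)) → (U.ncard : ℝ) ≤ 6002 * C1 * Z := by
    intro U hU
    refine hU.trans ?_
    have h2 : R ^ ((1 : ℝ) / 3000) * R ^ ((1 : ℝ) / 1000) * R ^ ((74 : ℝ) / 15) ≤ Z := by
      rw [← Real.rpow_add hRpos, ← Real.rpow_add hRpos]
      exact hmono _ (by norm_num)
    have h5 : (((I + 1) * (J + 1) : ℕ) : ℝ) ≤
        (2 * R ^ ((1 : ℝ) / 3000)) * (3001 * R ^ ((1 : ℝ) / 1000)) := by
      rw [Nat.cast_mul]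
      exact mul_le_mul hI1 hJ1 (by positivity) (by positivity)
    calc (((I + 1) * (J + 1) : ℕ) : ℝ) * (C1 * R ^ ((74 : ℝ) / 15))
        ≤ ((2 * R ^ ((1 : ℝ) / 3000)) * (3001 * R ^ ((1 : ℝ) / 1000))) *
            (C1 * R ^ ((74 : ℝ) / 15)) :=
          mul_le_mul_of_nonneg_right h5 hC1'
      _ = 6002 * C1 * (R ^ ((1 : ℝ) / 3000) * R ^ ((1 : ℝ) / 1000) * R ^ ((74 : ℝ) / 15)) := by
          ring
      _ ≤ 6002 * C1 * Z := mul_le_mul_of_nonneg_left h2 (by positivity)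
  have c1 := b4 U1 cQ1
  have c2 := b4 U2 cQ2
  have c3 := b5 U3 cN1
  have c4 := b5 U4 cN2
  linarith

/-- the result -/
theorem main : ∃ M : ℝ, ∀ R : ℝ, 1 ≤ R → (EX R).Finite ∧
    ((EX R).ncard : ℝ) ≤ M * R ^ ((79 : ℝ) / 16) := by
  classical
  obtain ⟨M, R₁, hM, hR₁, h⟩ := large
  refine ⟨M + 9 * R₁ ^ 5, fun R hR => ?_⟩
  have hR0 : (0 : ℝ) < R := by linarith
  have hpos : 1 ≤ R ^ ((79 : ℝ) / 16) := Real.one_le_rpow hR (by norm_num)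
  have hR₁5 : 1 ≤ R₁ ^ 5 := one_le_pow₀ hR₁
  by_cases hc : R₁ ≤ R
  · obtain ⟨h1, h2⟩ := h R hc
    refine ⟨h1, h2.trans ?_⟩
    nlinarith
  · push Not at hc
    have hsub : EX R ⊆ ((bx (R ^ 2) ×ˢ bx (R ^ 3) : Finset (ℤ × ℤ)) : Set (ℤ × ℤ)) := by
      rintro ⟨A, B⟩ ⟨hA, hB, -⟩
      rw [Finset.mem_coe, Finset.mem_product]
      exact ⟨mem_Icc_of _ _ hA, mem_Icc_of _ _ hB⟩
    refine ⟨(Finset.finite_toSet _).subset hsub, ?_⟩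
    have h1 : (EX R).ncard ≤ (bx (R ^ 2) ×ˢ bx (R ^ 3)).card := by
      have := Set.ncard_le_ncard hsub (Finset.finite_toSet _)
      rwa [Set.ncard_coe_finset] at this
    have hR2 : 1 ≤ R ^ 2 := one_le_pow₀ hR
    have hR3 : 1 ≤ R ^ 3 := one_le_pow₀ hR
    have b1 : ((bx (R ^ 2)).card : ℝ) ≤ 3 * R ^ 2 := bx_card (by positivity) (by linarith)
    have b2 : ((bx (R ^ 3)).card : ℝ) ≤ 3 * R ^ 3 := bx_card (by positivity) (by linarith)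
    calc ((EX R).ncard : ℝ) ≤ ((bx (R ^ 2) ×ˢ bx (R ^ 3)).card : ℝ) := by exact_mod_cast h1
      _ = (bx (R ^ 2)).card * (bx (R ^ 3)).card := by rw [Finset.card_product]; push_cast; rfl
      _ ≤ (3 * R ^ 2) * (3 * R ^ 3) := by gcongr
      _ = 9 * R ^ 5 := by ring
      _ ≤ 9 * R₁ ^ 5 := by gcongr
      _ ≤ (M + 9 * R₁ ^ 5) * R ^ ((79 : ℝ) / 16) := by nlinarith

end

end Pool.Agent.R418.HL
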